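import Pool.Agent.MP_3ee8cb_gt.NS.Spec
import Pool.Agent.MP_3ee8cb_gt.D3LM.Lip
import Pool.Agent.MP_3ee8cb_gt.DZJ.Dom

/-! Integration by parts on the sphere. -/

namespace Pool.Agent.MP_3ee8cb_gt.NS

open DN (Dim dm)

variable [Dim]

open Set Filter Topology MeasureTheory Real DN DZ Metric
open scoped RealInnerProductSpace

namespace RIBP

theorem un_norm {w : V} (h : w ≠ 0) : ‖un w‖ = 1 := norm_smul_inv_norm (𝕜 := ℝ) h

theorem sh_ne {w : V} (h : w ∈ Sh) : w ≠ 0 := norm_pos_iff.1 (one_pos.trans_le h.1)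

theorem un_meas : Measurable (un : V → V) := by
  unfold un
  fun_prop

theorem sph : IsCompact {w : V | ‖w‖ = 1} := by
  have := isCompact_sphere (0 : V) 1
  simpa [sphere, dist_zero_right] using this

theorem un_ae (ms : MS) : ∀ᵐ w ∂mS, ‖un w‖ = 1 := ms.mem.mono fun _ h => un_norm (sh_ne h)

/-- Functions continuous on the sphere are integrable. -/
theorem intc (ms : MS) {F : Type} [NormedAddCommGroup F] {h : V → F}
    (hc : ContinuousOn h {w | ‖w‖ = 1}) : Integrable (fun w => h (un w)) mS := by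
  have cS : IsCompact (Sh : Set V) := by
    refine (isCompact_closedBall (0 : V) 2).of_isClosed_subset
      ((isClosed_le continuous_const continuous_norm).inter
        (isClosed_le continuous_norm continuous_const)) fun w hw => ?_
    simpa using hw.2
  have := ms.fin
  rw [← Measure.restrict_eq_self_of_ae_mem ms.mem]
  refine ContinuousOn.integrableOn_compact cS (hc.comp ?_ fun w hw => un_norm (sh_ne hw))
  exact (continuous_norm.continuousOn.inv₀ fun w hw => norm_ne_zero_iff.2 (sh_ne hw)).smul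
    continuousOn_id

omit [Dim] in
theorem rot_ex {W : Type} [NormedAddCommGroup W] [InnerProductSpace ℝ W] [FiniteDimensional ℝ W]
    (A : W →L[ℝ] W) (sk : ∀ a b, ⟪A a, b⟫ = -⟪a, A b⟫) (cu : ∀ a, A (A (A a)) = -A a) :
    ∃ O : ℝ → W ≃ₗᵢ[ℝ] W, (∀ a, O 0 a = a) ∧ ∀ a, HasDerivAt (fun s => O s a) (A a) 0 := by
  have z : ∀ a, ⟪a, A a⟫ = 0 := fun a => by
    have := sk a a
    rw [real_inner_comm] at this
    linarith
  have hn : ∀ (t : ℝ) (w : W), ‖w + sin t • A w + (1 - cos t) • A (A w)‖ = ‖w‖ := fun t w => by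
    have h1 : ⟪w, A (A w)⟫ = -⟪A w, A w⟫ := by rw [sk w (A w), neg_neg]
    have h2 : ⟪A (A w), A (A w)⟫ = ⟪A w, A w⟫ := by
      rw [sk (A w) (A (A w)), cu, inner_neg_right, neg_neg]
    have h3 := z w
    have h4 := z (A w)
    rw [← sq_eq_sq₀ (norm_nonneg _) (norm_nonneg _), ← real_inner_self_eq_norm_sq,
      ← real_inner_self_eq_norm_sq]
    simp only [inner_add_left, inner_add_right, real_inner_smul_left, real_inner_smul_right]
    rw [real_inner_comm w (A w), real_inner_comm w (A (A w)), real_inner_comm (A w) (A (A w)),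
      h1, h2, h3, h4]
    linear_combination ⟪A w, A w⟫ * sin_sq_add_cos_sq t
  let R : ℝ → W →ₗᵢ[ℝ] W := fun t => ⟨LinearMap.id + sin t • (A : W →ₗ[ℝ] W) +
    (1 - cos t) • ((A : W →ₗ[ℝ] W) ∘ₗ (A : W →ₗ[ℝ] W)), hn t⟩
  have hR : ∀ t a, (R t).toLinearIsometryEquiv rfl a =
      a + sin t • A a + (1 - cos t) • A (A a) := fun _ _ => rfl
  refine ⟨fun t => (R t).toLinearIsometryEquiv rfl, fun a => by simp [hR], fun a => ?_⟩
  simp only [hR]
  have h := (((hasDerivAt_sin 0).smul_const (A a)).const_add a).fun_add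
    (((hasDerivAt_cos 0).const_sub 1).smul_const (A (A a)))
  simpa using h

theorem un_lip {φ : V → ℝ} {K : NNReal} (hφ : LipschitzOnWith K φ {w | ‖w‖ = 1}) :
    LocallyLipschitzOn {w | w ≠ 0} fun v => φ (un v) := by
  intro w (w0 : w ≠ 0)
  obtain ⟨K2, t2, n2, h2⟩ : ∃ K, ∃ t ∈ 𝓝 w, LipschitzOnWith K un t :=
    (((contDiffAt_norm ℝ (n := 1) w0).inv (norm_ne_zero_iff.2 w0)).smul
      contDiffAt_id).exists_lipschitzOnWith
  exact ⟨K * K2, t2 ∩ {a | a ≠ 0}, nhdsWithin_le_nhds (inter_mem n2 (isOpen_ne.mem_nhds w0)),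
    hφ.comp (h2.mono inter_subset_left) fun a ha => un_norm ha.2⟩

theorem un_map (O : V ≃ₗᵢ[ℝ] V) (w : V) : un (O w) = O (un w) := by
  simp [un]

theorem smul_un {w : V} (h : w ≠ 0) : ‖w‖ • un w = w := by
  rw [un, smul_smul, mul_inv_cancel₀ (norm_ne_zero_iff.2 h), one_smul]

/-- Integration by parts along a rotation. -/
theorem one (ms : MS) {φ : V → ℝ} {K : NNReal} (hφ : LipschitzOnWith K φ {w | ‖w‖ = 1})
    {g : V → ℝ} (hg : ContDiff ℝ 1 g) (A : V →L[ℝ] V) (sk : ∀ a b, ⟪A a, b⟫ = -⟪a, A b⟫)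
    (cu : ∀ a, A (A (A a)) = -A a) :
    Integrable (fun w => sd φ w (A (un w)) * g (un w)) mS ∧
      ∫ w, sd φ w (A (un w)) * g (un w) ∂mS =
        -∫ w, φ (un w) * fderiv ℝ g (un w) (A (un w)) ∂mS := by
  have := ms.fin
  obtain ⟨O, h0, hO⟩ := rot_ex A sk cu
  obtain ⟨C, C0, hC⟩ := DZJ.rot_bd h0 hO
  obtain ⟨K2, hK2⟩ := (hg.locallyLipschitz.locallyLipschitzOn (s := {w | ‖w‖ = 1})
    ).exists_lipschitzOnWith_of_compact sph
  obtain ⟨B1, hB1⟩ := sph.exists_bound_of_continuousOn hφ.continuousOn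
  obtain ⟨B2, hB2⟩ := sph.exists_bound_of_continuousOn hg.continuous.continuousOn
  have cF : ContinuousOn (fun u => φ u * g u) {w | ‖w‖ = 1} :=
    hφ.continuousOn.mul hg.continuous.continuousOn
  have it : ∀ s : ℝ, Integrable (fun w => φ (un (O s w)) * g (un (O s w))) mS := fun s =>
    ((ms.rot (O s)).integrable_comp_emb (O s).toHomeomorph.measurableEmbedding).2 (intc ms cF)
  have i2 : Integrable (fun w => φ (un w) * fderiv ℝ g (un w) (A (un w))) mS :=
    intc ms (h := fun u => φ u * fderiv ℝ g u (A u)) (hφ.continuousOn.mul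
      ((hg.continuous_fderiv one_ne_zero).clm_apply A.continuous).continuousOn)
  have m1 : Measurable fun w => sd φ w (A (un w)) :=
    isBoundedBilinearMap_apply.continuous.measurable.comp
      ((measurable_fderiv ℝ fun v => φ (un v)).prodMk
        (measurable_norm.smul (A.continuous.measurable.comp un_meas)))
  have mD : AEStronglyMeasurable (fun w => sd φ w (A (un w)) * g (un w) +
      φ (un w) * fderiv ℝ g (un w) (A (un w))) mS :=
    (m1.mul (hg.continuous.measurable.comp un_meas)).aestronglyMeasurable.add i2.1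
  have hd : ∀ᵐ w ∂mS, DifferentiableAt ℝ (fun v => φ (un v)) w := by
    filter_upwards [ms.ac.ae_le (D3LM.ae_diff (volume : Measure V) isOpen_ne (un_lip hφ)),
      ms.mem] with w hw h using hw (sh_ne h)
  set L : ℝ →L[ℝ] ℝ →L[ℝ] ℝ := ContinuousLinearMap.smulRightL ℝ ℝ ℝ 1
  have key := hasFDerivAt_integral_of_dominated_loc_of_lip' (𝕜 := ℝ) (μ := mS) (x₀ := (0 : ℝ))
    (F := fun s w => φ (un (O s w)) * g (un (O s w)))
    (F' := fun w => L (sd φ w (A (un w)) * g (un w) + φ (un w) * fderiv ℝ g (un w) (A (un w))))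
    (bound := fun _ => (K * B2 + B1 * K2) * C) hC
    (fun s _ => (it s).1) (it 0) (L.continuous.comp_aestronglyMeasurable mD)
    ((un_ae ms).mono fun w hw s hs => by
      have n1 : ‖O s (un w)‖ = 1 := by rw [LinearIsometryEquiv.norm_map, hw]
      have e1 := hφ.norm_sub_le n1 hw
      have e2 := hK2.norm_sub_le n1 hw
      have e3 := hs (un w)
      have e4 := hB1 _ hw
      have e5 := hB2 _ n1
      rw [hw, mul_one] at e3
      simp only [h0, un_map, sub_zero]
      have e6 : φ (O s (un w)) * g (O s (un w)) - φ (un w) * g (un w) =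
          (φ (O s (un w)) - φ (un w)) * g (O s (un w)) +
            φ (un w) * (g (O s (un w)) - g (un w)) := by ring
      rw [e6]
      refine (norm_add_le _ _).trans ?_
      rw [norm_mul, norm_mul, Real.norm_eq_abs s]
      have f1 := e1.trans (mul_le_mul_of_nonneg_left e3 K.2)
      have f2 := e2.trans (mul_le_mul_of_nonneg_left e3 K2.2)
      have f3 := mul_le_mul f1 e5 (norm_nonneg _) ((norm_nonneg _).trans f1)
      have f4 := mul_le_mul e4 f2 (norm_nonneg _) ((norm_nonneg _).trans e4)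
      nlinarith)
    (integrable_const _) (by
      filter_upwards [hd, ms.mem] with w hw hm
      have h1 : HasFDerivAt (fun v => φ (un v)) (fderiv ℝ (fun v => φ (un v)) w) (O 0 w) := by
        rw [h0]
        exact hw.hasFDerivAt
      have h2 : HasFDerivAt g (fderiv ℝ g (un w)) (O 0 (un w)) := by
        rw [h0]
        exact (hg.differentiable one_ne_zero _).hasFDerivAt
      have h3 := (h1.comp_hasDerivAt (0 : ℝ) (hO w)).mul (h2.comp_hasDerivAt (0 : ℝ) (hO (un w)))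
      have h4 : sd φ w (A (un w)) = fderiv ℝ (fun v => φ (un v)) w (A w) := by
        rw [sd, ← map_smul, smul_un (sh_ne hm)]
      simp only [Function.comp_apply, h0] at h3
      rw [h4]
      refine HasDerivAt.hasFDerivAt (h3.congr_of_eventuallyEq (.of_forall fun s => ?_))
      simp [un_map])
  have z : ∀ s : ℝ, ∫ w, φ (un (O s w)) * g (un (O s w)) ∂mS = ∫ w, φ (un w) * g (un w) ∂mS :=
    fun s => (ms.rot (O s)).integral_comp (O s).toHomeomorph.measurableEmbedding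
      fun w => φ (un w) * g (un w)
  simp only [z] at key
  have i1 : Integrable (fun w => sd φ w (A (un w)) * g (un w) +
      φ (un w) * fderiv ℝ g (un w) (A (un w))) mS := by
    have := key.1.apply_continuousLinearMap 1
    simpa [L] using this
  have i3 : Integrable (fun w => sd φ w (A (un w)) * g (un w)) mS := by
    simpa using i1.sub' i2
  refine ⟨i3, ?_⟩
  have h2 := key.2.unique (hasFDerivAt_const _ (0 : ℝ))
  rw [L.integral_comp_comm i1, integral_add i3 i2] at h2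
  have h3 := congrArg (· 1) h2
  simp [L] at h3
  linarith

/-- The generators of the rotations. -/
noncomputable def gen (b : OrthonormalBasis (Fin dm) ℝ V) (i j : Fin dm) : V →L[ℝ] V :=
  (innerSL ℝ (b i)).smulRight (b j) - (innerSL ℝ (b j)).smulRight (b i)

theorem gen_ap (b : OrthonormalBasis (Fin dm) ℝ V) (i j : Fin dm) (a : V) :
    gen b i j a = ⟪b i, a⟫ • b j - ⟪b j, a⟫ • b i := rfl

theorem gen_sk (b : OrthonormalBasis (Fin dm) ℝ V) (i j : Fin dm) (a c : V) :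
    ⟪gen b i j a, c⟫ = -⟪a, gen b i j c⟫ := by
  simp only [gen_ap, inner_sub_left, inner_sub_right, real_inner_smul_left,
    real_inner_smul_right, real_inner_comm a]
  ring

theorem gen_cu (b : OrthonormalBasis (Fin dm) ℝ V) (i j : Fin dm) (a : V) :
    gen b i j (gen b i j (gen b i j a)) = -gen b i j a := by
  rcases eq_or_ne i j with h | h
  · simp only [gen_ap, h, sub_self, neg_zero]
  · have h1 : ∀ k, ⟪b k, b k⟫ = 1 := fun k => by
      rw [real_inner_self_eq_norm_sq, b.orthonormal.1 k, one_pow]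
    have h2 : ⟪b i, b j⟫ = 0 := b.orthonormal.2 h
    have h3 : ⟪b j, b i⟫ = 0 := b.orthonormal.2 h.symm
    simp only [gen_ap, inner_sub_right, real_inner_smul_right, h1, h2, h3]
    module

theorem gen_sum (b : OrthonormalBasis (Fin dm) ℝ V) {u : V} (hu : ‖u‖ = 1) (x : V) :
    x - ⟪u, x⟫ • u = ∑ i, ∑ j, (⟪b i, u⟫ * ⟪b j, x⟫) • gen b i j u := by
  have h1 : ∑ i, ⟪b i, u⟫ ^ 2 = 1 := by rw [b.sum_sq_inner_right, hu, one_pow]
  have h2 : ∑ j, ⟪b j, x⟫ * ⟪b j, u⟫ = ⟪u, x⟫ := by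
    rw [← b.sum_inner_mul_inner u x]
    exact Finset.sum_congr rfl fun j _ => by rw [real_inner_comm u, mul_comm]
  have h3 : ∀ i, ∑ j, (⟪b i, u⟫ * ⟪b j, x⟫) • gen b i j u =
      ⟪b i, u⟫ ^ 2 • x - ⟪u, x⟫ • ⟪b i, u⟫ • b i := fun i => by
    conv_rhs => rw [← h2, ← b.sum_repr' x]
    rw [b.sum_repr' x, Finset.sum_smul]
    conv_rhs => enter [1, 2]; rw [← b.sum_repr' x]
    rw [Finset.smul_sum, ← Finset.sum_sub_distrib]
    refine Finset.sum_congr rfl fun j _ => ?_
    rw [gen_ap]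
    module
  simp only [h3, Finset.sum_sub_distrib, ← Finset.sum_smul, ← Finset.smul_sum, h1, b.sum_repr',
    one_smul]

theorem gen_div (b : OrthonormalBasis (Fin dm) ℝ V) {u : V} (hu : ‖u‖ = 1) (x : V)
    (D : V →L[ℝ] V) :
    ∑ i, ∑ j, (⟪b i, gen b i j u⟫ * ⟪b j, x⟫ + ⟪b i, u⟫ * ⟪b j, D (gen b i j u)⟫) =
      ∑ j, ⟪b j, D (b j)⟫ - ⟪u, D u⟫ - (dm - 1) * ⟪u, x⟫ := by
  classical
  have h1 : ∑ i, ⟪b i, u⟫ ^ 2 = 1 := by rw [b.sum_sq_inner_right, hu, one_pow]
  have h2 : ∀ y, ∑ j, ⟪b j, u⟫ * ⟪b j, y⟫ = ⟪u, y⟫ := fun y => by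
    rw [← b.sum_inner_mul_inner u y]
    exact Finset.sum_congr rfl fun j _ => by rw [real_inner_comm u]
  have h3 : ∀ i j, ⟪b i, b j⟫ = if i = j then 1 else 0 := orthonormal_iff_ite.1 b.orthonormal
  have h4 : ∀ i, ∑ j, (⟪b i, gen b i j u⟫ * ⟪b j, x⟫ + ⟪b i, u⟫ * ⟪b j, D (gen b i j u)⟫) =
      ⟪b i, u⟫ * ⟪b i, x⟫ - ⟪u, x⟫ + ⟪b i, u⟫ ^ 2 * ∑ j, ⟪b j, D (b j)⟫ -
        ⟪u, D (⟪b i, u⟫ • b i)⟫ := fun i => by
    have e : ∀ j, ⟪b i, gen b i j u⟫ * ⟪b j, x⟫ + ⟪b i, u⟫ * ⟪b j, D (gen b i j u)⟫ =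
        (if i = j then ⟪b i, u⟫ * ⟪b j, x⟫ else 0) - ⟪b j, u⟫ * ⟪b j, x⟫ +
          ⟪b i, u⟫ ^ 2 * ⟪b j, D (b j)⟫ - ⟪b j, u⟫ * ⟪b j, D (⟪b i, u⟫ • b i)⟫ := fun j => by
      simp only [gen_ap, map_sub, map_smul, inner_sub_right, real_inner_smul_right, h3, if_true]
      split_ifs <;> ring
    simp only [e, Finset.sum_sub_distrib, Finset.sum_add_distrib, Finset.sum_ite_eq,
      Finset.mem_univ, if_true, h2, ← Finset.mul_sum]
  have h5 : ∑ i, ⟪u, D (⟪b i, u⟫ • b i)⟫ = ⟪u, D u⟫ := by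
    rw [← inner_sum, ← map_sum, b.sum_repr']
  simp only [h4, Finset.sum_sub_distrib, Finset.sum_add_distrib, h2, ← Finset.sum_mul, h1, h5,
    Finset.sum_const, Finset.card_univ, Fintype.card_fin, nsmul_eq_mul]
  ring

/-- Integration by parts against a vector field. -/
theorem field (ms : MS) {φ : V → ℝ} {K : NNReal} (hφ : LipschitzOnWith K φ {w | ‖w‖ = 1})
    (b : OrthonormalBasis (Fin dm) ℝ V) {ξ : V → V} (hξ : ContDiff ℝ 1 ξ) :
    Integrable (fun w => sd φ w (ξ (un w) - ⟪un w, ξ (un w)⟫ • un w)) mS ∧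
      ∫ w, sd φ w (ξ (un w) - ⟪un w, ξ (un w)⟫ • un w) ∂mS =
        -∫ w, φ (un w) * (∑ j, ⟪b j, fderiv ℝ ξ (un w) (b j)⟫ -
          ⟪un w, fderiv ℝ ξ (un w) (un w)⟫ - (dm - 1) * ⟪un w, ξ (un w)⟫) ∂mS := by
  have hg : ∀ i j, ContDiff ℝ 1 fun u => ⟪b i, u⟫ * ⟪b j, ξ u⟫ := fun i j =>
    (contDiff_const.inner ℝ contDiff_id).mul (contDiff_const.inner ℝ hξ)
  have k := fun i j => one ms hφ (hg i j) (gen b i j) (gen_sk b i j) (gen_cu b i j)
  have dg : ∀ i j u v, fderiv ℝ (fun u => ⟪b i, u⟫ * ⟪b j, ξ u⟫) u v =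
      ⟪b i, v⟫ * ⟪b j, ξ u⟫ + ⟪b i, u⟫ * ⟪b j, fderiv ℝ ξ u v⟫ := fun i j u v => by
    have h := (innerSL ℝ (b i)).hasFDerivAt (x := u) |>.mul
      ((innerSL ℝ (b j)).hasFDerivAt.comp u (hξ.differentiable one_ne_zero u).hasFDerivAt)
    refine (congrArg (· v) h.fderiv).trans ?_
    simp
    ring
  have i2 : ∀ i j, Integrable (fun w => φ (un w) *
      fderiv ℝ (fun u => ⟪b i, u⟫ * ⟪b j, ξ u⟫) (un w) (gen b i j (un w))) mS := fun i j =>
    intc ms (h := fun u => φ u * fderiv ℝ (fun u => ⟪b i, u⟫ * ⟪b j, ξ u⟫) u (gen b i j u))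
      (hφ.continuousOn.mul
        (((hg i j).continuous_fderiv one_ne_zero).clm_apply (gen b i j).continuous).continuousOn)
  have e1 : (fun w => sd φ w (ξ (un w) - ⟪un w, ξ (un w)⟫ • un w)) =ᵐ[mS] fun w =>
      ∑ i, ∑ j, sd φ w (gen b i j (un w)) * (⟪b i, un w⟫ * ⟪b j, ξ (un w)⟫) := by
    filter_upwards [un_ae ms] with w hw
    rw [gen_sum b hw]
    simp only [sd, Finset.smul_sum, map_sum, map_smul, smul_eq_mul]
    exact Finset.sum_congr rfl fun i _ => Finset.sum_congr rfl fun j _ => by ring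
  have e2 : (fun w => φ (un w) * (∑ j, ⟪b j, fderiv ℝ ξ (un w) (b j)⟫ -
      ⟪un w, fderiv ℝ ξ (un w) (un w)⟫ - (dm - 1) * ⟪un w, ξ (un w)⟫)) =ᵐ[mS] fun w =>
      ∑ i, ∑ j, φ (un w) *
        fderiv ℝ (fun u => ⟪b i, u⟫ * ⟪b j, ξ u⟫) (un w) (gen b i j (un w)) := by
    filter_upwards [un_ae ms] with w hw
    simp only [dg, ← Finset.mul_sum, gen_div b hw]
  refine ⟨(integrable_finsetSum _ fun i _ => integrable_finsetSum _ fun j _ =>
    (k i j).1).congr e1.symm, ?_⟩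
  rw [integral_congr_ae e1, integral_congr_ae e2,
    integral_finsetSum _ fun i _ => integrable_finsetSum _ fun j _ => (k i j).1,
    integral_finsetSum _ fun i _ => integrable_finsetSum _ fun j _ => i2 i j,
    ← Finset.sum_neg_distrib]
  refine Finset.sum_congr rfl fun i _ => ?_
  rw [integral_finsetSum _ fun j _ => (k i j).1, integral_finsetSum _ fun j _ => i2 i j,
    ← Finset.sum_neg_distrib]
  exact Finset.sum_congr rfl fun j _ => (k i j).2

theorem tr_eq (b : OrthonormalBasis (Fin dm) ℝ V) (M : V →L[ℝ] V) :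
    tr M = ∑ j, ⟪b j, M (b j)⟫ := LinearMap.trace_eq_sum_inner _ b

variable {T : T3} {d : ℝ}

theorem sk2 (h : Alg T d) (u v w s : V) : ⟪T u v w, s⟫ = -⟪T u v s, w⟫ := by
  rw [h.ps u v w s, h.ps u v s w, h.sk w s u, inner_neg_left]

theorem sk0 (h : Alg T d) (u v w : V) : ⟪T u v w, w⟫ = 0 := by
  have := sk2 h u v w w
  linarith

theorem sym (h : Alg T d) (e a c : V) : ⟪T e a c, e⟫ = ⟪T e c a, e⟫ := by
  rw [h.ps e a c e, h.sk c e e, inner_neg_left, sk2 h e c a e]

/-- The polarised trace. -/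
theorem pol (h : Alg T d) (b : OrthonormalBasis (Fin dm) ℝ V) (a c : V) :
    ∑ j, ⟪T (b j) a c, b j⟫ = d * ⟪a, c⟫ := by
  have h1 : ∀ w, ∑ j, ⟪T (b j) w w, b j⟫ = d * ‖w‖ ^ 2 := fun w => by
    rw [← h.trc, tr_eq b]
    exact Finset.sum_congr rfl fun j _ => real_inner_comm _ _
  have h2 := h1 (a + c)
  have h3 : ∀ j, ⟪T (b j) (a + c) (a + c), b j⟫ =
      ⟪T (b j) a a, b j⟫ + ⟪T (b j) c c, b j⟫ + 2 * ⟪T (b j) a c, b j⟫ := fun j => by
    simp only [map_add, add_apply, inner_add_left, sym h (b j) c a]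
    ring
  simp only [h3, Finset.sum_add_distrib, h1, ← Finset.mul_sum, norm_add_sq_real] at h2
  linarith

/-- The affine fields. -/
theorem aff (ms : MS) {φ : V → ℝ} {K : NNReal} (hφ : LipschitzOnWith K φ {w | ‖w‖ = 1})
    (h : Alg T d) (e : V) (M : V →L[ℝ] V) :
    Integrable (fun w => sd φ w (H0 T (un w) (e + M (un w)))) mS ∧
      ∫ w, sd φ w (H0 T (un w) (e + M (un w))) ∂mS = -∫ w, φ (un w) *
        (tr M + tr ((Pw T (un w)).comp M) - (dm + d) * ⟪un w, M (un w)⟫ -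
          (dm + d - 1) * ⟪un w, e⟫) ∂mS := by
  let b : OrthonormalBasis (Fin dm) ℝ V := EuclideanSpace.basisFun (Fin dm) ℝ
  have c1 : ContDiff ℝ 1 fun u => e + M u := contDiff_const.add M.contDiff
  have c2 : ContDiff ℝ 1 fun u => T (e + M u) := contDiff_const.clm_apply c1
  have hξ : ContDiff ℝ 1 fun u => e + M u + T (e + M u) u u :=
    c1.add ((c2.clm_apply contDiff_id).clm_apply contDiff_id)
  have dξ : ∀ u v, fderiv ℝ (fun u => e + M u + T (e + M u) u u) u v =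
      M v + T (M v) u u + T (e + M u) v u + T (e + M u) u v := fun u v => by
    have a1 : HasFDerivAt (fun u => e + M u) M u := M.hasFDerivAt.const_add e
    have a2 := a1.add (((T.hasFDerivAt.comp u a1).clm_apply (hasFDerivAt_id u)).clm_apply
      (hasFDerivAt_id u))
    refine (congrArg (· v) a2.fderiv).trans ?_
    simp
    abel
  obtain ⟨k1, k2⟩ := field ms hφ b hξ
  have e1 : ∀ u, e + M u + T (e + M u) u u - ⟪u, e + M u + T (e + M u) u u⟫ • u =
      H0 T u (e + M u) := fun u => by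
    rw [inner_add_right u (e + M u), real_inner_comm (T (e + M u) u u), sk0 h, add_zero, H0]
    abel
  simp only [e1] at k1 k2
  refine ⟨k1, k2.trans ?_⟩
  congr 1
  refine integral_congr_ae (.of_forall fun w => ?_)
  beta_reduce
  generalize un w = u
  have a1 : ∀ j, ⟪b j, T (e + M u) (b j) u⟫ = -⟪T (b j) (e + M u) u, b j⟫ := fun j => by
    rw [h.sk (e + M u) (b j) u, inner_neg_right, real_inner_comm]
  have a2 : ∀ x y z : V, ⟪z, T x y z⟫ = 0 := fun x y z => by rw [real_inner_comm, sk0 h]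
  have a3 : ∀ j, ⟪b j, ((Pw T u).comp M) (b j)⟫ = ⟪b j, T (M (b j)) u u⟫ := fun j => rfl
  simp only [dξ, tr_eq b, a3]
  simp only [inner_add_right _ (_ + _), inner_add_right _ (M _), a1, a2, Finset.sum_add_distrib,
    Finset.sum_neg_distrib, pol h b, Finset.sum_const_zero]
  simp only [inner_add_right, real_inner_comm u]
  ring

end RIBP

theorem sIBP : SIBP := by
  intro φ K T d ms hφ h
  refine ⟨fun M => ?_, fun e => ?_⟩
  · simpa only [zero_add, inner_zero_right, mul_zero, sub_zero] using RIBP.aff ms hφ h 0 M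
  · obtain ⟨k1, k2⟩ := RIBP.aff ms hφ h e 0
    have t0 : tr 0 = 0 := by simp [tr]
    simp only [zero_apply, add_zero, ContinuousLinearMap.comp_zero, t0,
      inner_zero_right, mul_zero, sub_zero] at k1 k2
    refine ⟨k1, k2.trans ?_⟩
    rw [← integral_neg, ← integral_const_mul]
    exact integral_congr_ae (.of_forall fun w => by ring)

end Pool.Agent.MP_3ee8cb_gt.NS
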