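import Pool.Agent.MP_3ee8cb_gt.NS.Spec
import Pool.Agent.MP_3ee8cb_gt.DZ.RJA

/-! First order data of the zero of the weighted field. -/

namespace Pool.Agent.MP_3ee8cb_gt.NS

open DN (Dim dm)

variable [Dim]

open Set Filter Topology MeasureTheory Metric DN DZ
open scoped RealInnerProductSpace

namespace JAN

theorem lip {m₀ m : MF} {lg dX T ε u C C₀ Q} (xw : XW m₀ dX)
    (sp : SupN m lg dX T ε u C C₀ Q) {f : V → V} (hf : LocallyLipschitz f) :
    LocallyLipschitzOn {q | q.2 ≠ 0} fun q : V × V => u q.1 (f q.1) (un q.2) := by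
  rintro ⟨x, w⟩ (w0 : w ≠ 0)
  obtain ⟨K, hK⟩ := sp.lipz x (‖f x‖ + 1)
  obtain ⟨K1, t1, n1, h1⟩ := hf x
  obtain ⟨K2, t2, n2, h2⟩ : ∃ K, ∃ t ∈ 𝓝 w, LipschitzOnWith K un t :=
    (((contDiffAt_norm ℝ (n := 1) w0).inv (norm_ne_zero_iff.2 w0)).smul
      contDiffAt_id).exists_lipschitzOnWith
  have h3 := xw.upp x 1 one_pos
  rw [nhds_prod_eq] at h3
  obtain ⟨t3, n3, h3⟩ := (eventually_prod_self_iff
    (r := fun y z => dX y z ≤ (1 + 1) * ‖m₀.S x (z - y)‖)).1 h3
  have n4 : ∀ᶠ y in 𝓝 x, ‖f y‖ ≤ ‖f x‖ + 1 :=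
    hf.continuous.norm.continuousAt.eventually_le_const (lt_add_one _)
  have n5 : ∀ᶠ y in 𝓝 x, (1 + 1) * ‖m₀.S x (y - x)‖ ≤ 1 := by
    have c : Continuous fun y => (1 + 1) * ‖m₀.S x (y - x)‖ := by fun_prop
    exact c.continuousAt.eventually_le_const (by simp)
  refine ⟨K * (K1 + K2) + 2 * ‖m₀.S x‖₊, (t1 ∩ t3 ∩ {y | ‖f y‖ ≤ ‖f x‖ + 1} ∩
    {y | (1 + 1) * ‖m₀.S x (y - x)‖ ≤ 1}) ×ˢ (t2 ∩ {a | a ≠ 0}), nhdsWithin_le_nhds
      (prod_mem_nhds (inter_mem (inter_mem (inter_mem n1 n3) n4) n5)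
        (inter_mem n2 (isOpen_ne.mem_nhds w0))), LipschitzOnWith.of_dist_le_mul ?_⟩
  rintro ⟨y, a⟩ ⟨⟨⟨⟨y1, y3⟩, y4⟩, y5⟩, a2, a0⟩ ⟨z, b⟩ ⟨⟨⟨⟨z1, z3⟩, z4⟩, -⟩, b2, b0⟩
  have e1 := (hK y ((h3 x (mem_of_mem_nhds n3) y y3).trans y5)).dist_le_mul (f y, un a)
    ⟨y4, ja_un a0⟩ (f z, un b) ⟨z4, ja_un b0⟩
  have e2 := (sp.lipx y z (f z) (un b) (ja_un b0)).trans (h3 y y3 z z3)
  have e3 := h1.dist_le_mul y y1 z z1
  have e4 := h2.dist_le_mul a a2 b b2
  have e5 := (m₀.S x).le_opNorm (z - y)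
  have d1 : dist y z ≤ dist (y, a) (z, b) := le_max_left _ _
  have d2 : dist a b ≤ dist (y, a) (z, b) := le_max_right _ _
  have d0 : 0 ≤ dist (y, a) (z, b) := dist_nonneg
  have e6 : dist (f y, un a) (f z, un b) ≤ (K1 + K2) * dist (y, a) (z, b) := by
    have k1 := mul_le_mul_of_nonneg_left d1 K1.2
    have k2 := mul_le_mul_of_nonneg_left d2 K2.2
    have k3 := mul_nonneg K1.2 d0
    have k4 := mul_nonneg K2.2 d0
    simp only [NNReal.val_eq_coe] at k1 k2 k3 k4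
    exact max_le (by linarith) (by linarith)
  have e7 := mul_le_mul_of_nonneg_left e6 K.2
  have e8 := mul_le_mul_of_nonneg_left d1 (norm_nonneg (m₀.S x))
  rw [← dist_eq_norm, dist_comm] at e5
  rw [← Real.dist_eq] at e2
  have e9 := dist_triangle (u y (f y) (un a)) (u y (f z) (un b)) (u z (f z) (un b))
  simp only [NNReal.val_eq_coe] at e7
  push_cast
  simp only at e1 e2 ⊢
  nlinarith

theorem un_der {w η : V} (w0 : w ≠ 0) (h : ⟪w, η⟫ = 0) :
    HasDerivAt (fun t : ℝ => un (w + t • η)) (‖w‖⁻¹ • η) 0 := by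
  have h1 := ((hasDerivAt_id (0 : ℝ)).smul_const η).const_add w
  rw [one_smul] at h1
  have n0 := norm_ne_zero_iff.2 w0
  have h2 := h1.norm_sq.sqrt (by simpa using w0)
  simp only [Real.sqrt_sq (norm_nonneg _), id, zero_smul, add_zero, h, mul_zero,
    zero_div] at h2
  have h3 := (h2.inv (by simpa using w0)).smul h1
  simp only [id, zero_smul, add_zero, neg_zero, zero_div, Pi.inv_apply] at h3
  exact h3

theorem h0_perp {T : T3} {d : ℝ} (al : Alg T d) {v : V} (hv : ‖v‖ = 1) (a : V) :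
    ⟪v, H0 T v a⟫ = 0 := by
  have h1 := al.ps a v v v
  have h2 : ⟪T v v v, v⟫ = 0 := by
    have := congrArg (fun y => ⟪y, v⟫) (al.sk v v v)
    simp only [inner_neg_left] at this
    linarith
  have h3 : ⟪T v v a, v⟫ = 0 := by
    have := congrArg (fun y => ⟪y, v⟫) (al.sk v v a)
    simp only [inner_neg_left] at this
    linarith
  rw [H0, inner_add_right, inner_sub_right, inner_smul_right, real_inner_self_eq_norm_sq, hv,
    real_inner_comm (T a v v), h1, h3]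
  ring

theorem int_un (ms : MS) {φ : V → ℝ} (h : ContinuousOn φ {w | ‖w‖ = 1}) :
    Integrable (fun w => φ (un w)) mS := by
  have := ms.fin
  have nS : ∀ w ∈ Sh, w ≠ 0 := fun w hw => norm_pos_iff.1 (one_pos.trans_le hw.1)
  have cS : IsCompact (Sh : Set V) := (isCompact_closedBall (0 : V) 2).of_isClosed_subset
    ((isClosed_le continuous_const continuous_norm).inter
      (isClosed_le continuous_norm continuous_const)) fun _ h => mem_closedBall_zero_iff.2 h.2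
  rw [← Measure.restrict_eq_self_of_ae_mem ms.mem]
  exact (h.comp ((continuous_norm.continuousOn.inv₀ fun w hw =>
    norm_ne_zero_iff.2 (nS w hw)).smul continuousOn_id)
      fun w hw => ja_un (nS w hw)).integrableOn_compact cS

theorem tr_cont (T : T3) (M : V →L[ℝ] V) : Continuous fun w => tr ((Pw T w).comp M) := by
  have e : ∀ w, tr ((Pw T w).comp M) = ∑ i, ⟪stdOrthonormalBasis ℝ V i,
      T (M (stdOrthonormalBasis ℝ V i)) w w⟫ := fun w =>
    LinearMap.trace_eq_sum_inner _ _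
  simp only [e]
  fun_prop

end JAN

open JAN

theorem sJAN : SJAN := by
  intro ibp m₀ m lg dX T d ε u C C₀ Q ms xw yw al _ _ sp f zr hf
  have := ms.fin
  have hd : ∀ (x e : V) (η : ℝ), 0 < η →
      ∀ᶠ s in 𝓝 (0 : ℝ), dX x (x + s • e) ≤ (‖m₀.S x e‖ + η) * |s| := fun x e η hη => by
    have p : 0 < ‖m₀.S x e‖ + 1 := by positivity
    have c : Continuous fun s : ℝ => (x, x + s • e) := by fun_prop
    have t := c.tendsto 0
    rw [zero_smul, add_zero] at t
    filter_upwards [t.eventually (xw.upp x _ (div_pos hη p))] with s hs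
    rw [add_sub_cancel_left, map_smul, norm_smul, Real.norm_eq_abs, mul_comm |s|,
      ← mul_assoc] at hs
    refine hs.trans (mul_le_mul_of_nonneg_right ?_ (abs_nonneg s))
    have : η / (‖m₀.S x e‖ + 1) * ‖m₀.S x e‖ ≤ η := by
      rw [div_mul_eq_mul_div, div_le_iff₀ p]
      nlinarith
    linarith
  obtain ⟨s, hs⟩ : ∃ s : ℝ, s = dm + d := ⟨_, rfl⟩
  have s0 : 0 < s := by
    have := (al 0).d0
    rw [hs]
    positivity
  rw [← hs] at zr ⊢
  set g₀ : V × V → ℝ := fun q => u q.1 (f q.1) (un q.2) with hg₀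
  have l0 : LocallyLipschitzOn {q | q.2 ≠ 0} g₀ := lip xw sp hf
  set g : V × V → ℝ := fun q => Real.exp (s * g₀ q) with hg
  have l1 : LocallyLipschitzOn {q | q.2 ≠ 0} g := by
    have c : ContDiff ℝ 1 fun t : ℝ => Real.exp (s * t) := by fun_prop
    exact locallyLipschitzOn_iff_restrict.2
      (c.locallyLipschitz.comp (locallyLipschitzOn_iff_restrict.1 l0))
  have r1 := D3LM.ae_diff (volume : Measure V) isOpen_univ hf.locallyLipschitzOn
  have r2 := Measure.ae_ae_of_ae_prod (D3LM.ae_diff ((volume : Measure V).prod volume)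
    (isOpen_ne.preimage continuous_snd) l0)
  filter_upwards [r1, r2] with x h1 h2
  replace h1 := h1 (mem_univ x)
  have n0 : ∀ᵐ w ∂mS, w ≠ 0 := ms.mem.mono fun w hw => norm_pos_iff.1 (one_pos.trans_le hw.1)
  have h3 : ∀ᵐ w ∂mS, DifferentiableAt ℝ g₀ (x, w) := by
    filter_upwards [ms.ac.ae_le h2, n0] with w hw w0 using hw w0
  have h4 : ∀ w, DifferentiableAt ℝ g₀ (x, w) →
      HasFDerivAt g (g (x, w) • s • fderiv ℝ g₀ (x, w)) (x, w) := fun w hw =>
    (hw.hasFDerivAt.const_mul s).exp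
  obtain ⟨l, hl⟩ : ∃ l : V → V →L[ℝ] ℝ, ∀ w e,
      l w e = fderiv ℝ g (x, w) (e, (-m.om (f x) (fderiv ℝ f x e)) w) :=
    ⟨fun w => (fderiv ℝ g (x, w)).comp ((ContinuousLinearMap.id ℝ V).prod
      (-((m.om (f x)).flip w).comp (fderiv ℝ f x))), fun w e => by simp⟩
  have z1 : ∀ e, Integrable (fun w => l w e • un w) mS ∧ ∫ w, l w e • un w ∂mS = 0 := fun e => by
    obtain ⟨O, o0, -, o1⟩ := yw.jac.par (f x, m.S (f x) (fderiv ℝ f x e))
    simp only [hl]
    refine DZJ.dom (f := g) l1 x e mS ms.mem ms.rot o0 (fun a => ?_) (fun y => zr.zero y)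
      (h3.mono fun w hw => (h4 w hw).differentiableAt)
    have := o1 a 0
    rwa [o0, MF.w, yw.ok.zero, yw.ok.RS] at this
  obtain ⟨K, hK⟩ := (l1.mono (s := {x} ×ˢ sphere 0 1) fun q hq => ne_zero_of_mem_unit_sphere
    ⟨q.2, hq.2⟩).exists_lipschitzOnWith_of_compact (isCompact_singleton.prod
      (isCompact_sphere _ _))
  set G : V → ℝ := Gs s u x (f x) with hG
  have eG : ∀ w, G (un w) = g (x, w) := fun _ => rfl
  have lG : LipschitzOnWith K G {w | ‖w‖ = 1} := LipschitzOnWith.of_dist_le_mul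
    fun a (ha : ‖a‖ = 1) b (hb : ‖b‖ = 1) => by
      have k := hK.dist_le_mul (x, a) ⟨rfl, mem_sphere_zero_iff_norm.2 ha⟩ (x, b)
        ⟨rfl, mem_sphere_zero_iff_norm.2 hb⟩
      rwa [← eG, ← eG, un, un, ha, hb, inv_one, one_smul, one_smul, dist_prod_same_left] at k
  have cG := lG.continuousOn
  have G0 : ∀ w, 0 < G w := fun _ => Real.exp_pos _
  refine ⟨h1, G, cG, G0, fun S => ?_⟩
  set M : V →L[ℝ] V := (LL m₀ m f x).comp S with hM
  have z2 : Integrable (fun w => l w (m₀.R x (S (un w)))) mS ∧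
      ∫ w, l w (m₀.R x (S (un w))) ∂mS = 0 := by
    let b := stdOrthonormalBasis ℝ V
    have e : ∀ w, l w (m₀.R x (S (un w))) = ∑ i, ⟪b i, l w (m₀.R x (S (b i))) • un w⟫ :=
      fun w => by
        conv_lhs => rw [← b.sum_repr' (un w)]
        simp only [map_sum, map_smul, inner_smul_right, smul_eq_mul, mul_comm]
    have i : ∀ i, Integrable (fun w => ⟪b i, l w (m₀.R x (S (b i))) • un w⟫) mS := fun i =>
      (z1 _).1.const_inner _
    simp only [e]
    refine ⟨integrable_finsetSum _ fun j _ => i j, ?_⟩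
    rw [integral_finsetSum _ fun j _ => i j]
    refine Finset.sum_eq_zero fun j _ => ?_
    have k := z1 (m₀.R x (S (b j)))
    exact (integral_inner k.1 _).trans (by rw [k.2, inner_zero_right])
  obtain ⟨z3, z4⟩ := (ibp G K (T (f x)) d ms lG (al _)).1 M
  rw [← hs] at z4
  have i1 : Integrable (fun w => G (un w) * ‖S (un w)‖) mS :=
    int_un ms (φ := fun w => G w * ‖S w‖) (cG.mul (by fun_prop))
  have i2 : Integrable (fun w => G (un w) * ⟪un w, M (un w)⟫) mS :=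
    int_un ms (φ := fun w => G w * ⟪w, M w⟫) (cG.mul (by fun_prop))
  have i3 : Integrable (fun w => G (un w) * (tr M + tr ((Pw (T (f x)) (un w)).comp M))) mS :=
    int_un ms (φ := fun w => G w * (tr M + tr ((Pw (T (f x)) w).comp M)))
      (cG.mul (continuous_const.add (tr_cont _ _)).continuousOn)
  have e1 : ∀ w, G (un w) * (‖S (un w)‖ - ⟪un w, M (un w)⟫ +
      (sd G w (H0 (T (f x)) (un w) (M (un w))) - l w (m₀.R x (S (un w)))) / (s * G (un w))) =
      G (un w) * ‖S (un w)‖ - G (un w) * ⟪un w, M (un w)⟫ +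
        s⁻¹ * (sd G w (H0 (T (f x)) (un w) (M (un w))) - l w (m₀.R x (S (un w)))) := fun w => by
    have := (G0 (un w)).ne'
    field_simp
  refine ⟨fun w => ‖S (un w)‖ - ⟪un w, M (un w)⟫ + (sd G w (H0 (T (f x)) (un w) (M (un w))) -
    l w (m₀.R x (S (un w)))) / (s * G (un w)), ?_, ?_, ?_⟩
  · simp only [e1]
    exact (i1.sub i2).add ((z3.sub z2.1).const_mul _)
  · have e2 : ∀ w, G (un w) * (tr M + tr ((Pw (T (f x)) (un w)).comp M) - s * ⟪un w, M (un w)⟫) =
        G (un w) * (tr M + tr ((Pw (T (f x)) (un w)).comp M)) -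
          s * (G (un w) * ⟪un w, M (un w)⟫) := fun w => by ring
    have i4 : Integrable (fun w => G (un w) * ‖S (un w)‖ - G (un w) * ⟪un w, M (un w)⟫) mS :=
      i1.sub i2
    have i5 : Integrable (fun w => s⁻¹ * (sd G w (H0 (T (f x)) (un w) (M (un w))) -
      l w (m₀.R x (S (un w))))) mS := (z3.sub z2.1).const_mul _
    simp only [e1, e2] at z4 ⊢
    rw [integral_sub i3 (i2.const_mul _), integral_const_mul] at z4
    rw [integral_add i4 i5, integral_sub i1 i2, integral_const_mul, integral_sub z3 z2.1, z4, z2.2]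
    field_simp
    ring
  filter_upwards [h3, n0] with w hw w0
  have v1 := ja_un w0
  obtain ⟨Φ, D, c, ζ, k1, k2, k3, k4, -, k5, -, k6, k7, k8⟩ := sp.tou x (f x) (un w)
    (sp.nest x x (by rw [xw.self]; exact zero_le_one) (zr.mem x)) v1
  refine ⟨c, ζ, k4, k5, k6, k7, ?_⟩
  obtain ⟨e, he⟩ : ∃ e, e = m₀.R x (S (un w)) := ⟨_, rfl⟩
  obtain ⟨a, ha⟩ : ∃ a, a = H0 (T (f x)) (un w) (M (un w)) := ⟨_, rfl⟩
  have eM : m.S (f x) (fderiv ℝ f x e) = M (un w) := by rw [he]; rfl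
  have wn := norm_ne_zero_iff.2 w0
  have a0 : ⟪w, a⟫ = 0 := by
    have := h0_perp (al (f x)) v1 (M (un w))
    rw [← ha, un, real_inner_smul_left] at this
    exact (mul_eq_zero.1 this).resolve_left (inv_ne_zero wn)
  obtain ⟨η, hη⟩ : ∃ η, η = (-m.om (f x) (fderiv ℝ f x e)) w - ‖w‖ • a := ⟨_, rfl⟩
  have η0 : ⟪w, η⟫ = 0 := by
    have := yw.ok.skew (f x) (fderiv ℝ f x e) w w
    rw [real_inner_comm] at this
    rw [hη, inner_sub_right, inner_smul_right, a0, ContinuousLinearMap.neg_apply,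
      inner_neg_right]
    linarith
  have h5 := ((hasDerivAt_id (0 : ℝ)).smul_const e).const_add x
  have h6 := ((hasDerivAt_id (0 : ℝ)).smul_const η).const_add w
  rw [one_smul] at h5 h6
  have c1 : HasFDerivAt g₀ (fderiv ℝ g₀ (x, w)) (x + (0 : ℝ) • e, w + (0 : ℝ) • η) := by
    rw [zero_smul, add_zero, zero_smul, add_zero]
    exact hw.hasFDerivAt
  have c2 := c1.comp_hasDerivAt (0 : ℝ) (h5.prodMk h6)
  have c3 : HasDerivAt (fun t : ℝ => (f (x + t • e), un (w + t • η)))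
      (fderiv ℝ f x e, ‖w‖⁻¹ • η) 0 := by
    have h7 : HasFDerivAt f (fderiv ℝ f x) (x + (0 : ℝ) • e) := by
      rw [zero_smul, add_zero]
      exact h1.hasFDerivAt
    exact (h7.comp_hasDerivAt (0 : ℝ) h5).prodMk (un_der w0 η0)
  have e0 : (f (x + (0 : ℝ) • e), un (w + (0 : ℝ) • η)) = (f x, un w) := by
    rw [zero_smul, add_zero, zero_smul, add_zero]
  have c4 : HasFDerivAt Φ D (f (x + (0 : ℝ) • e), un (w + (0 : ℝ) • η)) := e0 ▸ k1
  have c5 := c4.comp_hasDerivAt (0 : ℝ) c3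
  have c7 : m.hor (f x, un w) (fderiv ℝ f x e, ‖w‖⁻¹ • η) = M (un w) := eM
  rw [k8 _ (by
    rw [c7, ← ha, hη, smul_sub, smul_smul, inv_mul_cancel₀ wn, one_smul, ← map_smul]
    simp [MF.ver, un]
    abel), c7] at c5
  have c6 := DZJ.touch (N := ‖m₀.S x e‖) c2 c5 (by simp [hg₀, k2]) fun θ hθ => by
    have t1 := c3.continuousAt.tendsto
    rw [e0] at t1
    have t2 := h6.continuousAt.eventually_ne (y := 0) (by simpa using w0)
    filter_upwards [hd x e θ hθ, t1.eventually k3, t2] with t s1 s2 s3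
    have n1 := ja_un s3
    have s4 := (abs_le.1 (sp.lipx x (x + t • e) (f (x + t • e)) _ n1)).2
    have s5 := s2 n1
    simp only [hg₀, Function.comp, id] at s4 ⊢
    linarith
  have c8 : sd G w a = g (x, w) * (s * fderiv ℝ g₀ (x, w) (0, ‖w‖ • a)) := by
    have := (h4 w hw).comp w (hasFDerivAt_prodMk_right x w)
    rw [sd, show (fun v => G (un v)) = g ∘ fun v => (x, v) from rfl, this.fderiv]
    rfl
  have c9 : fderiv ℝ g₀ (x, w) (e, η) = fderiv ℝ g₀ (x, w)
      (e, (-m.om (f x) (fderiv ℝ f x e)) w) - fderiv ℝ g₀ (x, w) (0, ‖w‖ • a) := by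
    rw [← map_sub, Prod.mk_sub_mk, sub_zero, hη]
  have p : 0 < s * G (un w) := mul_pos s0 (G0 _)
  rw [he, xw.ok.SR, ← he, c9, inner_add_left, real_inner_smul_left] at c6
  change (c - 1) * ⟪un w, M (un w)⟫ + ⟪ζ, M (un w)⟫ ≤ _
  rw [← he, ← ha, c8, hl, (h4 w hw).fderiv, ← eG, ← sub_le_iff_le_add', le_div_iff₀ p]
  simp only [ContinuousLinearMap.smul_apply, smul_eq_mul]
  nlinarith [mul_le_mul_of_nonneg_left c6 p.le]

end Pool.Agent.MP_3ee8cb_gt.NS
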