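import Pool.Agent.MP_3ee8cb_gt.NS.Spec

/-! Algebra of the model tensors and the lower curvature bound. -/

namespace Pool.Agent.MP_3ee8cb_gt.NS

open DN (Dim dm)

variable [Dim]

open DN DZ
open scoped RealInnerProductSpace

theorem tr_onb (b : OrthonormalBasis (Fin dm) ℝ V) (M : V →L[ℝ] V) :
    tr M = ∑ i, ⟪b i, M (b i)⟫ := LinearMap.trace_eq_sum_inner _ b

theorem Pw_app (T : T3) (w u : V) : Pw T w u = T u w w := rfl

theorem le_tr {P : V →L[ℝ] V} (pos : ∀ u, 0 ≤ ⟪P u, u⟫) (u : V) :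
    ⟪P u, u⟫ ≤ tr P * ‖u‖ ^ 2 := by
  have k : ∀ u : V, ‖u‖ = 1 → ⟪P u, u⟫ ≤ tr P := fun u hu => by
    let i : Fin dm := ⟨0, Nat.succ_pos _⟩
    obtain ⟨b, hb⟩ := Orthonormal.exists_orthonormalBasis_extension_of_card_eq (𝕜 := ℝ)
      (ι := Fin dm) (by simp) (v := fun _ => u) (s := {i})
      ⟨fun _ => hu, fun a b h => (h (Subsingleton.elim a b)).elim⟩
    rw [tr_onb b, ← hb i rfl, real_inner_comm]
    exact Finset.single_le_sum (f := fun j => ⟪b j, P (b j)⟫)
      (fun j _ => by rw [real_inner_comm]; exact pos _) (Finset.mem_univ i)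
  rcases eq_or_ne u 0 with rfl | h
  · simp
  have n := norm_pos_iff.2 h
  have := k (‖u‖⁻¹ • u) (norm_smul_inv_norm h)
  rw [map_smul, real_inner_smul_left, real_inner_smul_right] at this
  calc ⟪P u, u⟫ = ‖u‖⁻¹ * (‖u‖⁻¹ * ⟪P u, u⟫) * ‖u‖ ^ 2 := by field_simp
    _ ≤ _ := mul_le_mul_of_nonneg_right this (sq_nonneg _)

namespace Alg

variable {T : T3} {d : ℝ} (A : Alg T d)

include A

theorem self (u w : V) : T u u w = 0 := by
  have h : (2 : ℝ) • T u u w = 0 := by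
    rw [two_smul]
    exact add_eq_zero_iff_eq_neg.2 (A.sk u u w)
  exact (smul_eq_zero.1 h).resolve_left two_ne_zero

theorem sk' (u v w s : V) : ⟪T u v w, s⟫ = -⟪T u v s, w⟫ := by
  rw [A.ps, A.ps u v s, A.sk w s, inner_neg_left]

theorem perp (u v w : V) : ⟪T u v w, w⟫ = 0 := by
  rw [A.ps, A.self, inner_zero_left]

/-- The two middle slots can be exchanged together with the two outer ones. -/
theorem swap (u v w s : V) : ⟪T u v w, s⟫ = ⟪T s w v, u⟫ := by
  rw [A.ps, A.sk w s, inner_neg_left, A.sk', neg_neg]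

theorem sym (u v w : V) : ⟪T u w w, v⟫ = ⟪T v w w, u⟫ := A.swap u w w v

theorem both (u w : V) : ⟪T u w w, u⟫ = ⟪T w u u, w⟫ := by
  rw [A.sk u w, inner_neg_left, A.sk', neg_neg]

theorem le' (u w : V) : ⟪T u w w, u⟫ ≤ d * ‖w‖ ^ 2 * ‖u‖ ^ 2 := by
  have := le_tr (P := Pw T w) (fun u => A.pos u w) u
  rwa [A.trc] at this

theorem le (u w : V) : ⟪T u w w, u⟫ ≤ d * (‖u‖ ^ 2 * ‖w‖ ^ 2 - ⟪u, w⟫ ^ 2) := by
  rcases eq_or_ne w 0 with rfl | h
  · simp
  have n : 0 < ‖w‖ ^ 2 := pow_pos (norm_pos_iff.2 h) 2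
  have k := A.le' (‖w‖ ^ 2 • u - ⟪u, w⟫ • w) w
  rw [norm_sub_sq_real, norm_smul, norm_smul, mul_pow, mul_pow, Real.norm_eq_abs,
    Real.norm_eq_abs, sq_abs, sq_abs] at k
  simp only [map_sub, map_smul, ContinuousLinearMap.sub_apply, ContinuousLinearMap.smul_apply,
    A.self, smul_zero, sub_zero, inner_sub_right, real_inner_smul_left, real_inner_smul_right,
    A.perp] at k
  refine le_of_mul_le_mul_left ?_ (mul_pos n n)
  nlinarith

theorem nrm (u w : V) : ‖T u w w‖ ≤ d * ‖w‖ ^ 2 * ‖u‖ := by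
  have d0 := A.d0
  have k : ∀ t : ℝ, 0 ≤ ⟪T (T u w w) w w, T u w w⟫ * (t * t) + 2 * ‖T u w w‖ ^ 2 * t +
      ⟪T u w w, u⟫ := fun t => by
    have := A.pos (t • T u w w + u) w
    simp only [map_add, map_smul, ContinuousLinearMap.add_apply, ContinuousLinearMap.smul_apply,
      inner_add_left, inner_add_right, real_inner_smul_left, real_inner_smul_right] at this
    rw [A.sym (T u w w) u, real_inner_self_eq_norm_sq] at this
    linarith
  have h := discrim_le_zero k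
  unfold discrim at h
  have h1 := A.le' (T u w w) w
  have h2 := A.le' u w
  have h3 := mul_le_mul h1 h2 (A.pos u w) (by positivity)
  rcases (norm_nonneg (T u w w)).eq_or_lt with e | e
  · rw [← e]
    positivity
  refine abs_le_of_sq_le_sq' (le_of_mul_le_mul_left ?_ (pow_pos e 2)) (by positivity) |>.2
  nlinarith

end Alg

theorem sDN : SDN := fun m T d δ δ1 N y a b => by
  have h := (abs_le.1 (N.cur y a b)).1
  have h1 := (N.alg y).le a b
  have h2 := (N.alg y).d1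
  have q : 0 ≤ ‖a‖ ^ 2 * ‖b‖ ^ 2 - ⟪a, b⟫ ^ 2 := by
    have := real_inner_mul_inner_self_le a b
    rw [real_inner_self_eq_norm_sq, real_inner_self_eq_norm_sq] at this
    nlinarith
  nlinarith [mul_le_mul_of_nonneg_right h2 q, mul_le_mul_of_nonneg_right δ1 q]

end Pool.Agent.MP_3ee8cb_gt.NS
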