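import Pool.Agent.MP_3ee8cb_gt.DZ.Spec

/-! Rigidity of metrics near a rank one model: definitions and statements of the blocks. -/

namespace Pool.Agent.MP_3ee8cb_gt.NS

open DN (Dim dm)

variable [Dim]

open Set Filter Topology MeasureTheory Real DN DZ
open CR (Met UT dd ng bus)
open scoped RealInnerProductSpace

noncomputable section

/-! ### Model tensors -/

/-- Trilinear maps. -/
abbrev T3 := V →L[ℝ] V →L[ℝ] V →L[ℝ] V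

/-- The trace. -/
def tr (M : V →L[ℝ] V) : ℝ := LinearMap.trace ℝ V (M : V →ₗ[ℝ] V)

/-- The operator `u ↦ T u w w`. -/
def Pw (T : T3) (w : V) : V →L[ℝ] V := (T.flip w).flip w

/-- The model for the Hessian of a Busemann function. -/
def H0 (T : T3) (w a : V) : V := a - ⟪w, a⟫ • w + T a w w

structure Alg (T : T3) (d : ℝ) : Prop where
  d0 : 0 ≤ d
  d1 : d ≤ dm - 1
  sk : ∀ u v w, T u v w = -T v u w
  ps : ∀ u v w s, ⟪T u v w, s⟫ = ⟪T w s u, v⟫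
  pos : ∀ u w, 0 ≤ ⟪T u w w, u⟫
  trc : ∀ w, tr (Pw T w) = d * ‖w‖ ^ 2

/-- The curvature is close to the almost parallel model `T`, in frames. -/
structure NM (m : MF) (T : V → T3) (d δ : ℝ) : Prop where
  alg : ∀ y, Alg (T y) d
  sq : ∀ y u w, ‖w‖ = 1 → ‖T y (T y u w w) w w - T y u w w‖ ≤ δ * ‖u‖
  up : m.Up 1
  cur : ∀ y u w, |⟪m.K y u w w, u⟫ + (‖u‖ ^ 2 * ‖w‖ ^ 2 - ⟪u, w⟫ ^ 2) + 3 * ⟪T y u w w, u⟫| ≤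
    δ * (‖u‖ ^ 2 * ‖w‖ ^ 2 - ⟪u, w⟫ ^ 2)
  par : ∀ (z : V × V) (u : ℝ → V) (u' : V) (t : ℝ), ‖z.2‖ = 1 →
    HasDerivAt u (u' - m.w z t (u t)) t → ∃ e : V, ‖e‖ ≤ δ * ‖u t‖ ∧
      HasDerivAt (fun s => T (m.Z s z).1 (u s) (m.Z s z).2 (m.Z s z).2)
        (T (m.Z t z).1 u' (m.Z t z).2 (m.Z t z).2 + e -
          m.w z t (T (m.Z t z).1 (u t) (m.Z t z).2 (m.Z t z).2)) t

def SDN : Prop := ∀ (m : MF) T (d δ : ℝ), δ ≤ 1 → NM m T d δ → m.Dn (3 * dm)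

/-! ### The penalised function -/

/-- The penalised Busemann function. -/
def ph (m : MF) (lam : ℝ) (b : V → ℝ) (q : V × V) : ℝ :=
  (1 + lam) * b q.1 - lam - lam * b (m.Z 1 q).1

/-- Its derivative in the directions of the model stable spaces. -/
def HN (m : MF) (T : V → T3) (k δ : ℝ) (b : V → ℝ) (ν : V → V) : Prop :=
  ∀ (lam : ℝ) (z w : V), 1 ≤ lam → ‖w‖ = 1 → b (m.Z 1 (z, w)).1 ≤ b z →
    ∃ (D : V × V →L[ℝ] ℝ) (c : ℝ) (ζ : V), HasFDerivAt (ph m lam b) D (z, w) ∧ ⟪ζ, w⟫ = 0 ∧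
      (∀ ξ, m.ver (z, w) ξ = -H0 (T z) w (m.hor (z, w) ξ) →
        D ξ = -⟪c • w + ζ, m.hor (z, w) ξ⟫) ∧
      lam * ‖ν z - w‖ ^ 2 / 4 ≤ c - 1 ∧ c - 1 ≤ k * lam * ‖ν z - w‖ ^ 2 ∧
      ‖ζ‖ ≤ ‖ν z - w‖ + k * lam * ‖ν z - w‖ * (δ + ‖ν z - w‖)

def SHN : Prop := ∃ k : ℝ, 1 ≤ k ∧ ∀ (m : MF) lg T (d δ : ℝ) b ν, 0 ≤ δ → δ ≤ 1 → YW m lg →
  NM m T d δ → IsB m lg b ν → B1 m lg b ν → HN m T k δ b ν

/-- A modulus of continuity that depends on the curvature bounds only. -/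
def SMOD : Prop := ∀ R hi η : ℝ, 0 < η → ∃ σ : ℝ, 0 < σ ∧ OnB fun m lg _ _ _ A => BG lg A →
  m.Dn hi → ∀ p p' z, A.pr p = A.pr p' → z ∈ A.C R (A.pr p) → ‖A.ν p z - A.ν p' z‖ ≤ σ →
    A.β p z - A.β p' z ≤ η

/-- The support function. -/
def uN {P : Type} (A : Fam P) (m : MF) (lam : ℝ) (x z w : V) : ℝ :=
  sSup ((fun p => ph m lam (A.β p) (z, w)) '' {p | A.pr p = x})

/-- The maximum is attained in the direction `w`. -/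
def TN {P : Type} (A : Fam P) (m : MF) (lam : ℝ) (x z w : V) : Prop :=
  ∃ p, A.pr p = x ∧ A.ν p z = w ∧
    ∀ p', A.pr p' = x → ph m lam (A.β p') (z, w) ≤ ph m lam (A.β p) (z, w)

/-- The radius. -/
def R0 : ℝ := 17 * 16 ^ dm

/-- An abstract support function. -/
structure SupN (m : MF) (lg : V × V → V) (dX : V → V → ℝ) (T : V → T3) (ε : ℝ)
    (u : V → V → V → ℝ) (C C₀ : V → Set V) (Q : V → V → V → Prop) : Prop where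
  lipx : ∀ x x' z w, ‖w‖ = 1 → |u x z w - u x' z w| ≤ dX x x'
  lipz : ∀ (x₀ : V) (R : ℝ), ∃ K, ∀ x, dX x₀ x ≤ 1 →
    LipschitzOnWith K (fun q : V × V => u x q.1 q.2) {q | ‖q.1‖ ≤ R ∧ ‖q.2‖ = 1}
  tou : ∀ x z w, z ∈ C x → ‖w‖ = 1 → ∃ (Φ : V × V → ℝ) (D : V × V →L[ℝ] ℝ) (c : ℝ) (ζ : V),
    HasFDerivAt Φ D (z, w) ∧ Φ (z, w) = u x z w ∧
    (∀ᶠ q in 𝓝 (z, w), ‖q.2‖ = 1 → Φ q ≤ u x q.1 q.2) ∧ 1 ≤ c ∧ c ≤ 1 + ε ∧ ⟪ζ, w⟫ = 0 ∧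
    ‖ζ‖ ≤ ε ∧ ‖ζ‖ ^ 2 ≤ ε ^ 2 * (c - 1) ∧ (c = 1 → Q x z w) ∧
    ∀ ξ, m.ver (z, w) ξ = -H0 (T z) w (m.hor (z, w) ξ) → D ξ = -⟪c • w + ζ, m.hor (z, w) ξ⟫
  bd : ∀ x z w, z ∈ C x → ‖w‖ = 1 → |u x z w| ≤ R0 + 2
  cvx : ∀ x (z : V × V), z.1 ∈ C x → (m.Z 1 z).1 ∈ C x → ∀ t ∈ Icc (0 : ℝ) 1, (m.Z t z).1 ∈ C x
  nest : ∀ x x', dX x x' ≤ 1 → C₀ x' ⊆ C x
  ctr : ∀ x, ∃ y, (∀ w, ‖w‖ = 1 → |u x y w| ≤ log 2) ∧ ∀ z, ‖lg (y, z)‖ ≤ R0 → z ∈ C₀ x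

def SSUPN : Prop := SMOD → ∀ k ε : ℝ, 1 ≤ k → 0 < ε → ∃ lam δ : ℝ, 1 ≤ lam ∧ 0 < δ ∧ δ ≤ 1 ∧
  OnB fun m lg dX _ _ A => BG lg A → m.Dn (3 * dm) → ∀ T,
    (∀ p, HN m T k δ (A.β p) (A.ν p)) →
      SupN m lg dX T ε (uN A m lam) (A.C (R0 + 2)) (A.C (R0 + 1)) (TN A m lam)

/-! ### Integration by parts on the sphere -/

/-- The derivative along the sphere. -/
def sd (φ : V → ℝ) (w a : V) : ℝ := fderiv ℝ (fun v => φ (un v)) w (‖w‖ • a)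

def SIBP : Prop := ∀ (φ : V → ℝ) (K : NNReal) (T : T3) (d : ℝ), MS →
  LipschitzOnWith K φ {w | ‖w‖ = 1} → Alg T d →
  (∀ M : V →L[ℝ] V, Integrable (fun w => sd φ w (H0 T (un w) (M (un w)))) mS ∧
    ∫ w, sd φ w (H0 T (un w) (M (un w))) ∂mS = -∫ w, φ (un w) *
      (tr M + tr ((Pw T (un w)).comp M) - (dm + d) * ⟪un w, M (un w)⟫) ∂mS) ∧
  ∀ e : V, Integrable (fun w => sd φ w (H0 T (un w) e)) mS ∧
    ∫ w, sd φ w (H0 T (un w) e) ∂mS = (dm + d - 1) * ∫ w, φ (un w) * ⟪un w, e⟫ ∂mS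

/-! ### The zero of the weighted field -/

/-- The weight. -/
def Gs (s : ℝ) (u : V → V → V → ℝ) (x z w : V) : ℝ := exp (s * u x z w)

/-- The mass. -/
def AA (G : V → V → V → ℝ) (x z : V) : ℝ := ∫ w, G x z (un w) ∂mS

structure ZrN (lg : V × V → V) (dX : V → V → ℝ) (G : V → V → V → ℝ) (C C₀ : V → Set V)
    (f : V → V) : Prop where
  mem : ∀ x, f x ∈ C₀ x
  zero : ∀ x, VV G x (f x) = 0
  uniq : ∀ x z, z ∈ C x → VV G x z = 0 → z = f x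
  lip : ∃ K : ℝ, 0 ≤ K ∧ ∀ x x', dX x x' ≤ 1 → ‖lg (f x, f x')‖ ≤ K * dX x x'

/-- A statement about a support function. -/
def OnN (R : MF → MF → (V × V → V) → (V → V → ℝ) → (V → T3) → ℝ → ℝ → (V → V → V → ℝ) →
    (V → Set V) → (V → Set V) → (V → V → V → Prop) → Prop) : Prop :=
  ∀ m₀ m lg dX T (d ε : ℝ) u C C₀ Q, MS → XW m₀ dX → YW m lg → (∀ y, Alg (T y) d) → 0 ≤ ε →
    16 * dm * 16 ^ dm * ε ≤ 1 → SupN m lg dX T ε u C C₀ Q → R m₀ m lg dX T d ε u C C₀ Q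

/-- The differential inequalities along a geodesic. -/
def Mon (m : MF) (k : ℝ) (G : V → V → V → ℝ) (C : V → Set V) : Prop :=
  ∀ (x : V) (z : V × V) (L : ℝ), ‖z.2‖ = 1 → (∀ t ∈ Icc 0 L, (m.Z t z).1 ∈ C x) →
    (∃ K, LipschitzOnWith K (fun t => AA G x (m.Z t z).1) (Icc 0 L) ∧
      LipschitzOnWith K (fun t => -⟪VV G x (m.Z t z).1, (m.Z t z).2⟫) (Icc 0 L)) ∧
    ∀ᵐ t, t ∈ Ioo 0 L → ∃ a b : ℝ, HasDerivAt (fun t => AA G x (m.Z t z).1) a t ∧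
      HasDerivAt (fun t => -⟪VV G x (m.Z t z).1, (m.Z t z).2⟫) b t ∧
      (1 - k) * AA G x (m.Z t z).1 ≤ b ∧
      -⟪VV G x (m.Z t z).1, (m.Z t z).2⟫ - k * AA G x (m.Z t z).1 ≤ a

def SMON : Prop := SIBP → OnN fun _ m _ _ _ d ε u C _ _ =>
  Mon m (2 * (dm + d) * ε) (Gs (dm + d) u) C

def SZN : Prop := OnN fun _ m lg dX _ d ε u C C₀ _ =>
  Mon m (2 * (dm + d) * ε) (Gs (dm + d) u) C → ∃ f, ZrN lg dX (Gs (dm + d) u) C C₀ f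

def SFLN : Prop := ∀ m₀ m lg dX G C C₀ f, XW m₀ dX → YW m lg → ZrN lg dX G C C₀ f →
  LocallyLipschitz f

/-! ### The Jacobian -/

/-- First order data at a point. -/
def FoN (T : T3) (s ε : ℝ) (L : V →L[ℝ] V) (Q : V → Prop) : Prop := ∃ G : V → ℝ,
  ContinuousOn G {w | ‖w‖ = 1} ∧ (∀ w, 0 < G w) ∧ ∀ S : V →L[ℝ] V, ∃ r : V → ℝ,
    Integrable (fun w => G (un w) * r w) mS ∧
    s * ∫ w, G (un w) * r w ∂mS = s * ∫ w, G (un w) * ‖S (un w)‖ ∂mS -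
      ∫ w, G (un w) * (tr (L.comp S) + tr ((Pw T (un w)).comp (L.comp S))) ∂mS ∧
    ∀ᵐ w ∂mS, ∃ (c : ℝ) (ζ : V), 1 ≤ c ∧ ⟪ζ, un w⟫ = 0 ∧ ‖ζ‖ ^ 2 ≤ ε ^ 2 * (c - 1) ∧
      (c = 1 → Q (un w)) ∧ (c - 1) * ⟪un w, L (S (un w))⟫ + ⟪ζ, L (S (un w))⟫ ≤ r w

def SJAN : Prop := SIBP → OnN fun m₀ m lg dX T d ε u C C₀ Q => ∀ f,
  ZrN lg dX (Gs (dm + d) u) C C₀ f → LocallyLipschitz f →
    ∀ᵐ x, DifferentiableAt ℝ f x ∧ FoN (T (f x)) (dm + d) ε (LL m₀ m f x) (Q x (f x))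

def SJBN : Prop := ∀ (T : T3) (d ε : ℝ) (L : V →L[ℝ] V) (Q : V → Prop), MS → Alg T d → 0 ≤ ε →
  16 * dm * 16 ^ dm * ε ≤ 1 → FoN T (dm + d) ε L Q →
    |L.det| ≤ 1 ∧ (1 ≤ |L.det| → ∀ᵐ w ∂mS, Q (un w))

def SENDN : Prop := OnB fun m lg _ _ _ A => MS → BG lg A → ∀ (lam : ℝ) x z, 0 ≤ lam →
  (∀ᵐ w ∂mS, TN A m lam x z (un w)) → ∀ p, A.pr p = x → A.ft p = z

/-! ### The world of metrics -/

def SEQN : Prop := On2 fun g h _ C' Γ Λ _ _ _ _ _ Ψ ρ F => ∀ m lg ν O (lam s R R₀ : ℝ) f, MS →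
  NB h C' Ψ m lg ν → Act m Λ O → R₀ ≤ R →
  ZrN lg (dd g) (Gs s (uN (fam Ψ F ν) m lam)) ((fam Ψ F ν).C R) ((fam Ψ F ν).C R₀) f →
    ∀ (γ : Γ) x, f (γ • x) = ρ γ • f x

/-- The curvature is close to the almost parallel model `T`, in coordinates. -/
structure NC (h : Met dm) (C : TB.Chr dm) (T : V → T3) (a d δ : ℝ) : Prop where
  d0 : 0 ≤ d
  d1 : d ≤ dm - 1
  dif : ∀ u v w, Differentiable ℝ fun x => T x u v w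
  sk : ∀ x u v w, T x u v w = -T x v u w
  ps : ∀ x u v w s, h x (T x u v w) s = h x (T x w s u) v
  pos : ∀ x u w, 0 ≤ h x (T x u w w) u
  trc : ∀ x w, tr (Pw (T x) w) = d * h x w w
  sq : ∀ x u w e, h x w w = 1 → e = T x (T x u w w) w w - T x u w w →
    h x e e ≤ δ ^ 2 * h x u u
  le : ∀ x u w, h x (TB.Rm C x u w w) u ≤ -a ^ 2 * (h x u u * h x w w - h x u w ^ 2)
  cur : ∀ x u w, |h x (TB.Rm C x u w w) u + a ^ 2 * (h x u u * h x w w - h x u w ^ 2 +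
    3 * h x (T x u w w) u)| ≤ δ * a ^ 2 * (h x u u * h x w w - h x u w ^ 2)
  par : ∀ x u w e, h x w w = 1 → e = fderiv ℝ (fun y => T y u w w) x w + C x w (T x u w w) -
    T x (C x w u) w w - T x u (C x w w) w - T x u w (C x w w) →
    h x e e ≤ (δ * a) ^ 2 * h x u u

def SNM : Prop := On1 fun h C _ _ _ Ψ => ∀ (m : MF) T (d δ : ℝ), m.OK → m.Jac → Lk h C Ψ m →
  0 ≤ δ → NC h C T 1 d δ → ∃ T', NM m T' d δ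

/-! ### The theorem -/

def Main1 (δ : ℝ) : Prop := On2 fun g h _ C' _ _ _ _ _ _ _ _ ρ _ => ∀ T (d : ℝ),
  NC h C' T 1 d δ → Iso g h ρ

/-- Rigidity under a continuous conjugacy. -/
def MainN (δ : ℝ) : Prop := On2 fun g h _ C' _ _ _ _ _ _ _ _ ρ _ => ∀ T (a d : ℝ), 0 < a →
  NC h C' T a d δ → Iso g h ρ

def SSCN : Prop := ∀ δ, Main1 δ → MainN δ

end

end Pool.Agent.MP_3ee8cb_gt.NS
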