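import Pool.Agent.MP_3ee8cb_gt.DZ.REND1
import Pool.Agent.MP_3ee8cb_gt.NS.Spec

/-! If almost every direction is touched, the feet of the fibre are one point. -/

namespace Pool.Agent.MP_3ee8cb_gt.NS

open Set Filter Topology MeasureTheory DN Real DZ DZE DZ.E1
open scoped RealInnerProductSpace

variable [Dim] {m : MF} {lg : V × V → V}

namespace EN8

variable {b : V → ℝ} {n : V → V}

theorem val (h : IsB m lg b n) (lam : ℝ) (z : V) : ph m lam b (z, n z) = b z := by
  simp only [ph]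
  rw [h.ray]
  ring

theorem flat (y : YW m lg) (h : IsB m lg b n) (h1 : B1 m lg b n) {lam : ℝ} (hl : 0 ≤ lam)
    (z : V) : Flat (fun w => ph m lam b (z, w)) (n z) := by
  have d : Differentiable ℝ fun v : V => b (m.Z 1 (z, v)).1 :=
    Differentiable.comp (fun x => (h1.der x).differentiableAt)
      ((y.ok.cZ.differentiable one_ne_zero).comp (f := fun v : V => ((1 : ℝ), z, v))
        (by fun_prop)).fst
  refine flat_max ?_ fun v hv => ?_
  · exact (differentiableAt_const ((1 + lam) * b z - lam)).sub ((d _).const_mul lam)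
  · rw [val h]
    have h2 := mul_le_mul_of_nonneg_left (dn y h z hv) hl
    simp only [ph]
    linarith

end EN8

theorem sENDN : SENDN := by
  intro m lg dX P _ A bf ms bg lam x z hl ae
  have y := bf.yw
  have hK := bf.cpt x
  have c1 : Continuous fun q : P × V => A.β q.1 (m.Z 1 (z, q.2)).1 :=
    bf.cont.comp (f := fun q : P × V => (q.1, (m.Z 1 (z, q.2)).1)) (continuous_fst.prodMk
      (y.ok.cZ.continuous.comp (f := fun q : P × V => ((1 : ℝ), z, q.2)) (by fun_prop)).fst)
  have c0 : Continuous fun q : P × V => A.β q.1 z :=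
    bf.cont.comp (f := fun q : P × V => (q.1, z)) (by fun_prop)
  have c2 : Continuous fun q : P × V => ph m lam (A.β q.1) (z, q.2) :=
    ((c0.const_mul (1 + lam)).sub continuous_const).sub (c1.const_mul lam)
  have c3 : IsClosed ((⋂ r ∈ {p | A.pr p = x}, {q : P × V | ph m lam (A.β r) (z, q.2) ≤
      ph m lam (A.β q.1) (z, q.2)}) ∩ {q | A.β q.1 (m.Z 1 (z, q.2)).1 = A.β q.1 z - 1}) :=
    (isClosed_biInter fun r _ => isClosed_le
      (c2.comp (f := fun q : P × V => (r, q.2)) (by fun_prop)) c2).inter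
      (isClosed_eq c1 (c0.sub continuous_const))
  have al : ∀ w, ‖w‖ = 1 → TN A m lam x z w := fun w hw => by
    obtain ⟨p, h1, h2, h3⟩ := ms.den _ (closed_ex hK c3) (ae.mono fun w ⟨p, h1, h2, h3⟩ =>
      ⟨p, h1, mem_iInter₂.2 h3, h2 ▸ (bf.isb p).ray z 1⟩) w hw
    exact ⟨p, h1, (bf.b1 p).eq z w hw h3.le, fun r hr => mem_iInter₂.1 h2 r hr⟩
  have cU : Continuous fun w : V =>
      sSup ((fun p => ph m lam (A.β p) (z, w)) '' {p | A.pr p = x}) :=
    hK.continuous_sSup (c2.comp continuous_swap)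
  have eU : ∀ w p, A.pr p = x →
      (∀ r, A.pr r = x → ph m lam (A.β r) (z, w) ≤ ph m lam (A.β p) (z, w)) →
      sSup ((fun p => ph m lam (A.β p) (z, w)) '' {p | A.pr p = x}) =
        ph m lam (A.β p) (z, w) :=
    fun w p hp h => IsGreatest.csSup_eq ⟨mem_image_of_mem _ hp, forall_mem_image.2 h⟩
  have co := fun w v hw hv => const cU.continuousOn (w := w) (v := v) (fun w hw => by
    obtain ⟨p, h1, h2, h3⟩ := al w hw
    refine ⟨_, h2 ▸ EN8.flat y (bf.isb p) (bf.b1 p) hl z, (eU w p h1 h3).symm, fun v hv => ?_⟩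
    obtain ⟨q, h4, -, h5⟩ := al v hv
    rw [eU v q h4 h5]; exact h5 p h1) hw hv
  have val : ∀ p, A.pr p = x →
      sSup ((fun q => ph m lam (A.β q) (z, A.ν p z)) '' {p | A.pr p = x}) = A.β p z :=
    fun p hp => by
    obtain ⟨q, h1, h2, h3⟩ := al _ ((bf.isb p).unit z)
    rw [eU _ q h1 h3, ← h2, EN8.val (bf.isb q), bg.same q p z (h1.trans hp.symm) h2]
  have sm : ∀ p, A.pr p = x → ∀ q, A.pr q = x → A.β p z = A.β q z := fun p hp q hq => by
    have h1 := co _ _ ((bf.isb p).unit z) ((bf.isb q).unit z)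
    simpa only [val p hp, val q hq] using h1
  have zero : ∀ p, A.pr p = x → A.β p z = 0 := fun p hp => by
    obtain ⟨r, r1, r2, -⟩ := al (-A.ν p z) (by rw [norm_neg, (bf.isb p).unit])
    have h1 : A.β p z + A.β r z ≤ 0 := le_of_forall_pos_le_add fun e he => by
      obtain ⟨T, hT⟩ := (bf.gr p r (hp.trans r1.symm) e he).exists
      have h2 := opp y (bf.isb p) (bf.isb r) r2 (m.Z T (A.ft r, A.ν r (A.ft r))).1
      rw [(bf.isb r).ray, bf.foot] at h2
      linarith
    linarith [sm p hp r r1, sm p hp _ ((bf.flp p).1.trans hp), bg.opp p z]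
  intro p hp
  obtain ⟨f1, f2, f3⟩ := bf.flp p
  refine foot y (bf.isb p) (bf.isb (A.fl p)) f3 (by rw [zero p hp, bf.foot]) ?_
  rw [zero _ (f1.trans hp), ← f2, bf.foot]

end Pool.Agent.MP_3ee8cb_gt.NS
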