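import Pool.Agent.MP_3ee8cb_gt.NS.H20Spec

/-! Jacobi fields near the model: the forward estimate. -/

namespace Pool.Agent.MP_3ee8cb_gt.NS

open DN (Dim dm)

variable [Dim]

open DN DZ Set Real
open scoped RealInnerProductSpace

namespace H47

theorem symb {S : V →L[ℝ] V} {δ : ℝ} (d0 : 0 ≤ δ) (sy : ∀ a b, ⟪S a, b⟫ = ⟪S b, a⟫)
    (h : ∀ a, |⟪S a, a⟫| ≤ δ * ‖a‖ ^ 2) (u : V) : ‖S u‖ ≤ δ * ‖u‖ := by
  have k : ∀ a b, 4 * ⟪S a, b⟫ ≤ 2 * δ * (‖a‖ ^ 2 + ‖b‖ ^ 2) := fun a b => by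
    have h1 := le_of_abs_le (h (a + b))
    have h2 := neg_le_of_abs_le (h (a - b))
    rw [map_add, inner_add_left, inner_add_right, inner_add_right, norm_add_sq_real, sy b a] at h1
    rw [map_sub, inner_sub_left, inner_sub_right, inner_sub_right, norm_sub_sq_real, sy b a] at h2
    linarith
  rcases eq_or_ne u 0 with rfl | u0
  · simp
  rcases (norm_nonneg (S u)).eq_or_lt with e | e
  · rw [← e]; positivity
  have n := norm_pos_iff.2 u0
  have := k (‖S u‖ • u) (‖u‖ • S u)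
  rw [map_smul, real_inner_smul_left, real_inner_smul_right, real_inner_self_eq_norm_sq, norm_smul,
    norm_smul, norm_norm, norm_norm] at this
  refine le_of_mul_le_mul_left ?_ (by positivity : 0 < 4 * ‖u‖ * ‖S u‖ ^ 2)
  linarith

variable {m : MF} {T : V → T3} {d δ : ℝ}

theorem cur (hj : m.Jac) (N : NM m T d δ) (d0 : 0 ≤ δ) (y : V) {u v : V} (hv : ‖v‖ = 1)
    (hu : ⟪u, v⟫ = 0) : ‖m.K y u v v + u + (3 : ℝ) • T y u v v‖ ≤ δ * ‖u‖ := by
  obtain ⟨L, hL⟩ := hj.lK y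
  have ap : ∀ a, (Pw L v + (ContinuousLinearMap.id ℝ V - (innerSL ℝ v).smulRight v) +
      (3 : ℝ) • Pw (T y) v) a = m.K y a v v + (a - ⟪v, a⟫ • v) + (3 : ℝ) • T y a v v :=
    fun a => by rw [hL]; rfl
  have := symb (S := Pw L v + (ContinuousLinearMap.id ℝ V - (innerSL ℝ v).smulRight v) +
      (3 : ℝ) • Pw (T y) v) d0 (fun a b => by
    have e : ⟪m.K y a v v, b⟫ = ⟪m.K y b v v, a⟫ := by
      rw [hj.pK, hj.aK, inner_neg_left, hj.sK, neg_neg, real_inner_comm]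
    simp only [ap, inner_add_left, inner_sub_left, real_inner_smul_left, e, (N.alg y).sym a b,
      real_inner_comm a b]
    ring) (fun a => by
    have c := N.cur y a v
    rw [hv, one_pow, mul_one] at c
    simp only [ap, inner_add_left, inner_sub_left, real_inner_smul_left,
      real_inner_self_eq_norm_sq, real_inner_comm a v]
    rw [← sq]
    exact c.trans (mul_le_mul_of_nonneg_left (sub_le_self _ (sq_nonneg _)) d0)) u
  rwa [ap, real_inner_comm, hu, zero_smul, sub_zero] at this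

/-- The defect of a Jacobi field. -/
noncomputable def Y (m : MF) (T : V → T3) (z ξ : V × V) (s : ℝ) : V :=
  m.J' z ξ s + m.J z ξ s + T (m.Z s z).1 (m.J z ξ s) (m.Z s z).2 (m.Z s z).2

theorem yder (hj : m.Jac) (N : NM m T d δ) (d0 : 0 ≤ δ) {z ξ : V × V} (hz : ‖z.2‖ = 1) {t : ℝ}
    (pj : ⟪m.J z ξ t, (m.Z t z).2⟫ = 0) : ∃ E : V, ‖E‖ ≤ 3 * δ * ‖m.J z ξ t‖ ∧
      HasDerivAt (Y m T z ξ) (Y m T z ξ t + T (m.Z t z).1 (Y m T z ξ t) (m.Z t z).2 (m.Z t z).2 +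
        E - m.w z t (Y m T z ξ t)) t := by
  have hv : ‖(m.Z t z).2‖ = 1 := (hj.norm t z).trans hz
  obtain ⟨e, e1, e2⟩ := N.par z (m.J z ξ) _ t hz (hj.d1 z ξ t)
  have c1 := cur hj N d0 (m.Z t z).1 hv pj
  have c2 := N.sq (m.Z t z).1 (m.J z ξ t) _ hv
  refine ⟨e - _ - _, (norm_sub_le _ _).trans ((add_le_add ((norm_sub_le _ _).trans
    (add_le_add e1 c1)) c2).trans_eq (by ring)), ?_⟩
  refine (((hj.d2 z ξ t).add (hj.d1 z ξ t)).add e2).congr_deriv ?_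
  simp only [Y, map_add, add_apply]
  module

end H47

open H47

theorem jacA : JacA := by
  obtain ⟨c, hc⟩ : ∃ c : ℝ, c = 2 * dm + 4 := ⟨_, rfl⟩
  have c0 : 0 ≤ c := by rw [hc]; positivity
  have c1 : 1 ≤ exp c := one_le_exp c0
  refine ⟨3 * exp c, by linarith, fun m lg T d δ d0 d1 hY N z ξ hz hp hv => ?_⟩
  have ho := hY.ok
  have hj := hY.jac
  have pv : ⟪m.ver z ξ, z.2⟫ = 0 := by
    rw [hv, H0, inner_neg_left, inner_add_left, inner_sub_left, real_inner_smul_left, hp,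
      real_inner_comm, hp, (N.alg _).perp]
    ring
  have pj : ∀ t, ⟪m.J z ξ t, (m.Z t z).2⟫ = 0 := fun t => by
    rw [DNWI.J_vel ho hj, hp, pv, mul_zero, add_zero]
  have eY : ∀ t, m.J' z ξ t + H0 (T (m.Z t z).1) (m.Z t z).2 (m.J z ξ t) = Y m T z ξ t :=
    fun t => by rw [H0, real_inner_comm, pj, zero_smul, sub_zero, Y, add_assoc]
  have y0 : Y m T z ξ 0 = 0 := by
    rw [← eY, DNWI.J_zero ho, DNWI.J'_zero ho, ho.zero, hv, neg_add_cancel]
  choose E E1 E2 using fun t => yder hj N d0 hz (pj t)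
  have q : ∀ t, ⟪Y m T z ξ t, Y m T z ξ t + T (m.Z t z).1 (Y m T z ξ t) (m.Z t z).2 (m.Z t z).2 +
      E t⟫ ≤ dm * ‖Y m T z ξ t‖ ^ 2 + ‖Y m T z ξ t‖ * (3 * δ * ‖m.J z ξ t‖) := fun t => by
    have a1 := (N.alg (m.Z t z).1).le' (Y m T z ξ t) (m.Z t z).2
    rw [hj.norm, hz, one_pow, mul_one, real_inner_comm] at a1
    have a2 := (real_inner_le_norm (Y m T z ξ t) (E t)).trans
      (mul_le_mul_of_nonneg_left (E1 t) (norm_nonneg _))
    rw [inner_add_right, inner_add_right, real_inner_self_eq_norm_sq]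
    linarith [mul_le_mul_of_nonneg_right (N.alg (m.Z t z).1).d1 (sq_nonneg ‖Y m T z ξ t‖)]
  have b1 : ∀ t ∈ Icc (0 : ℝ) 1, ‖m.J z ξ t‖ ^ 2 ≤ exp c * ‖m.hor z ξ‖ ^ 2 := fun t ht => by
    have := DZH.gron (c := c) (φ := 0)
      (fun s => (DZH.cov_sq ho z (hj.d1 z ξ s)).add (DZH.cov_sq ho z (E2 s))) c0 le_rfl
      (by simp only [Pi.add_apply]; positivity) (fun s _ => by
        have a1 := real_inner_le_norm (m.J z ξ s) (Y m T z ξ s)
        have a2 := (N.alg (m.Z s z).1).pos (m.J z ξ s) (m.Z s z).2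
        have a3 := q s
        have a4 := mul_le_mul_of_nonneg_right d1
          (mul_nonneg (norm_nonneg (Y m T z ξ s)) (norm_nonneg (m.J z ξ s)))
        have a5 : ⟪m.J z ξ s, Y m T z ξ s⟫ = ⟪m.J z ξ s, m.J' z ξ s⟫ + ‖m.J z ξ s‖ ^ 2 +
            ⟪T (m.Z s z).1 (m.J z ξ s) (m.Z s z).2 (m.Z s z).2, m.J z ξ s⟫ := by
          rw [Y, inner_add_right, inner_add_right, real_inner_self_eq_norm_sq,
            real_inner_comm (m.J z ξ s) (T _ _ _ _)]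
        have a6 : (0 : ℝ) ≤ dm * ‖m.J z ξ s‖ ^ 2 := by positivity
        simp only [Pi.add_apply, hc]
        nlinarith [sq_nonneg (‖m.J z ξ s‖ - ‖Y m T z ξ s‖), sq_nonneg ‖m.J z ξ s‖]) ht
    simp only [Pi.add_apply, DNWI.J_zero ho, y0, norm_zero] at this
    nlinarith [sq_nonneg ‖Y m T z ξ t‖]
  intro t ht
  have n0 := norm_nonneg (m.hor z ξ)
  have b2 := DZH.gron (c := c) (φ := 9 * δ ^ 2 * (exp c * ‖m.hor z ξ‖ ^ 2))
    (fun s => DZH.cov_sq ho z (E2 s)) c0 (by positivity) (by positivity) (fun s hs => by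
      have a3 := q s
      have a4 := mul_le_mul_of_nonneg_left (b1 s hs) (sq_nonneg δ)
      rw [hc] at a4 ⊢
      nlinarith [sq_nonneg (‖Y m T z ξ s‖ - 3 * δ * ‖m.J z ξ s‖), sq_nonneg ‖Y m T z ξ s‖]) ht
  rw [y0, norm_zero] at b2
  rw [eY]
  refine ⟨(abs_le_of_sq_le_sq' ((b1 t ht).trans ?_) (by positivity)).2,
    (abs_le_of_sq_le_sq' (b2.trans_eq (by ring)) (by positivity)).2⟩
  nlinarith [mul_le_mul_of_nonneg_right c1 (mul_nonneg (exp_pos c).le (sq_nonneg ‖m.hor z ξ‖)),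
    mul_nonneg (exp_pos c).le (sq_nonneg ‖m.hor z ξ‖)]

end Pool.Agent.MP_3ee8cb_gt.NS
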