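import Pool.Agent.MP_3ee8cb_gt.NS.H20Spec

/-! The Hessian of the distance to a far point is close to the model. -/

namespace Pool.Agent.MP_3ee8cb_gt.NS

open DN (Dim dm)

variable [Dim]

open DN DZ Set Real
open scoped RealInnerProductSpace

namespace H62

theorem pol {A : V →L[ℝ] V} {δ : ℝ} (d0 : 0 ≤ δ) (sy : ∀ u x, ⟪A u, x⟫ = ⟪A x, u⟫)
    (b : ∀ u, |⟪A u, u⟫| ≤ δ * ‖u‖ ^ 2) (u : V) : ‖A u‖ ≤ δ * ‖u‖ := by
  rcases (norm_nonneg (A u)).eq_or_lt with h0 | h0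
  · rw [← h0]
    positivity
  have h1 : 0 < ‖u‖ := norm_pos_iff.2 fun h => by simp [h] at h0
  have a1 := (abs_le.1 (b (‖A u‖ • u + ‖u‖ • A u))).2
  have a2 := (abs_le.1 (b (‖A u‖ • u - ‖u‖ • A u))).1
  rw [norm_add_sq_real] at a1
  rw [norm_sub_sq_real] at a2
  simp only [map_add, map_sub, map_smul, inner_add_left, inner_add_right, inner_sub_left,
    inner_sub_right, real_inner_smul_left, real_inner_smul_right, norm_smul, norm_norm,
    sy (A u) u, real_inner_self_eq_norm_sq] at a1 a2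
  refine le_of_mul_le_mul_left ?_ (by positivity : 0 < 4 * ‖u‖ * ‖A u‖ ^ 2)
  nlinarith

variable {m : MF} {lg : V × V → V} {T : V → T3} {d δ : ℝ}

theorem cur (j : m.Jac) (d0 : 0 ≤ δ) (N : NM m T d δ) (y : V) {v u : V} (hv : ‖v‖ = 1)
    (hu : ⟪u, v⟫ = 0) : ‖m.K y u v v + u + (3 : ℝ) • T y u v v‖ ≤ δ * ‖u‖ := by
  obtain ⟨L, hL⟩ := j.lK y
  have e : ∀ a, (Pw L v + (ContinuousLinearMap.id ℝ V - (innerSL ℝ v).smulRight v) +
      (3 : ℝ) • Pw (T y) v) a = m.K y a v v + (a - ⟪v, a⟫ • v) + (3 : ℝ) • T y a v v :=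
    fun a => by rw [hL]; rfl
  have k := pol d0 (fun a x => by
    rw [e, e]
    simp only [inner_add_left, inner_sub_left, real_inner_smul_left]
    rw [(N.alg y).sym a x, j.pK y a v v x, j.aK y v x, inner_neg_left, j.sK y x v a v, neg_neg,
      real_inner_comm (m.K y x v v) a, real_inner_comm a x]
    ring) (fun a => by
    have := N.cur y a v
    rw [hv, one_pow, mul_one] at this
    rw [e]
    simp only [inner_add_left, inner_sub_left, real_inner_smul_left, real_inner_self_eq_norm_sq]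
    rw [real_inner_comm a v, ← sq]
    exact this.trans (mul_le_mul_of_nonneg_left (sub_le_self _ (sq_nonneg _)) d0)) u
  rwa [e, real_inner_comm u v, hu, zero_smul, sub_zero] at k

omit [Dim] in
theorem cvx {f g g' : ℝ → ℝ} {L : ℝ} (hf : ∀ s, HasDerivAt f (g s) s)
    (hg : ∀ s, HasDerivAt g (g' s) s) (h0 : ∀ s, 0 ≤ g' s) (hn : ∀ s, 0 ≤ f s) (h1 : g L = 0)
    (hL : 2 ≤ L) : (∀ t ∈ Icc 0 L, f t ≤ f 0) ∧ ∃ s ∈ Icc (L - 1) L, g' s ≤ f 0 := by
  have hm : Monotone g := monotone_of_deriv_nonneg (fun s => (hg s).differentiableAt)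
    fun s => by rw [(hg s).deriv]; exact h0 s
  have cf : Continuous f := continuous_iff_continuousAt.2 fun s => (hf s).continuousAt
  have cg : Continuous g := continuous_iff_continuousAt.2 fun s => (hg s).continuousAt
  have a : ∀ t ∈ Icc 0 L, f t ≤ f 0 := fun t ht =>
    antitoneOn_of_deriv_nonpos (convex_Icc 0 L) cf.continuousOn
      (fun s _ => (hf s).differentiableAt.differentiableWithinAt) (fun s hs => by
        rw [(hf s).deriv, ← h1]
        exact hm (interior_subset hs).2) (left_mem_Icc.2 (by linarith)) ht ht.1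
  refine ⟨a, ?_⟩
  obtain ⟨s₁, p₁, e₁⟩ := exists_hasDerivAt_eq_slope f g (by linarith : L - 2 < L - 1)
    cf.continuousOn fun s _ => hf s
  obtain ⟨s₂, p₂, e₂⟩ := exists_hasDerivAt_eq_slope g g' (by linarith : L - 1 < L)
    cg.continuousOn fun s _ => hg s
  refine ⟨s₂, Ioo_subset_Icc_self p₂, ?_⟩
  rw [show L - 1 - (L - 2) = 1 by ring, div_one] at e₁
  rw [sub_sub_cancel, div_one] at e₂
  have := hm p₁.2.le
  have := a (L - 2) ⟨by linarith, by linarith⟩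
  have := hn (L - 1)
  linarith

theorem core (o : m.OK) (j : m.Jac) (up : m.Up 0) (d0 : 0 ≤ δ) (N : NM m T d δ) {z ξ : V × V}
    {L : ℝ} (hz : ‖z.2‖ = 1) (hp : ⟪m.hor z ξ, z.2⟫ = 0) (hL : 2 ≤ L) (e2 : m.J z ξ L = 0) :
    L * (‖m.ver z ξ + m.hor z ξ + T z.1 (m.hor z ξ) z.2 z.2‖ ^ 2 - 9 * δ ^ 2 * ‖m.hor z ξ‖ ^ 2) ≤
      (dm + 1) ^ 2 * ‖m.hor z ξ‖ ^ 2 := by
  have p0 : ⟪m.ver z ξ, z.2⟫ = 0 := by
    have := DNWI.J_vel o j z ξ L
    rw [e2, hp, inner_zero_left, zero_add] at this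
    exact (mul_eq_zero.1 this.symm).resolve_left (by linarith)
  have pj : ∀ t, ⟪m.J z ξ t, (m.Z t z).2⟫ = 0 := fun t => by
    rw [DNWI.J_vel o j, hp, p0, mul_zero, add_zero]
  have hv : ∀ t, ‖(m.Z t z).2‖ = 1 := fun t => by rw [j.norm, hz]
  have d1 := j.d1 z ξ
  have d2 := j.d2 z ξ
  obtain ⟨c1, s, hs, c2⟩ := cvx (L := L) (fun s => DZH.cov_sq o z (d1 s))
    (fun s => (DZH.cov_inner o z (d1 s) (d2 s)).const_mul 2) (fun s => by
      have := up (m.Z s z).1 (m.J z ξ s) (m.Z s z).2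
      rw [real_inner_self_eq_norm_sq, inner_neg_right, real_inner_comm]
      nlinarith [sq_nonneg ‖m.J' z ξ s‖]) (fun s => sq_nonneg _)
    (by rw [e2, inner_zero_left, mul_zero]) hL
  simp only [DNWI.J_zero o] at c1 c2
  obtain ⟨a, ha⟩ : ∃ a, a = ‖m.hor z ξ‖ := ⟨_, rfl⟩
  have a0 : 0 ≤ a := ha ▸ norm_nonneg _
  rw [← ha] at c1 c2 ⊢
  have c3 : ∀ t ∈ Icc 0 L, ‖m.J z ξ t‖ ≤ a := fun t ht => (abs_le_of_sq_le_sq' (c1 t ht) a0).2
  have c4 : ‖m.J' z ξ s‖ ≤ a := by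
    have := up (m.Z s z).1 (m.J z ξ s) (m.Z s z).2
    rw [real_inner_self_eq_norm_sq, inner_neg_right, real_inner_comm] at c2
    exact (abs_le_of_sq_le_sq' (by nlinarith [sq_nonneg a]) a0).2
  obtain ⟨Y, hY⟩ : ∃ Y : ℝ → V, Y = fun t => m.J' z ξ t + m.J z ξ t +
    T (m.Z t z).1 (m.J z ξ t) (m.Z t z).2 (m.Z t z).2 := ⟨_, rfl⟩
  have key : ∀ t, ∃ E : V, ‖E‖ ≤ 3 * δ * ‖m.J z ξ t‖ ∧ HasDerivAt Y
      (Y t + T (m.Z t z).1 (Y t) (m.Z t z).2 (m.Z t z).2 + E - m.w z t (Y t)) t := fun t => by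
    obtain ⟨e, he, d3⟩ := N.par z _ _ t hz (d1 t)
    have b1 := cur j d0 N (m.Z t z).1 (hv t) (pj t)
    have b2 := N.sq (m.Z t z).1 (m.J z ξ t) _ (hv t)
    refine ⟨e - _ - _, ((norm_sub_le _ _).trans (add_le_add ((norm_sub_le _ _).trans
      (add_le_add he b1)) b2)).trans_eq (by ring), ?_⟩
    rw [hY]
    refine (((d2 t).add (d1 t)).add d3).congr_deriv ?_
    simp only [map_add, ContinuousLinearMap.add_apply]
    module
  choose E hE dY using key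
  have he : ∀ s, HasDerivAt (fun s => exp (-s)) (-exp (-s)) s := fun s => by
    simpa using (hasDerivAt_neg s).exp
  have dN := fun t => (he t).mul ((DZH.cov_sq o z (dY t)).sub_const (9 * δ ^ 2 * a ^ 2))
  have s0 : 0 ≤ s := by linarith [hs.1]
  have mo := monotoneOn_of_deriv_nonneg (convex_Icc 0 L)
    (fun t _ => (dN t).continuousAt.continuousWithinAt)
    (fun t _ => (dN t).differentiableAt.differentiableWithinAt) (fun t ht => by
      rw [(dN t).deriv, inner_add_right, inner_add_right, real_inner_self_eq_norm_sq]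
      have b1 := (N.alg (m.Z t z).1).pos (Y t) (m.Z t z).2
      rw [real_inner_comm] at b1
      have b2 := (abs_le.1 (abs_real_inner_le_norm (Y t) (E t))).1
      have b3 := mul_le_mul_of_nonneg_left ((hE t).trans (mul_le_mul_of_nonneg_left
        (c3 t (interior_subset ht)) (by positivity))) (norm_nonneg (Y t))
      have b4 : 0 ≤ 2 * (‖Y t‖ ^ 2 + ⟪Y t, T (m.Z t z).1 (Y t) (m.Z t z).2 (m.Z t z).2⟫ +
          ⟪Y t, E t⟫) - (‖Y t‖ ^ 2 - 9 * δ ^ 2 * a ^ 2) := by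
        nlinarith [sq_nonneg (‖Y t‖ - 3 * δ * a)]
      nlinarith [mul_nonneg (exp_pos (-t)).le b4]) (left_mem_Icc.2 (by linarith)) ⟨s0, hs.2⟩ s0
  simp only [Pi.mul_apply, neg_zero, exp_zero, one_mul] at mo
  have y0 : Y 0 = m.ver z ξ + m.hor z ξ + T z.1 (m.hor z ξ) z.2 z.2 := by
    simp only [hY, DNWI.J_zero o, DNWI.J'_zero o, o.zero]
  have ys : ‖Y s‖ ≤ (dm + 1) * a := by
    have b1 := (N.alg (m.Z s z).1).nrm (m.J z ξ s) (m.Z s z).2
    have b2 := c3 s ⟨s0, hs.2⟩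
    have b3 := mul_le_mul (N.alg z.1).d1 b2 (norm_nonneg _)
      ((N.alg z.1).d0.trans (N.alg z.1).d1)
    rw [hv, one_pow, mul_one] at b1
    rw [hY]
    refine (norm_add₃_le).trans ?_
    linarith
  rw [← y0]
  have e3 : L * exp (-s) ≤ 1 := by
    rw [exp_neg, mul_inv_le_iff₀ (exp_pos s), one_mul]
    linarith [add_one_le_exp s, hs.1]
  have e4 : exp (-s) * (‖Y s‖ ^ 2 - 9 * δ ^ 2 * a ^ 2) ≤ exp (-s) * ((dm + 1) * a) ^ 2 :=
    mul_le_mul_of_nonneg_left ((sub_le_self _ (by positivity)).trans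
      (pow_le_pow_left₀ (norm_nonneg _) ys 2)) (exp_pos _).le
  have e5 := mul_le_mul_of_nonneg_left (mo.trans e4) (by linarith : 0 ≤ L)
  nlinarith [mul_le_mul_of_nonneg_right e3 (sq_nonneg ((dm + 1) * a))]

end H62

theorem jacB62 : JacB := by
  refine ⟨3, by norm_num, fun m lg T d δ d0 _ h N η η0 => ⟨2 + (dm + 1) ^ 2 / η ^ 2,
    fun Q y e hL he => ?_⟩⟩
  obtain ⟨L, hk⟩ : ∃ L, L = ‖lg (y, Q)‖ := ⟨_, rfl⟩
  have q0 : 0 ≤ ((dm : ℝ) + 1) ^ 2 / η ^ 2 := by positivity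
  rw [← hk] at hL
  have L0 : 0 < L := by linarith
  have dl : HasFDerivAt (fun y => lg (y, Q)) (fderiv ℝ (fun y => lg (y, Q)) y) y :=
    ((h.had.c1.comp (f := fun y => (y, Q)) (by fun_prop)).differentiable one_ne_zero y).hasFDerivAt
  obtain ⟨z, hz⟩ : ∃ z : V × V, z = (y, L⁻¹ • lg (y, Q)) := ⟨_, rfl⟩
  obtain ⟨ξ, hξ⟩ : ∃ ξ : V × V, ξ = (m.R y e, L⁻¹ • fderiv ℝ (fun y => lg (y, Q)) y (m.R y e)) :=
    ⟨_, rfl⟩
  have e0 : m.hor z ξ = e := by simp [hz, hξ, MF.hor, h.ok.SR]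
  have e1 : m.ver z ξ = L⁻¹ • DZH.DL m lg Q y e := by simp [hz, hξ, MF.ver, DZH.DL]
  have e2 : m.J z ξ L = 0 := by
    have a := ((DNTR.dZ h.ok L (y, L⁻¹ • lg (y, Q))).comp y
      ((hasFDerivAt_id y).prodMk (dl.const_smul L⁻¹))).fst
    have b : HasFDerivAt (fun y => (m.Z L (y, L⁻¹ • lg (y, Q))).1) (0 : V →L[ℝ] V) y := by
      simp only [h.jac.scale, inv_mul_cancel₀ L0.ne', h.had.ex]
      exact hasFDerivAt_const Q y
    have c := DFunLike.congr_fun (a.unique b) (m.R y e)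
    have c' : (fderiv ℝ (m.Z L) z ξ).1 = 0 := by rw [hz, hξ]; exact c
    simp [MF.J, MF.hor, c']
  have z1 : z.1 = y := by rw [hz]
  have z2 : z.2 = un (lg (y, Q)) := by rw [hz, un, hk]
  have n1 : ‖z.2‖ = 1 := by
    rw [z2]
    exact norm_smul_inv_norm (norm_pos_iff.1 (hk ▸ L0))
  have p : ⟪e, un (lg (y, Q))⟫ = 0 := by rw [un, real_inner_smul_right, he, mul_zero]
  have k := H62.core h.ok h.jac h.up d0 N n1 (by rw [e0, z2, p]) (by linarith) e2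
  rw [e0, e1, z1, z2] at k
  rw [← hk, H0, real_inner_comm, p, zero_smul, sub_zero, ← add_assoc]
  refine (abs_le_of_sq_le_sq' ?_ (by positivity)).2
  have e3 : ((dm : ℝ) + 1) ^ 2 ≤ L * η ^ 2 := by
    rw [← div_le_iff₀ (by positivity)]
    linarith
  have e4 := le_of_mul_le_mul_left (k.trans ((mul_le_mul_of_nonneg_right e3
    (sq_nonneg ‖e‖)).trans_eq (mul_assoc _ _ _))) L0
  nlinarith [mul_nonneg (mul_nonneg d0 η0.le) (sq_nonneg ‖e‖)]

end Pool.Agent.MP_3ee8cb_gt.NS
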