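import Pool.Agent.MP_3ee8cb_gt.NS.H20C
import Pool.Agent.MP_3ee8cb_gt.NS.H47Jac
import Pool.Agent.MP_3ee8cb_gt.NS.H62JacB

/-! The derivative of the penalised function in the model stable directions. -/

namespace Pool.Agent.MP_3ee8cb_gt.NS

open DN (Dim dm)

variable [Dim]

theorem sHN : SHN := H20.sHN_of jacA jacB62

end Pool.Agent.MP_3ee8cb_gt.NS
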