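import Pool.Agent.MP_3ee8cb_gt.NS.Spec
import Pool.Agent.MP_3ee8cb_gt.NSJ.Sca
import Pool.Agent.MP_3ee8cb_gt.NSJ.Frame
import Pool.Agent.MP_3ee8cb_gt.DZJ.Shell

/-! The algebraic half of the Jacobian estimate near a rank one model. -/

namespace Pool.Agent.MP_3ee8cb_gt.NS

open DN (Dim dm)

variable [Dim]

open Set MeasureTheory DN DZ
open scoped RealInnerProductSpace

namespace RJBN

theorem tr_eq (M : V →L[ℝ] V) (e : OrthonormalBasis (Fin dm) ℝ V) :
    tr M = ∑ i, ⟪e i, M (e i)⟫ := LinearMap.trace_eq_sum_inner _ e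

theorem exp2 (T : T3) (f : OrthonormalBasis (Fin dm) ℝ V) (a u : V) :
    ⟪a, T a u u⟫ = ∑ j, ∑ k, ⟪T a (f j) (f k), a⟫ * (⟪f j, u⟫ * ⟪f k, u⟫) := by
  have h : T a u u = T a (∑ j, ⟪f j, u⟫ • f j) (∑ k, ⟪f k, u⟫ • f k) := by rw [f.sum_repr']
  rw [h, real_inner_comm]
  simp only [map_sum, map_smul, sum_apply, smul_apply, sum_inner, real_inner_smul_left,
    Finset.mul_sum]
  rw [Finset.sum_comm]
  exact Finset.sum_congr rfl fun j _ => Finset.sum_congr rfl fun k _ => by ring

theorem gint (hM : MS) {G : V → ℝ} (hG : ContinuousOn G {w | ‖w‖ = 1}) :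
    Integrable (fun w => G (un w)) mS := by
  classical
  have := hM.fin
  have hu : ∀ᵐ w ∂mS, ‖un w‖ = 1 := hM.mem.mono fun w hw => DZJ.hat_norm (DZJ.sh_ne hw)
  have hK : IsCompact {w : V | ‖w‖ = 1} := by
    simpa [Metric.sphere] using isCompact_sphere (0 : V) 1
  obtain ⟨C, hC⟩ := hK.exists_bound_of_continuousOn hG
  have hm : Measurable (piecewise {w : V | ‖w‖ = 1} G fun _ => 0) :=
    hG.measurable_piecewise continuousOn_const hK.measurableSet
  refine Integrable.of_bound ((hm.comp DZJ.hat_meas).aestronglyMeasurable.congr ?_) C ?_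
  · filter_upwards [hu] with w hw
    exact piecewise_eq_of_mem _ _ _ hw
  · filter_upwards [hu] with w hw
    exact hC _ hw

end RJBN

open RJBN in
theorem sJBN : SJBN := by
  classical
  intro T d ε L Q hM hA h0 hε ⟨G, hGc, hG0, hS⟩
  have := hM.fin
  rcases eq_or_ne L.det 0 with hz | hz
  · rw [hz, abs_zero]
    exact ⟨zero_le_one, fun h => absurd h (by norm_num)⟩
  have hn : (3 : ℝ) ≤ dm := by
    unfold dm
    push_cast
    linarith [Nat.cast_nonneg (α := ℝ) Dim.k]
  have hne : Nonempty (Fin dm) := ⟨⟨0, by unfold dm; omega⟩⟩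
  have hu : ∀ᵐ w ∂mS, ‖un w‖ = 1 := hM.mem.mono fun w hw => DZJ.hat_norm (DZJ.sh_ne hw)
  have hum : AEStronglyMeasurable un mS := DZJ.hat_meas.aestronglyMeasurable
  have hg := gint hM hGc
  have hI : ∀ φ : V → ℝ, Continuous φ → Integrable (fun w => G (un w) * φ (un w)) mS :=
    fun φ hφ => NSJ.intg mS _ un hg hu hum φ hφ
  obtain ⟨f, m, hm⟩ := NSJ.mom mS (fun w => G (un w)) un hg hu hum
  have hi2 : ∀ j k, Integrable (fun w => G (un w) * (⟪f j, un w⟫ * ⟪f k, un w⟫)) mS :=
    fun j k => hI (fun v => ⟪f j, v⟫ * ⟪f k, v⟫) (by fun_prop)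
  have hquad : ∀ c : Fin dm → Fin dm → ℝ,
      ∫ w, G (un w) * ∑ j, ∑ k, c j k * (⟪f j, un w⟫ * ⟪f k, un w⟫) ∂mS = ∑ j, c j j * m j := by
    intro c
    simp only [Finset.mul_sum, mul_left_comm (G _) (c _ _)]
    rw [integral_finsetSum _ fun j _ => integrable_finsetSum _ fun k _ => (hi2 j k).const_mul _]
    refine Finset.sum_congr rfl fun j _ => ?_
    rw [integral_finsetSum _ fun k _ => (hi2 j k).const_mul _]
    simp only [integral_const_mul, hm, orthonormal_iff_ite.1 f.orthonormal]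
    simp
  have hdg : ∀ c : Fin dm → ℝ,
      ∫ w, G (un w) * ∑ j, (⟪f j, un w⟫ * c j) ^ 2 ∂mS = ∑ j, c j ^ 2 * m j := by
    intro c
    have h1 := hquad fun j k => if j = k then c j ^ 2 else 0
    simp only [ite_mul, zero_mul, Finset.sum_ite_eq, Finset.mem_univ, if_true] at h1
    rw [← h1]
    refine integral_congr_ae (.of_forall fun w => ?_)
    exact congrArg _ (Finset.sum_congr rfl fun j _ => by ring)
  have hK : IsCompact {w : V | ‖w‖ = 1} := by
    simpa [Metric.sphere] using isCompact_sphere (0 : V) 1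
  obtain ⟨w0, -, hw0⟩ := hK.exists_isMinOn ⟨f hne.some, f.orthonormal.1 _⟩ hGc
  have hm0 : ∀ j, 0 < m j := fun j => by
    have h1 := hm j j
    have h2 := hM.iso (f j) (f j)
    rw [real_inner_self_eq_norm_sq, f.orthonormal.1 j, one_pow] at h1 h2
    have h3 : ∫ w, G w0 * (⟪un w, f j⟫ * ⟪un w, f j⟫) ∂mS ≤
        ∫ w, G (un w) * (⟪f j, un w⟫ * ⟪f j, un w⟫) ∂mS := by
      refine integral_mono_ae ((DZJ.hat_int mS _ _).const_mul _) (hi2 j j) ?_
      filter_upwards [hu] with w hw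
      rw [real_inner_comm (un w) (f j)]
      exact mul_le_mul_of_nonneg_right (hw0 hw) (mul_self_nonneg _)
    rw [integral_const_mul, h2, h1] at h3
    linarith [hG0 w0]
  set A : ℝ := ∫ w, G (un w) ∂mS with hAdef
  have hAm : A = ∑ j, m j := by
    have h1 := hdg fun _ => 1
    simp only [mul_one, one_pow, one_mul] at h1
    rw [← h1]
    refine integral_congr_ae ?_
    filter_upwards [hu] with w hw
    rw [f.sum_sq_inner_right, hw, one_pow, mul_one]
  have hA0 : 0 < A := hAm ▸ Finset.sum_pos (fun j _ => hm0 j) Finset.univ_nonempty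
  obtain ⟨q, hq, hqm⟩ : ∃ q : Fin dm → ℝ, (∀ j, 0 < q j) ∧ ∀ j, q j ^ 2 = dm * m j / A :=
    ⟨fun j => √(dm * m j / A), fun j => Real.sqrt_pos.2 (by have := hm0 j; positivity),
      fun j => Real.sq_sqrt (by have := hm0 j; positivity)⟩
  have hmq : ∀ j, m j = A / dm * q j ^ 2 := fun j => by
    rw [hqm]
    field_simp
  have hq2 : ∑ j, q j ^ 2 = dm := by
    simp only [hqm, ← Finset.sum_div, ← Finset.mul_sum, ← hAm]
    field_simp
  obtain ⟨S, e, r, hr, hLS, hSn, hdet⟩ := NSJ.frame L hz f q hq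
  obtain ⟨ρ, hρi, hρ, hae⟩ := hS S
  set D : Fin dm → Fin dm → ℝ := fun i j => ⟪T (e i) (f j) (f j), e i⟫ with hD
  have hrow : ∀ i, ∑ j, D i j = d := fun i => by
    have h1 := hA.trc (e i)
    rw [tr_eq _ f, e.orthonormal.1 i, one_pow, mul_one] at h1
    rw [← h1]
    exact Finset.sum_congr rfl fun j _ => (hA.ps _ _ _ _).trans (real_inner_comm _ _)
  have hcol : ∀ j, ∑ i, D i j = d := fun j => by
    have h1 := hA.trc (f j)
    rw [tr_eq _ e, f.orthonormal.1 j, one_pow, mul_one] at h1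
    rw [← h1]
    exact Finset.sum_congr rfl fun i _ => real_inner_comm _ _
  have hs : (0 : ℝ) < dm + d := by linarith [hA.d0]
  obtain ⟨β, hβ⟩ : ∃ β : Fin dm → ℝ, ∀ i, (dm + d) * β i = dm + ∑ j, D i j * q j ^ 2 :=
    ⟨fun i => (dm + ∑ j, D i j * q j ^ 2) / (dm + d), fun i => by field_simp⟩
  have hI1 : ∫ w, G (un w) * ‖S (un w)‖ ∂mS ≤ A := by
    have h1 : ∫ w, G (un w) * ‖S (un w)‖ ^ 2 ∂mS = A := by
      simp only [hSn]
      rw [hdg]
      have h2 : ∀ j, (q j)⁻¹ ^ 2 * m j = A / dm := fun j => by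
        have := hq j
        rw [hmq]
        field_simp
      simp only [h2, Finset.sum_const, Finset.card_univ, Fintype.card_fin, nsmul_eq_mul]
      field_simp
    have hi := hI (fun v => ‖S v‖ ^ 2) (by fun_prop)
    have h3 := integral_mono_ae ((hI (fun v => ‖S v‖) (by fun_prop)).const_mul 2) (hg.add hi)
      (.of_forall fun w => by
        simp only [Pi.add_apply]
        nlinarith [mul_nonneg (hG0 (un w)).le (sq_nonneg (‖S (un w)‖ - 1))])
    simp only [Pi.add_apply] at h3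
    rw [integral_const_mul, integral_add hg hi, h1] at h3
    linarith
  have hI2 : ∫ w, G (un w) * (tr (L.comp S) + tr ((Pw T (un w)).comp (L.comp S))) ∂mS =
      A / dm * ((dm + d) * ∑ i, r i ^ 2 * β i) := by
    have h1 := hquad fun j k => (if j = k then ∑ i, r i ^ 2 else 0) +
      ∑ i, r i ^ 2 * ⟪T (e i) (f j) (f k), e i⟫
    have h2 : ∀ᵐ w ∂mS, G (un w) * (tr (L.comp S) + tr ((Pw T (un w)).comp (L.comp S))) =
        G (un w) * ∑ j, ∑ k, ((if j = k then ∑ i, r i ^ 2 else 0) +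
          ∑ i, r i ^ 2 * ⟪T (e i) (f j) (f k), e i⟫) * (⟪f j, un w⟫ * ⟪f k, un w⟫) := by
      filter_upwards [hu] with w hw
      congr 1
      simp only [add_mul, Finset.sum_add_distrib, ite_mul, zero_mul, Finset.sum_ite_eq,
        Finset.mem_univ, if_true]
      congr 1
      · rw [← Finset.mul_sum]
        simp only [← sq]
        rw [f.sum_sq_inner_right, hw, one_pow, mul_one, tr_eq _ e]
        refine Finset.sum_congr rfl fun i _ => ?_
        rw [ContinuousLinearMap.comp_apply, hLS, real_inner_smul_right,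
          real_inner_self_eq_norm_sq, e.orthonormal.1 i, one_pow, mul_one]
      · have h3 : ∀ i, ⟪e i, ((Pw T (un w)).comp (L.comp S)) (e i)⟫ = r i ^ 2 *
            ∑ j, ∑ k, ⟪T (e i) (f j) (f k), e i⟫ * (⟪f j, un w⟫ * ⟪f k, un w⟫) := fun i => by
          rw [ContinuousLinearMap.comp_apply, ContinuousLinearMap.comp_apply, hLS, map_smul,
            real_inner_smul_right, ← exp2 T f]
          rfl
        rw [tr_eq _ e]
        simp only [h3, Finset.mul_sum, Finset.sum_mul, mul_assoc]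
        rw [Finset.sum_comm]
        exact Finset.sum_congr rfl fun j _ => Finset.sum_comm
    rw [integral_congr_ae h2, h1]
    simp only [if_true, add_mul, Finset.sum_add_distrib]
    rw [← Finset.mul_sum, ← hAm, ← add_mul, Finset.mul_sum]
    have h4 : ∀ i, (dm + d) * (r i ^ 2 * β i) = r i ^ 2 * dm + ∑ j, r i ^ 2 * D i j * q j ^ 2 :=
      fun i => by
        rw [mul_left_comm, hβ, mul_add, Finset.mul_sum]
        simp only [mul_assoc]
    simp only [h4, Finset.sum_add_distrib, mul_add]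
    congr 1
    · rw [← Finset.sum_mul]
      field_simp
    · rw [Finset.sum_comm, Finset.mul_sum]
      refine Finset.sum_congr rfl fun j _ => ?_
      rw [hmq, ← Finset.sum_mul]
      ring
  have hMu : ∀ u y : V, ⟪y, L (S u)⟫ = ∑ i, r i ^ 2 * (⟪e i, y⟫ * ⟪e i, u⟫) := fun u y => by
    conv_lhs => rw [← e.sum_repr' u]
    simp only [map_sum, map_smul, hLS, inner_sum, real_inner_smul_right]
    exact Finset.sum_congr rfl fun i _ => by rw [real_inner_comm y]; ring
  set R : ℝ := ∑ i, (r i - 1) ^ 2 with hR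
  have hlow : ∀ᵐ w ∂mS, -(2 * ε ^ 2 * R) * G (un w) ≤ G (un w) * ρ w := by
    filter_upwards [hae] with w ⟨c, ζ, a1, a2, a3, _, a5⟩
    have h1 := DZJ.alg_pt r (fun i => ⟪e i, un w⟫) (fun i => ⟪e i, ζ⟫) c ε (fun i => (hr i).le)
      a1 (by
        rw [← a2, ← e.sum_inner_mul_inner ζ]
        exact Finset.sum_congr rfl fun i _ => by rw [real_inner_comm ζ])
      (by rw [e.sum_sq_inner_right]; exact a3)
    rw [hMu, hMu] at a5
    simp only [← sq] at a5
    rw [mul_comm]
    exact mul_le_mul_of_nonneg_left (by linarith) (hG0 _).le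
  have hl := integral_mono_ae (hg.const_mul _) hρi hlow
  rw [integral_const_mul] at hl
  rw [hI2] at hρ
  have hkey : ∫ w, G (un w) * ρ w ∂mS ≤ A - A / dm * ∑ i, r i ^ 2 * β i := by
    refine le_of_mul_le_mul_left ?_ hs
    nlinarith [mul_le_mul_of_nonneg_left hI1 hs.le]
  have hAd : A = A / dm * dm := by field_simp
  have hAd0 : 0 < A / dm := by positivity
  have he : 256 * (dm : ℝ) ^ 4 * ε ^ 2 ≤ 1 := by
    have h1 : (dm : ℝ) ≤ 16 ^ dm := by
      exact_mod_cast (Nat.lt_pow_self (by norm_num : 1 < 16)).le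
    have h2 : 16 * (dm : ℝ) * dm * ε ≤ 1 :=
      le_trans (mul_le_mul_of_nonneg_right (mul_le_mul_of_nonneg_left h1 (by positivity)) h0) hε
    have h3 : 0 ≤ 16 * (dm : ℝ) * dm * ε := by positivity
    nlinarith
  have hfin := NSJ.sca r q β D dm d ε (by simp) (by linarith) hA.d0 hA.d1 hr hq
    (fun i j => hA.pos _ _) hrow hcol hq2 hβ he (by
      refine le_of_mul_le_mul_left ?_ hAd0
      have h1 : A / dm * (dm + 2 * dm * ε ^ 2 * R) = A + 2 * ε ^ 2 * R * A := by
        field_simp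
      rw [← hR, h1]
      linarith)
  rw [hdet]
  refine ⟨hfin.1, fun h1 => ?_⟩
  have h2 := hfin.2 h1
  have h3 : ∑ i, r i ^ 2 * β i = dm := by simp [fun i => (h2 i).1, fun i => (h2 i).2]
  have hid : ∀ u y : V, ⟪y, L (S u)⟫ = ⟪y, u⟫ := fun u y => by
    rw [hMu, ← e.sum_inner_mul_inner y]
    exact Finset.sum_congr rfl fun i _ => by rw [(h2 i).1, real_inner_comm y]; ring
  have hpos : 0 ≤ᵐ[mS] fun w => G (un w) * ρ w := by
    filter_upwards [hae, hu] with w ⟨c, ζ, a1, a2, _, _, a5⟩ hw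
    rw [hid, hid, a2, real_inner_self_eq_norm_sq, hw] at a5
    exact mul_nonneg (hG0 _).le (by linarith)
  have hzero := (integral_eq_zero_iff_of_nonneg_ae hpos hρi).1
    (le_antisymm (by rw [h3] at hkey; linarith) (integral_nonneg_of_ae hpos))
  filter_upwards [hae, hu, hzero] with w ⟨c, ζ, a1, a2, _, a4, a5⟩ hw hw0
  rw [hid, hid, a2, real_inner_self_eq_norm_sq, hw] at a5
  have h4 : ρ w = 0 := (mul_eq_zero.1 hw0).resolve_left (hG0 _).ne'
  exact a4 (by linarith)

end Pool.Agent.MP_3ee8cb_gt.NS
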