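import Pool.Agent.MP_3ee8cb_gt.NS.Spec
import Pool.Agent.MP_3ee8cb_gt.DLT.Stab
import Pool.Agent.MP_3ee8cb_gt.DNC0.RJf

/-! A universal modulus of continuity on a fibre. -/

namespace Pool.Agent.MP_3ee8cb_gt.NS

open DN (Dim dm)

variable [Dim]

open Set Filter Topology Real DN DZ DLT
open DNWI (lg_symm lg_ray lg_self hinge' Z_diff)
open scoped RealInnerProductSpace

namespace RMOD

variable {m : MF} {lg : V × V → V} {b b' : V → ℝ} {ν ν' : V → V}

/-- The distance is at most the length. -/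
theorem len (Y : YW m lg) {c c' : ℝ → V} {M : ℝ} (hM : 0 ≤ M)
    (hd : ∀ s ∈ Icc (0 : ℝ) 1, HasDerivAt c (c' s) s ∧ ‖m.S (c s) (c' s)‖ ≤ M) :
    ‖lg (c 0, c 1)‖ ≤ M := by
  have hF : ContDiff ℝ 1 fun q => ‖lg q‖ ^ 2 / 2 := (Y.had.c1.norm_sq ℝ).div_const 2
  refine le_of_forall_pos_le_add fun e he => ?_
  have hp : ∀ s, 0 < 2 * (‖lg (c 0, c s)‖ ^ 2 / 2) + e ^ 2 := fun s => by positivity
  have le : ∀ s, ‖lg (c 0, c s)‖ ≤ √(2 * (‖lg (c 0, c s)‖ ^ 2 / 2) + e ^ 2) := fun s =>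
    le_sqrt_of_sq_le (by nlinarith [sq_nonneg e])
  have hg := fun s hs => ((((hF.differentiable one_ne_zero (c 0, c s)).hasFDerivAt.comp_hasDerivAt
    s ((hasDerivAt_const s (c 0)).prodMk (hd s hs).1)).const_mul 2).add_const (e ^ 2)).sqrt
      (hp s).ne'
  have k := (convex_Icc (0 : ℝ) 1).image_sub_le_mul_sub_of_deriv_le (C := M)
    (fun s hs => (hg s hs).continuousAt.continuousWithinAt)
    (fun s hs => (hg s (interior_subset hs)).differentiableAt.differentiableWithinAt)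
    (fun s hs => by
      rw [(hg s (interior_subset hs)).deriv, Y.had.grad]
      simp only [map_zero, inner_zero_right, neg_zero, zero_sub, Prod.swap_prod_mk,
        Function.comp_apply]
      have h1 := abs_real_inner_le_norm (lg (c s, c 0)) (m.S (c s) (c' s))
      rw [lg_symm Y.jac Y.had] at h1
      rw [div_le_iff₀ (mul_pos two_pos (sqrt_pos.2 (hp s)))]
      nlinarith [neg_abs_le ⟪lg (c s, c 0), m.S (c s) (c' s)⟫, mul_le_mul_of_nonneg_right (le s) hM,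
        mul_le_mul_of_nonneg_left (hd s (interior_subset hs)).2 (norm_nonneg (lg (c 0, c s)))])
    0 (left_mem_Icc.2 zero_le_one) 1 (right_mem_Icc.2 zero_le_one) zero_le_one
  have k1 := le 1
  simp only [Function.comp_apply, lg_self Y.ok Y.jac Y.had, norm_zero] at k
  rw [show 2 * ((0 : ℝ) ^ 2 / 2) + e ^ 2 = e ^ 2 by ring, sqrt_sq he.le] at k
  linarith

theorem dZ (ho : m.OK) (r : ℝ) (y a : V) : HasFDerivAt (fun a => (m.Z r (y, a)).1)
    ((ContinuousLinearMap.fst ℝ V V).comp ((fderiv ℝ (m.Z r) (y, a)).comp (.inr ℝ V V))) a :=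
  (HasFDerivAt.comp (f := fun e : V => (y, e)) a (Z_diff ho r (y, a)).hasFDerivAt
    (hasFDerivAt_prodMk_right (𝕜 := ℝ) y a)).fst

/-- Two rays from one point diverge at most exponentially. -/
theorem fan (Y : YW m lg) {k T : ℝ} (hk : 1 ≤ k) (dn : m.Dn (k ^ 2)) (hT : 0 ≤ T) (z : V)
    {u u' : V} (hu : ‖u‖ = 1) (hu' : ‖u'‖ = 1) (h : ‖u' - u‖ ≤ 1 / 2) :
    ‖lg ((m.Z T (z, u)).1, (m.Z T (z, u')).1)‖ ≤ 2 * exp (k * T) * ‖u' - u‖ := by
  have key := len Y (c := fun s : ℝ => (m.Z T (z, u + s • (u' - u))).1)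
    (c' := fun s => (fderiv ℝ (m.Z T) (z, u + s • (u' - u)) (0, u' - u)).1)
    (M := 2 * exp (k * T) * ‖u' - u‖) (by positivity) fun s hs => ⟨?_, ?_⟩
  · simpa using key
  · have d : HasDerivAt (fun s : ℝ => u + s • (u' - u)) (u' - u) s := by
      simpa using ((hasDerivAt_id s).smul_const (u' - u)).const_add u
    exact (dZ Y.ok T z _).comp_hasDerivAt s d
  have n1 : ‖u + s • (u' - u)‖ ≤ 1 := by
    have := norm_add_le ((1 - s) • u) (s • u')
    rw [norm_smul, norm_smul, hu, hu', Real.norm_of_nonneg hs.1,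
      Real.norm_of_nonneg (sub_nonneg.2 hs.2)] at this
    rw [show u + s • (u' - u) = (1 - s) • u + s • u' by module]
    linarith
  have n2 : 1 / 2 ≤ ‖u + s • (u' - u)‖ := by
    have := norm_sub_le (u + s • (u' - u)) (s • (u' - u))
    rw [add_sub_cancel_right, hu, norm_smul, Real.norm_of_nonneg hs.1] at this
    nlinarith [hs.2, norm_nonneg (u' - u)]
  generalize u + s • (u' - u) = a at n1 n2 ⊢
  generalize u' - u = e
  obtain ⟨r, w, r1, r2, hw, rfl⟩ : ∃ (r : ℝ) (w : V), 1 / 2 ≤ r ∧ r ≤ 1 ∧ ‖w‖ = 1 ∧ a = r • w :=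
    have a0 : ‖a‖ ≠ 0 := by linarith
    ⟨‖a‖, ‖a‖⁻¹ • a, n2, n1, norm_smul_inv_norm (norm_ne_zero_iff.1 a0),
      (smul_inv_smul₀ a0 a).symm⟩
  have d1 := HasFDerivAt.comp (f := fun a : V => r • a) w (dZ Y.ok T z (r • w))
    ((hasFDerivAt_id w).const_smul r)
  have d2 : (fun a => (m.Z T (z, a)).1) ∘ (fun a : V => r • a) = fun a => (m.Z (r * T) (z, a)).1 :=
    funext fun a => by rw [Function.comp_apply, Y.jac.scale]
  rw [d2] at d1
  have d3 : (fderiv ℝ (m.Z T) (z, r • w) (0, r • e)).1 =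
      (fderiv ℝ (m.Z (r * T)) (z, w) (0, e)).1 :=
    DFunLike.congr_fun (d1.unique (dZ Y.ok (r * T) z w)) e
  have g := DNC0.RJf.grow Y.ok Y.jac (by linarith : 0 < k) Y.up dn (z, w) (0, e) (r * T) hw
    (by positivity)
  have o3 : m.hor (z, w) (0, e) = 0 := (m.S z).map_zero
  have o4 : m.ver (z, w) (0, e) = e := by simp [MF.ver]
  rw [DNC0.nn, DNC0.nn, o3, o4, norm_zero, zero_pow two_ne_zero, mul_zero, zero_add,
    sqrt_sq (norm_nonneg _)] at g
  have g1 : ‖m.hor (m.Z (r * T) (z, w)) (fderiv ℝ (m.Z (r * T)) (z, w) (0, e))‖ ≤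
      exp (k * T) * ‖e‖ := by
    refine (le_sqrt_of_sq_le ?_).trans (g.trans (mul_le_mul_of_nonneg_right (exp_le_exp.2 ?_)
      (norm_nonneg _)))
    · nlinarith [mul_le_mul_of_nonneg_right (one_le_pow₀ (n := 2) hk) (sq_nonneg
        ‖m.hor (m.Z (r * T) (z, w)) (fderiv ℝ (m.Z (r * T)) (z, w) (0, e))‖), sq_nonneg
        ‖m.ver (m.Z (r * T) (z, w)) (fderiv ℝ (m.Z (r * T)) (z, w) (0, e))‖]
    · exact mul_le_mul_of_nonneg_left (mul_le_of_le_one_left hT r2) (by linarith)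
  have g2 : m.hor (m.Z (r * T) (z, w)) (fderiv ℝ (m.Z (r * T)) (z, w) (0, e)) =
      r • m.S (m.Z T (z, r • w)).1 (fderiv ℝ (m.Z T) (z, r • w) (0, e)).1 := by
    change m.S _ (fderiv ℝ (m.Z (r * T)) (z, w) (0, e)).1 = _
    rw [← d3, Y.jac.scale, show ((0 : V), r • e) = r • ((0 : V), e) by simp, map_smul,
      Prod.smul_fst, map_smul]
  rw [g2, norm_smul, Real.norm_of_nonneg (by linarith)] at g1
  nlinarith [norm_nonneg (m.S (m.Z T (z, r • w)).1 (fderiv ℝ (m.Z T) (z, r • w) (0, e)).1)]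

/-- Close directions give close functions on a ball. -/
theorem near (Y : YW m lg) (B : IsB m lg b ν) (B₁ : B1 m lg b ν) (B' : IsB m lg b' ν')
    {z y : V} {T D ω ε : ℝ} (hT : 0 < T) (w1 : ω ≤ 1) (hD : ‖lg (y, z)‖ ≤ D) (h : 2 * D ≤ T * ω)
    (hf : ‖lg ((m.Z T (z, ν z)).1, (m.Z T (z, ν' z)).1)‖ ≤ ε) :
    b' y - b' z ≤ b y - b z + (ω ^ 2 + ε) := by
  have r1 := B.ray z T
  have r2 := B₁.par z T
  have r3 : (m.Z (-T) (m.Z T (z, ν z))).1 = z := by rw [← Y.ok.add, neg_add_cancel, Y.ok.zero]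
  have r4 := lg_ray Y.jac Y.had (-T) (m.Z T (z, ν z))
  have r5 := B'.lip y (m.Z T (z, ν' z)).1
  have r6 := Y.had.tri y (m.Z T (z, ν z)).1 (m.Z T (z, ν' z)).1
  rw [B'.ray] at r5
  rw [r3, ← r2] at r4
  generalize (m.Z T (z, ν z)).1 = q at r1 r4 r6 hf
  obtain ⟨u, hu, e4⟩ := BgB.seg Y q y
  have e5 := lg_ray Y.jac Y.had ‖lg (q, y)‖ (q, u)
  have h2 := (hinge' Y.had q y z).trans hD
  have M0 := norm_nonneg (lg (q, y))
  have w0 : 0 ≤ ω := nonneg_of_mul_nonneg_right (by linarith [norm_nonneg (lg (y, z))]) hT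
  rw [lg_symm Y.jac Y.had q] at r6
  rw [e4] at e5
  rw [r4, e5] at h2
  have g := grow B (z := (q, u)) hu _ M0 (t := ω ^ 2 / 2) (by nlinarith)
  rw [e4] at g
  generalize ‖lg (q, y)‖ = M at h2 r6 M0 g
  have h4 := (abs_norm_sub_norm_le _ _).trans h2
  rw [norm_smul, norm_smul, hu, B.unit, mul_one, mul_one, norm_neg, Real.norm_of_nonneg hT.le,
    Real.norm_of_nonneg M0] at h4
  have a3 : ‖ν q + u‖ ≤ ω := by
    have k := norm_sub_le (M • u - (-T) • ν q) ((M - T) • u)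
    rw [show M • u - (-T) • ν q - (M - T) • u = T • (ν q + u) by module, norm_smul, norm_smul, hu,
      mul_one, Real.norm_of_nonneg hT.le, Real.norm_eq_abs] at k
    exact le_of_mul_le_mul_left (by linarith) hT
  have a5 := pow_le_pow_left₀ (norm_nonneg _) a3 2
  rw [norm_add_sq_real, B.unit, hu] at a5
  linarith [g (by linarith)]

end RMOD

open RMOD

theorem sMOD : SMOD := by
  intro R hi η hη
  obtain ⟨e, e0, e1, e2⟩ : ∃ e : ℝ, 0 < e ∧ e ≤ 1 / 4 ∧ e ≤ η / 9 :=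
    ⟨min _ _, by positivity, min_le_left _ _, min_le_right _ _⟩
  have T0 : 0 < 4 * (|R| + 2) / e := by positivity
  have T1 : 2 * (|R| + 2) ≤ 4 * (|R| + 2) / e * (e / 2) := le_of_eq (by field_simp; norm_num)
  generalize 4 * (|R| + 2) / e = T at T0 T1
  have K0 : 0 < 2 * exp ((|hi| + 1) * T) := by positivity
  refine ⟨min (1 / 2) (e / 2 / (2 * exp ((|hi| + 1) * T))), by positivity, ?_⟩
  intro m lg dX P _ A B G dn p p' z h hz hs
  have Y := B.yw
  have k1 : 1 ≤ |hi| + 1 := by linarith [abs_nonneg hi]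
  have dn' : m.Dn ((|hi| + 1) ^ 2) := fun y u v => (dn y u v).trans (mul_le_mul_of_nonneg_right
    (by nlinarith [le_abs_self hi, abs_nonneg hi]) (by
      have := real_inner_mul_inner_self_le u v
      rw [real_inner_self_eq_norm_sq, real_inner_self_eq_norm_sq] at this
      nlinarith))
  have f := (fan Y k1 dn' T0.le z ((B.isb p').unit z) ((B.isb p).unit z)
    (hs.trans (min_le_left _ _))).trans (((le_div_iff₀' K0).1 (hs.trans (min_le_right _ _))))
  have f' := f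
  rw [lg_symm Y.jac Y.had] at f'
  have e3 : (e / 2) ^ 2 ≤ e / 2 := by nlinarith
  have n1 : ‖lg (A.ft p', z)‖ ≤ R + 1 := G.near p' z R (h ▸ hz)
  have n2 : ‖lg ((m.Z 1 (A.ft p', A.ν p' (A.ft p'))).1, z)‖ ≤ |R| + 2 := by
    have t := Y.had.tri (m.Z 1 (A.ft p', A.ν p' (A.ft p'))).1 (A.ft p') z
    have l := lg_ray Y.jac Y.had 1 (A.ft p', A.ν p' (A.ft p'))
    rw [lg_symm Y.jac Y.had (A.ft p'), l, one_smul, (B.isb p').unit] at t
    linarith [le_abs_self R]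
  have a1 := near Y (B.isb p) (B.b1 p) (B.isb p') T0 (by linarith)
    (n1.trans (by linarith [le_abs_self R])) T1 f'
  have a2 := near Y (B.isb p') (B.b1 p') (B.isb p) T0 (by linarith) n2 T1 f
  have a3 := near Y (B.isb p') (B.b1 p') (B.isb p) T0 (by linarith)
    (n1.trans (by linarith [le_abs_self R])) T1 f
  obtain ⟨f1, f2, f3⟩ := B.flp p'
  have f0 := B.foot (A.fl p')
  rw [f2] at f0
  rw [(B.isb p').ray] at a2
  have a4 := (lb (B.isb p) (z := (A.ft p', A.ν p' (A.ft p'))) ((B.isb p').unit _) 1).trans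
    (exp_le_exp.2 (by linarith : _ ≤ -1 + 2 * e))
  have a5 : 1 - ⟪A.ν p (A.ft p'), A.ν p' (A.ft p')⟫ ≤ 4 * e := by
    have b1 := abs_exp_sub_one_le (x := 2 * e) (by rw [abs_of_nonneg] <;> linarith)
    have b2 := (abs_le.1 (inn (B.isb p) (A.ft p') ((B.isb p').unit (A.ft p')))).2
    have b3 : exp (-1) ≤ 1 := exp_le_one_iff.2 (by norm_num)
    rw [abs_of_nonneg (by linarith : 0 ≤ 2 * e)] at b1
    rw [exp_add] at a4
    nlinarith [cosh_sub_sinh 1, mul_le_mul_of_nonneg_left (self_le_sinh_iff.2 zero_le_one)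
      (sub_nonneg.2 b2), mul_le_mul_of_nonneg_left ((le_abs_self _).trans b1) (exp_pos (-1)).le]
  have a6 := fib B (h.trans f1.symm) fun x => gap Y (B.isb p) (B.isb (A.fl p')) (A.ft p') x
    (by rw [f3, inner_neg_right]; linarith)
  rw [f3, inner_neg_right, f0] at a6
  linarith [B.foot p']

end Pool.Agent.MP_3ee8cb_gt.NS
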