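import Pool.Agent.MP_3ee8cb_gt.NS.Spec

/-! The model tensor in frames. -/

namespace Pool.Agent.MP_3ee8cb_gt.NS

open DN (Dim dm)

variable [Dim]

open Set Filter Topology Real DN DZ
open CR (Met UT)
open scoped RealInnerProductSpace

noncomputable section

namespace RNM

section

variable {E F : Type} [NormedAddCommGroup E] [NormedSpace ℝ E] [FiniteDimensional ℝ E]
  [NormedAddCommGroup F] [NormedSpace ℝ F]

omit [Dim] in
theorem dif {f : E → E →L[ℝ] F} (h : ∀ y, Differentiable ℝ fun x => f x y) :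
    Differentiable ℝ f := by
  let d := Module.finrank ℝ E
  have hd : d = Module.finrank ℝ (Fin d → ℝ) := (Module.finrank_fin_fun ℝ).symm
  let e₁ := ContinuousLinearEquiv.ofFinrankEq hd
  let e₂ := (e₁.arrowCongr (1 : F ≃L[ℝ] F)).trans (ContinuousLinearEquiv.piRing (Fin d))
  rw [← Function.id_comp f, ← e₂.symm_comp_self]
  exact e₂.symm.differentiable.comp (differentiable_pi.mpr fun i => h _)

omit [Dim] [FiniteDimensional ℝ E] in
theorem l1 {f : E → E →L[ℝ] F} (h : Differentiable ℝ f) {y U : ℝ → E} {y' U' : E} {t : ℝ}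
    (hy : HasDerivAt y y' t) (hU : HasDerivAt U U' t) :
    HasDerivAt (fun s => f (y s) (U s))
      (fderiv ℝ (fun x => f x (U t)) (y t) y' + f (y t) U') t := by
  have a := ((h (y t)).hasFDerivAt.comp_hasDerivAt t hy).clm_apply hU
  rw [((h (y t)).hasFDerivAt.clm_apply (hasFDerivAt_const (U t) _)).fderiv]
  refine a.congr_deriv ?_
  simp

omit [Dim] in
theorem lei {T : E → E →L[ℝ] E →L[ℝ] E →L[ℝ] E}
    (h : ∀ u v w, Differentiable ℝ fun x => T x u v w) {y U W : ℝ → E} {y' U' W' : E} {t : ℝ}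
    (hy : HasDerivAt y y' t) (hU : HasDerivAt U U' t) (hW : HasDerivAt W W' t) :
    HasDerivAt (fun s => T (y s) (U s) (W s) (W s))
      (fderiv ℝ (fun x => T x (U t) (W t) (W t)) (y t) y' + T (y t) U' (W t) (W t) +
        T (y t) (U t) W' (W t) + T (y t) (U t) (W t) W') t := by
  have dT := dif (F := E →L[ℝ] E →L[ℝ] E) (f := T) fun u =>
    dif (F := E →L[ℝ] E) fun v => dif fun w => h u v w
  have k := fun (U W : ℝ → E) (U' W' : E) (hU : HasDerivAt U U' t) (hW : HasDerivAt W W' t) =>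
    (HasDerivAt.clm_apply (F := E) (G := E →L[ℝ] E)
      (l1 (F := E →L[ℝ] E →L[ℝ] E) dT hy hU) hW).clm_apply hW
  have e := (k _ _ _ _ (hasDerivAt_const t (U t)) (hasDerivAt_const t (W t))).unique
    ((h (U t) (W t) (W t) (y t)).hasFDerivAt.comp_hasDerivAt t hy)
  simp only [map_zero, add_zero] at e
  refine (k U W U' W' hU hW).congr_deriv ?_
  rw [← e]
  simp only [add_apply]

end

/-- Conjugation of an operator. -/
def p1 (R S : V →L[ℝ] V) : (V →L[ℝ] V) →L[ℝ] V →L[ℝ] V :=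
  (ContinuousLinearMap.compL ℝ V V V S).comp ((ContinuousLinearMap.compL ℝ V V V).flip R)

/-- Conjugation of a bilinear map. -/
def p2 (R S : V →L[ℝ] V) : (V →L[ℝ] V →L[ℝ] V) →L[ℝ] V →L[ℝ] V →L[ℝ] V :=
  (ContinuousLinearMap.compL ℝ V (V →L[ℝ] V) (V →L[ℝ] V) (p1 R S)).comp
    ((ContinuousLinearMap.compL ℝ V V (V →L[ℝ] V)).flip R)

/-- Conjugation of a trilinear map. -/
def tf (R S : V →L[ℝ] V) (T : T3) : T3 := (p2 R S).comp (T.comp R)

theorem tf_apply (R S : V →L[ℝ] V) (T : T3) (a b c : V) :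
    tf R S T a b c = S (T (R a) (R b) (R c)) := rfl

variable {h : Met dm} {C : TB.Chr dm} {Ψ : ℝ → UT h → UT h} {m : MF}

theorem inS (ok : m.OK) (lk : Lk h C Ψ m) (y u b : V) : ⟪m.S y u, b⟫ = h y u (m.R y b) := by
  rw [← lk.orth y, ok.RS]

theorem nrm (lk : Lk h C Ψ m) (y a : V) : ‖a‖ ^ 2 = h y (m.R y a) (m.R y a) := by
  rw [lk.orth, real_inner_self_eq_norm_sq]

theorem bd (ok : m.OK) (lk : Lk h C Ψ m) {y e u : V} {δ : ℝ} (d0 : 0 ≤ δ)
    (he : h y e e ≤ δ ^ 2 * h y (m.R y u) (m.R y u)) : ‖m.S y e‖ ≤ δ * ‖u‖ := by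
  rw [← sq_le_sq₀ (norm_nonneg _) (by positivity), mul_pow, nrm lk y, nrm lk y u, ok.RS]
  exact he

theorem dR (ok : m.OK) (lk : Lk h C Ψ m) (y W a : V) :
    fderiv ℝ m.R y W a = m.R y (m.om y W a) - C y W (m.R y a) := by
  rw [lk.conn, ok.RS, add_sub_cancel_right]

theorem up (ok : m.OK) (lk : Lk h C Ψ m) {y u : ℝ → V} {W u' : V} {t : ℝ}
    (hy : HasDerivAt y W t) (hu : HasDerivAt u (u' - m.om (y t) W (u t)) t) :
    HasDerivAt (fun s => m.R (y s) (u s))
      (m.R (y t) u' - C (y t) W (m.R (y t) (u t))) t := by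
  have a := (((ok.cR.differentiable (by norm_num)) (y t)).hasFDerivAt.comp_hasDerivAt t
    hy).clm_apply hu
  refine a.congr_deriv ?_
  simp only [Function.comp_apply, dR ok lk, map_sub]
  abel

theorem down (ok : m.OK) (lk : Lk h C Ψ m) {y X : ℝ → V} {W X' : V} {t : ℝ}
    (hy : HasDerivAt y W t) (hX : HasDerivAt X (X' - C (y t) W (X t)) t) :
    HasDerivAt (fun s => m.S (y s) (X s))
      (m.S (y t) X' - m.om (y t) W (m.S (y t) (X t))) t := by
  have a := (((ok.cS.differentiable (by norm_num)) (y t)).hasFDerivAt.comp_hasDerivAt t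
    hy).clm_apply hX
  obtain ⟨g, a⟩ : ∃ g, HasDerivAt (fun s => m.S (y s) (X s)) g t := ⟨_, a⟩
  have b := up ok lk (u := fun s => m.S (y s) (X s)) (u' := g + m.om (y t) W (m.S (y t) (X t)))
    hy (by rw [add_sub_cancel_right]; exact a)
  simp only [ok.RS] at b
  have c := sub_left_injective (b.unique hX)
  refine a.congr_deriv ?_
  rw [← c, ok.SR, add_sub_cancel_right]

end RNM

open RNM in
theorem sNM : SNM := by
  intro h C Λ _ _ Ψ _ _ m T d δ ok jc lk d0 nc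
  refine ⟨fun y => tf (m.R y) (m.S y) (T y), fun y => ⟨nc.d0, nc.d1, fun u v w => ?_,
    fun u v w s => ?_, fun u w => ?_, fun w => ?_⟩, fun y u w hw => ?_, fun y a b => ?_,
    fun y u w => ?_, fun z u u' t hz hu => ?_⟩
  · rw [tf_apply, tf_apply, nc.sk, map_neg]
  · rw [tf_apply, tf_apply, inS ok lk, inS ok lk, nc.ps]
  · rw [tf_apply, inS ok lk]
    exact nc.pos _ _ _
  · rw [nrm lk y, ← nc.trc]
    have e : (Pw (tf (m.R y) (m.S y) (T y)) w : V →ₗ[ℝ] V) =
        (m.S y : V →ₗ[ℝ] V) ∘ₗ ((Pw (T y) (m.R y w) : V →ₗ[ℝ] V) ∘ₗ (m.R y : V →ₗ[ℝ] V)) := rfl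
    have e' : ((Pw (T y) (m.R y w) : V →ₗ[ℝ] V) ∘ₗ (m.R y : V →ₗ[ℝ] V)) ∘ₗ
        (m.S y : V →ₗ[ℝ] V) = (Pw (T y) (m.R y w) : V →ₗ[ℝ] V) :=
      LinearMap.ext fun u => congrArg (Pw (T y) (m.R y w)) (ok.RS y u)
    rw [tr, tr, e, ← LinearMap.trace_comp_comm', e']
  · simp only [tf_apply, ok.RS]
    rw [← map_sub]
    exact bd ok lk d0 (nc.sq y _ _ _ (by rw [← nrm lk, hw, one_pow]) rfl)
  · have := nc.le y (m.R y a) (m.R y b)
    rw [lk.curv, inS ok lk, nrm lk y a, nrm lk y b, ← lk.orth y]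
    linarith
  · have := nc.cur y (m.R y u) (m.R y w)
    rw [lk.curv, tf_apply, inS ok lk, inS ok lk, nrm lk y u, nrm lk y w, ← lk.orth y]
    simpa only [one_pow, one_mul, mul_one, add_assoc] using this
  · have hy : HasDerivAt (fun s => (m.Z s z).1) (m.R (m.Z t z).1 (m.Z t z).2) t :=
      (ContinuousLinearMap.fst ℝ V V).hasFDerivAt.comp_hasDerivAt t (ok.ode z t)
    have hv : HasDerivAt (fun s => (m.Z s z).2) (0 - m.w z t (m.Z t z).2) t := by
      rw [zero_sub]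
      exact (ContinuousLinearMap.snd ℝ V V).hasFDerivAt.comp_hasDerivAt t (ok.ode z t)
    have hU := up ok lk hy hu
    have hV := up ok lk hy hv
    have hX := lei nc.dif hy hU hV
    have n1 : h (m.Z t z).1 (m.R (m.Z t z).1 (m.Z t z).2) (m.R (m.Z t z).1 (m.Z t z).2) = 1 := by
      rw [← nrm lk, jc.norm, hz, one_pow]
    refine ⟨_, bd ok lk d0 (by simpa only [mul_one] using nc.par _ (m.R _ (u t)) _ _ n1 rfl), ?_⟩
    simp only [tf_apply, MF.w]
    rw [← map_add]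
    refine down ok lk hy (hX.congr_deriv ?_)
    simp only [map_sub, map_zero, zero_sub, map_neg, sub_apply, neg_apply]
    abel

end

end Pool.Agent.MP_3ee8cb_gt.NS
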