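import Pool.Agent.MP_3ee8cb_gt.NS.Spec
import Pool.Agent.MP_3ee8cb_gt.D3IN.RSca

/-! Scaling of the metrics. -/

namespace Pool.Agent.MP_3ee8cb_gt.NS

open DN (Dim dm)

variable [Dim]

open DN DZ

theorem NC.scale {h : CR.Met dm} {C : TB.Chr dm} {T : V → T3} {a d δ : ℝ}
    (K : NC h C T a d δ) : NC (CR.scale_m a⁻¹ h) C (fun x => a ^ 2 • T x) 1 d δ := by
  have a2 : 0 ≤ a ^ 2 := sq_nonneg a
  have u1 : ∀ x w, CR.scale_m a⁻¹ h x w w = 1 → h x (a • w) (a • w) = 1 := fun x w e => by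
    rw [D3IN.Sca.app] at e
    simp only [map_smul, smul_apply, smul_eq_mul]
    linear_combination e
  have t2 : ∀ x u w, (a ^ 2 • T x) u w w = T x u (a • w) (a • w) := fun x u w => by
    simp only [map_smul, smul_apply, smul_smul, pow_two]
  refine ⟨K.d0, K.d1, fun u v w => ?_, fun x u v w => ?_, fun x u v w s => ?_, fun x u w => ?_,
    fun x w => ?_, fun x u w e hw he => ?_, fun x u w => ?_, fun x u w => ?_,
    fun x u w e hw he => ?_⟩
  · simp only [smul_apply]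
    exact (K.dif u v w).const_smul (a ^ 2)
  · simp only [smul_apply]
    rw [K.sk, smul_neg]
  · simp only [D3IN.Sca.app, smul_apply, map_smul, smul_eq_mul]
    rw [K.ps]
  · simp only [D3IN.Sca.app, smul_apply, map_smul, smul_eq_mul]
    exact mul_nonneg a2 (mul_nonneg a2 (K.pos x u w))
  · have e : Pw (a ^ 2 • T x) w = Pw (T x) (a • w) := by
      ext1 u
      exact t2 x u w
    rw [e, K.trc, D3IN.Sca.app]
    simp only [map_smul, smul_apply, smul_eq_mul]
    ring
  · rw [t2, t2] at he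
    have := K.sq x u _ e (u1 x w hw) he
    rw [D3IN.Sca.app, D3IN.Sca.app]
    nlinarith [mul_le_mul_of_nonneg_left this a2]
  · simp only [D3IN.Sca.app]
    nlinarith [mul_le_mul_of_nonneg_left (K.le x u w) a2]
  · simp only [D3IN.Sca.app, smul_apply, map_smul, smul_eq_mul]
    have := mul_le_mul_of_nonneg_left (K.cur x u w) a2
    rw [← abs_of_nonneg a2, ← abs_mul, abs_of_nonneg a2] at this
    refine (le_of_eq (congrArg _ ?_)).trans (this.trans (le_of_eq ?_)) <;> ring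
  · have f : ∀ c : ℝ, fderiv ℝ (fun y => c • T y u w w) x = c • fderiv ℝ (fun y => T y u w w) x :=
      fun c => fderiv_const_smul (K.dif u w w x) c
    have := K.par x u _ (a • e) (u1 x w hw) (by
      rw [he]
      simp only [smul_apply, map_smul, smul_smul, f, smul_add, smul_sub, pow_two, mul_assoc])
    rw [D3IN.Sca.app, D3IN.Sca.app]
    simp only [map_smul, smul_apply, smul_eq_mul] at this
    nlinarith

theorem sSCN : SSCN := by
  intro δ A g h C C' Γ Λ _ _ _ _ Φ Ψ ρ F qg qh c c' dΓ dΛ cj T a d ha K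
  have hc : a⁻¹ ≠ 0 := inv_ne_zero ha.ne'
  have n0 : 0 < dm := Nat.succ_pos _
  have a2 : 0 < a ^ 2 := by positivity
  obtain ⟨f, f1, f2, f3, f4⟩ := A _ _ C C' Γ Λ _ _ ρ (D3IN.Sca.sc hc F)
    (LV.all_qp n0 (CR.scale_riem hc qg.rp.riem) (CR.scale_deck _ qg.rp.deck)
      (CR.scale_flow hc qg.rp.flow))
    (LV.all_qp n0 (CR.scale_riem hc qh.rp.riem) (CR.scale_deck _ qh.rp.deck)
      (CR.scale_flow hc qh.rp.flow))
    (D3IN.Sca.chr _ c) (D3IN.Sca.chr _ c') dΓ dΛ (D3IN.Sca.cj hc cj) _ d K.scale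
  refine ⟨f, f1, f2, fun x u v => ?_, f4⟩
  have h5 := f3 x u v
  rw [D3IN.Sca.app, D3IN.Sca.app] at h5
  exact mul_left_cancel₀ a2.ne' h5

end Pool.Agent.MP_3ee8cb_gt.NS
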