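import Pool.Agent.MP_3ee8cb_gt.NS.Spec
import Pool.Agent.MP_3ee8cb_gt.DZ.RSUP

/-! The support function of the penalised Busemann functions. -/

namespace Pool.Agent.MP_3ee8cb_gt.NS

open DN (Dim dm)

variable [Dim]

open Set Filter Topology Real DN DZ
open scoped RealInnerProductSpace

namespace H81

variable {m : MF} {lg : V × V → V} {dX : V → V → ℝ} {P : Type} [TopologicalSpace P] {A : Fam P}
  {lam : ℝ}

theorem mx (hb : BF m lg dX A) (hg : BG lg A) (lam : ℝ) (x : V) (q : V × V) :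
    ∃ p, A.pr p = x ∧ uN A m lam x q.1 q.2 = ph m lam (A.β p) q ∧
      ∀ p', A.pr p' = x → ph m lam (A.β p') q ≤ ph m lam (A.β p) q := by
  have hc : ∀ y : V, Continuous fun p : P => A.β p y := fun y =>
    hb.cont.comp (continuous_id.prodMk continuous_const)
  exact (hb.cpt x).exists_sSup_image_eq_and_ge (DZ.H81.fib hg x)
    ((((hc _).const_mul _).sub continuous_const).sub ((hc _).const_mul _)).continuousOn

theorem le_u (hb : BF m lg dX A) (hg : BG lg A) (lam : ℝ) {x : V} {p : P} (hp : A.pr p = x)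
    (q : V × V) : ph m lam (A.β p) q ≤ uN A m lam x q.1 q.2 := by
  obtain ⟨p', -, e, h⟩ := mx hb hg lam x q
  rw [e]
  exact h p hp

theorem half (hb : BF m lg dX A) (hg : BG lg A) (x x' : V) (q : V × V) {d : ℝ}
    (hd : ∀ p p' k, A.pr p = x → A.pr p' = x' → (∀ z, A.β p' z = A.β p z + k) → |k| ≤ d) :
    uN A m lam x q.1 q.2 - uN A m lam x' q.1 q.2 ≤ d := by
  obtain ⟨p, hp, e, -⟩ := mx hb hg lam x q
  obtain ⟨p', k, hp', hk⟩ := hb.mov p x'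
  have h1 := le_u hb hg lam hp' q
  have := abs_le.1 (hd p p' k hp hp' hk)
  rw [e]
  rw [ph, hk, hk] at h1
  rw [ph]
  linarith [this.1]

theorem lipx (hb : BF m lg dX A) (hg : BG lg A) (x x' z w : V) :
    |uN A m lam x z w - uN A m lam x' z w| ≤ dX x x' := by
  have h1 := half (lam := lam) hb hg x x' (z, w) (d := dX x x') fun p p' k hp hp' hk => by
    rw [← hp, ← hp']
    exact hb.lip p p' k hk
  have h2 := half (lam := lam) hb hg x' x (z, w) (d := dX x x') fun p p' k hp hp' hk => by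
    rw [← hp, ← hp']
    exact DZ.H81.back hb hk
  exact abs_le.2 ⟨by linarith, h1⟩

theorem lipz (hb : BF m lg dX A) (hg : BG lg A) (h0 : 0 ≤ lam) (R : ℝ) : ∃ K, ∀ x,
    LipschitzOnWith K (fun q : V × V => uN A m lam x q.1 q.2) {q | ‖q.1‖ ≤ R ∧ ‖q.2‖ = 1} := by
  obtain ⟨K1, k1, h1⟩ := DZ.H81.lipZ hb.yw 0 R
  obtain ⟨K2, k2, h2⟩ := DZ.H81.lipZ hb.yw 1 R
  refine ⟨_, fun x => LipschitzOnWith.of_le_add_mul' ((1 + lam) * K1 + lam * K2)
    fun q hq q' hq' => ?_⟩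
  obtain ⟨p, hp, e, -⟩ := mx hb hg lam x q
  have a1 := ((hb.isb p).lip _ _).trans (h1 q q' hq.1 hq.2 hq'.1 hq'.2)
  have a2 := ((hb.isb p).lip _ _).trans (h2 q' q hq'.1 hq'.2 hq.1 hq.2)
  rw [hb.yw.ok.zero, hb.yw.ok.zero] at a1
  rw [dist_comm q' q] at a2
  have a3 := le_u hb hg lam hp q'
  rw [e]
  rw [ph] at a3 ⊢
  nlinarith [mul_le_mul_of_nonneg_left a1 (by linarith : 0 ≤ 1 + lam),
    mul_le_mul_of_nonneg_left a2 h0]

theorem gap {b : V → ℝ} {ν : V → V} (i : IsB m lg b ν) (z : V) {w : V} (hw : ‖w‖ = 1) :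
    ‖ν z - w‖ ^ 2 ≤ 2 * (b (m.Z 1 (z, w)).1 - b z + 1) := by
  have h1 := i.lb z w 1 hw
  obtain ⟨s, hs⟩ : ∃ s, s = ⟪ν z, w⟫ := ⟨_, rfl⟩
  have s1 := abs_real_inner_le_norm (ν z) w
  rw [i.unit, hw, mul_one, ← hs] at s1
  have s2 := abs_le.1 s1
  have h2 := convexOn_exp.2 (mem_univ 1) (mem_univ (-1)) (by linarith : 0 ≤ (1 - s) / 2)
    (by linarith : 0 ≤ (1 + s) / 2) (by ring)
  simp only [smul_eq_mul] at h2
  rw [← hs, cosh_eq, sinh_eq] at h1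
  have h3 : b z + ((1 - s) / 2 * 1 + (1 + s) / 2 * -1) ≤ b (m.Z 1 (z, w)).1 := by
    refine exp_le_exp.1 (le_trans ?_ h1)
    rw [exp_add]
    exact mul_le_mul_of_nonneg_left (by linarith) (exp_pos _).le
  rw [norm_sub_sq_real, i.unit, hw, ← hs]
  linarith

theorem low (hb : BF m lg dX A) (hg : BG lg A) (lam : ℝ) (x z : V) {w : V} (hw : ‖w‖ = 1) :
    ∃ p, A.pr p = x ∧ A.ν p z = w ∧ A.β p z ≤ uN A m lam x z w := by
  obtain ⟨p, hp, hn⟩ := hg.onto x z w hw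
  refine ⟨p, hp, hn, le_trans (le_of_eq ?_) (le_u hb hg lam hp (z, w))⟩
  have r := (hb.isb p).ray z 1
  rw [hn] at r
  rw [ph, r]
  ring

theorem bd (hb : BF m lg dX A) (hg : BG lg A) (h0 : 0 ≤ lam) {R : ℝ} (x z w : V)
    (hz : z ∈ A.C R x) (hw : ‖w‖ = 1) : |uN A m lam x z w| ≤ R := by
  obtain ⟨p', hp', -, h1⟩ := low hb hg lam x z hw
  obtain ⟨p, hp, e, -⟩ := mx hb hg lam x (z, w)
  refine abs_le.2 ⟨(DZ.H81.lowC hb hg hz p' hp').trans h1, e.trans_le ?_⟩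
  have h2 := gap (hb.isb p) z hw
  have h3 := hz p hp
  rw [ph]
  nlinarith [mul_nonneg h0 ((sq_nonneg _).trans h2)]

omit [Dim] in
theorem num {k e lam σ n c : ℝ} (hk : 1 ≤ k) (h1 : 36 ≤ e ^ 2 * lam) (l0 : 1 ≤ lam)
    (n0 : 0 ≤ n) (h2 : 36 * k ^ 2 * (lam * σ ^ 2) ≤ e ^ 2) (h3 : lam * σ ^ 2 / 4 ≤ c - 1)
    (h4 : n ≤ σ + k * lam * σ * ((k * lam)⁻¹ + σ)) : n ^ 2 ≤ e ^ 2 * (c - 1) := by
  have kl : 0 < k * lam := by positivity
  have e1 : σ + k * lam * σ * ((k * lam)⁻¹ + σ) = σ * (2 + k * lam * σ) := by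
    field_simp
    ring
  rw [e1] at h4
  have a1 : n ^ 2 ≤ (σ * (2 + k * lam * σ)) ^ 2 := pow_le_pow_left₀ n0 h4 2
  have a2 : (k * lam * σ) ^ 2 ≤ e ^ 2 * lam / 36 := by
    nlinarith [mul_le_mul_of_nonneg_right h2 (by linarith : 0 ≤ lam)]
  have a3 : (2 + k * lam * σ) ^ 2 ≤ e ^ 2 * lam / 4 := by
    nlinarith [sq_nonneg (k * lam * σ - 1)]
  rw [mul_pow] at a1
  nlinarith [mul_le_mul_of_nonneg_left a3 (sq_nonneg σ),
    mul_le_mul_of_nonneg_left h3 (sq_nonneg e)]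

end H81

open H81

theorem sSUPN : SSUPN := by
  intro hM k ε hk hε
  obtain ⟨e, he⟩ : ∃ e, e = min ε 1 := ⟨_, rfl⟩
  have e0 : 0 < e := he ▸ lt_min hε one_pos
  have e1 : e ≤ 1 := he ▸ min_le_right _ _
  have e2 : e ≤ ε := he ▸ min_le_left _ _
  obtain ⟨R, hR⟩ : ∃ R, R = R0 + 2 := ⟨_, rfl⟩
  have R0' : 0 < R := by
    rw [hR, R0]
    positivity
  obtain ⟨σ, σ0, hσ⟩ := hM R (3 * dm) (e ^ 2 / (72 * k ^ 2)) (by positivity)
  obtain ⟨lam, hl⟩ : ∃ lam, lam = 1 + 36 / e ^ 2 + 2 * R + 4 * R / σ ^ 2 := ⟨_, rfl⟩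
  have p1 : 0 < 36 / e ^ 2 := by positivity
  have p2 : 0 < 4 * R / σ ^ 2 := by positivity
  have l1 : 1 ≤ lam := by linarith
  have l0 : 0 ≤ lam := by linarith
  have l2 : 36 ≤ e ^ 2 * lam := by
    rw [mul_comm, ← div_le_iff₀ (by positivity)]
    linarith
  have l3 : 2 * R ≤ lam := by linarith
  have l4 : 4 * R ≤ lam * σ ^ 2 := by
    rw [← div_le_iff₀ (by positivity)]
    linarith
  have kl : 1 ≤ k * lam := one_le_mul_of_one_le_of_one_le hk l1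
  refine ⟨lam, (k * lam)⁻¹, l1, by positivity, inv_le_one_of_one_le₀ kl,
    fun m lg dX P _ A hb hg hd T hH => ⟨fun x x' z w _ => lipx hb hg x x' z w, fun x₀ R' => ?_,
      fun x z w hz hw => ?_, fun x z w => bd hb hg l0 x z w, ?_, ?_, fun x => ?_⟩⟩
  · obtain ⟨K, hK⟩ := lipz hb hg l0 R'
    exact ⟨K, fun x _ => hK x⟩
  · rw [← hR] at hz
    obtain ⟨p', hp', n', h1⟩ := low hb hg lam x z hw
    obtain ⟨p, hp, ep, hm⟩ := mx hb hg lam x (z, w)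
    have h2 := gap (hb.isb p) z hw
    have h3 := hz p hp
    have h4 := DZ.H81.lowC hb hg hz p' hp'
    obtain ⟨s, hs⟩ : ∃ s, s = A.β p (m.Z 1 (z, w)).1 - A.β p z + 1 := ⟨_, rfl⟩
    have h5 : lam * s ≤ A.β p z - A.β p' z := by
      have := h1.trans_eq ep
      rw [ph] at this
      rw [hs]
      linarith
    rw [← hs] at h2
    have h6 : s ≤ 1 := le_of_mul_le_mul_left (by linarith : lam * s ≤ lam * 1) (by linarith)
    have h7 : lam * ‖A.ν p z - w‖ ^ 2 ≤ 2 * (A.β p z - A.β p' z) := by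
      linarith [mul_le_mul_of_nonneg_left h2 l0]
    have h8 : ‖A.ν p z - w‖ ≤ σ := le_of_sq_le_sq
      (le_of_mul_le_mul_left (by linarith : lam * _ ≤ lam * σ ^ 2) (by linarith)) σ0.le
    have h9 := hσ m lg dX P A hb hg hd p p' z (hp.trans hp'.symm) (hp ▸ hz) (n' ▸ h8)
    have g1 : 36 * k ^ 2 * (lam * ‖A.ν p z - w‖ ^ 2) ≤ e ^ 2 := by
      rw [le_div_iff₀ (by positivity)] at h9
      linarith [mul_le_mul_of_nonneg_left h7 (by positivity : 0 ≤ 36 * k ^ 2)]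
    obtain ⟨D, c, ζ, hD, z0, hv, c1, c2, c3⟩ := hH p lam z w l1 hw (by linarith)
    have g2 := num hk l2 l1 (norm_nonneg ζ) g1 c1 c3
    have g0 : 0 ≤ lam * ‖A.ν p z - w‖ ^ 2 := by positivity
    have g3 : c - 1 ≤ e := by
      have a1 := mul_nonneg (by linarith : 0 ≤ k) g0
      have a2 := mul_le_mul_of_nonneg_right hk a1
      have a3 := mul_le_of_le_one_right e0.le e1
      linarith
    have g4 : e ^ 2 ≤ ε ^ 2 := pow_le_pow_left₀ e0.le e2 2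
    have g5 : ‖ζ‖ ^ 2 ≤ ε ^ 2 * (c - 1) :=
      g2.trans (mul_le_mul_of_nonneg_right g4 (by linarith))
    refine ⟨ph m lam (A.β p), D, c, ζ, hD, ep.symm, .of_forall fun q _ => le_u hb hg lam hp q,
      by linarith, by linarith, z0, le_of_sq_le_sq (g5.trans ?_) hε.le, g5, fun hc => ?_, hv⟩
    · exact mul_le_of_le_one_right (sq_nonneg ε) (by linarith)
    · refine ⟨p, hp, sub_eq_zero.1 (norm_eq_zero.1 ?_), hm⟩
      have : lam * ‖A.ν p z - w‖ ^ 2 = 0 := by linarith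
      exact pow_eq_zero_iff two_ne_zero |>.1 ((mul_eq_zero.1 this).resolve_left (by linarith))
  · exact fun x z h0 h1 t ht p hp => (hb.b1 p).sub z _ (h0 p hp) (h1 p hp) t ht
  · intro x x' hx z hz p hp
    obtain ⟨p', c, hp', hc⟩ := hb.mov p x'
    have h1 := hb.lip p p' c hc
    rw [hp, hp'] at h1
    have h2 := hz p' hp'
    rw [hc] at h2
    linarith [(abs_le.1 (h1.trans hx)).1]
  · obtain ⟨q, hq⟩ := DZ.H81.fib hg x
    have hy : A.ft q ∈ A.C (log 2) x := fun p hp => hg.two p q (hp.trans hq.symm)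
    refine ⟨A.ft q, fun w => bd hb hg l0 x _ w hy, fun z hz p hp => ?_⟩
    have h1 := (hb.isb p).lip z (A.ft q)
    rw [DNWI.lg_symm hb.yw.jac hb.yw.had] at h1
    linarith [hy p hp, DZ.H81.lg2]

end Pool.Agent.MP_3ee8cb_gt.NS
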