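import Pool.Agent.MP_3ee8cb_gt.NS.Spec
import Pool.Agent.MP_3ee8cb_gt.DZ.RZERO

/-! The zero of the weighted field: existence, uniqueness, Lipschitz dependence. -/

namespace Pool.Agent.MP_3ee8cb_gt.NS

open Set Filter Topology MeasureTheory Real DN DZ DZZ
open scoped RealInnerProductSpace

namespace ZN47

theorem acm {f : ℝ → ℝ} {L : ℝ} (hf : AbsolutelyContinuousOnInterval f 0 L)
    (h : ∀ᵐ t, t ∈ Ioo 0 L → ∃ d, HasDerivAt f d t ∧ 0 ≤ d) {t : ℝ} (ht : t ∈ Icc 0 L) :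
    f 0 ≤ f t := by
  have k := (hf.mono (c := 0) (d := t) (by
    rw [uIcc_of_le ht.1, uIcc_of_le (ht.1.trans ht.2)]
    exact Icc_subset_Icc_right ht.2)).integral_deriv_eq_sub
  rw [← sub_nonneg, ← k, intervalIntegral.integral_of_le ht.1, integral_Ioc_eq_integral_Ioo]
  refine setIntegral_nonneg_ae measurableSet_Ioo (h.mono fun s hs hm => ?_)
  obtain ⟨d, h1, h2⟩ := hs ⟨hm.1, hm.2.trans_le ht.2⟩
  rwa [h1.deriv]

theorem lin {B : ℝ → ℝ} {L c : ℝ} (hL : 0 ≤ L) (hB : AbsolutelyContinuousOnInterval B 0 L)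
    (h : ∀ᵐ t, t ∈ Ioo 0 L → ∃ d, HasDerivAt B d t ∧ c ≤ d) : B 0 + c * L ≤ B L := by
  have a1 : AbsolutelyContinuousOnInterval (fun t : ℝ => c * t) 0 L :=
    ContDiffOn.absolutelyContinuousOnInterval (by fun_prop)
  have := acm (f := fun t => B t - c * t) (hB.sub a1) (h.mono fun t ht hm => by
    obtain ⟨d, h1, h2⟩ := ht hm
    exact ⟨_, h1.fun_sub ((hasDerivAt_id t).const_mul c), by linarith⟩) ⟨hL, le_rfl⟩
  linarith

theorem grow {A B : ℝ → ℝ} {L k y : ℝ} (hL : 0 ≤ L) (k0 : 0 ≤ k) (k1 : 4 * k ≤ 1) (y0 : 0 ≤ y)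
    (hA : AbsolutelyContinuousOnInterval A 0 L) (hB : AbsolutelyContinuousOnInterval B 0 L)
    (h1 : ∀ t, 0 ≤ A t) (h2 : ∀ t, B t ≤ A t)
    (h : ∀ᵐ t, t ∈ Ioo 0 L → ∃ a b, HasDerivAt A a t ∧ HasDerivAt B b t ∧ (1 - k) * A t ≤ b ∧
      B t - k * A t ≤ a) (h0 : y ≤ (1 - 2 * k) * A 0 + B 0) : B 0 + y / 4 * L ≤ B L := by
  have a1 : AbsolutelyContinuousOnInterval (fun t : ℝ => exp (-(1 - 2 * k) * t)) 0 L :=
    ContDiffOn.absolutelyContinuousOnInterval (by fun_prop)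
  have m1 : ∀ t ∈ Icc 0 L, y ≤ (1 - 2 * k) * A t + B t := fun t ht => by
    have := acm (f := fun t => exp (-(1 - 2 * k) * t) * ((1 - 2 * k) * A t + B t))
      (a1.mul ((hA.const_mul _).add hB)) (h.mono fun t ht hm => by
        obtain ⟨a, b, d1, d2, d3, d4⟩ := ht hm
        refine ⟨_, (((hasDerivAt_id t).const_mul (-(1 - 2 * k))).exp).fun_mul
          ((d1.const_mul (1 - 2 * k)).fun_add d2), ?_⟩
        have e0 := exp_pos (-(1 - 2 * k) * t)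
        have e1 : 0 ≤ (1 - 2 * k) * a + b - (1 - 2 * k) * ((1 - 2 * k) * A t + B t) := by
          nlinarith [mul_le_mul_of_nonneg_left d4 (by linarith : 0 ≤ 1 - 2 * k),
            mul_nonneg (mul_nonneg k0 (by linarith : 0 ≤ 1 - k)) (h1 t)]
        simp only [id]
        nlinarith [mul_nonneg e0.le e1]) ht
    simp only [mul_zero, exp_zero, one_mul] at this
    have e2 : exp (-(1 - 2 * k) * t) ≤ 1 := exp_le_one_iff.2 (by nlinarith [ht.1])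
    have e0 := exp_pos (-(1 - 2 * k) * t)
    have e3 : 0 ≤ (1 - 2 * k) * A t + B t :=
      (mul_nonneg_iff_of_pos_left e0).1 (by linarith)
    nlinarith [mul_le_mul_of_nonneg_right e2 e3]
  refine lin hL hB (h.mono fun t ht hm => ?_)
  obtain ⟨a, b, -, d2, d3, -⟩ := ht hm
  refine ⟨b, d2, ?_⟩
  nlinarith [m1 t ⟨hm.1.le, hm.2.le⟩, h1 t, h2 t, mul_nonneg k0 (h1 t),
    mul_le_mul_of_nonneg_right k1 (h1 t)]

theorem exp_sub {a b M : ℝ} (ha : a ≤ M) (hb : b ≤ M) : |exp a - exp b| ≤ exp M * |a - b| := by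
  have k : ∀ a b : ℝ, a ≤ M → exp a - exp b ≤ exp M * |a - b| := fun a b ha => by
    have h1 := mul_le_mul_of_nonneg_left (add_one_le_exp (b - a)) (exp_pos a).le
    rw [← exp_add, add_sub_cancel] at h1
    nlinarith [mul_le_mul_of_nonneg_left (le_abs_self (a - b)) (exp_pos a).le,
      mul_le_mul_of_nonneg_right (exp_le_exp.2 ha) (abs_nonneg (a - b))]
  refine abs_sub_le_iff.2 ⟨k a b ha, ?_⟩
  rw [abs_sub_comm]
  exact k b a hb

variable [Dim]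

theorem key {μ : Measure V} {g : V × V → ℝ} (hμ : Rot μ) (hg : ContinuousOn g {p | ‖p.2‖ = 1})
    {y : V} {c : ℝ} (h : ∀ w, ‖w‖ = 1 → c ≤ g (y, w)) :
    ‖av μ g y‖ ≤ ∫ w, g (y, ‖w‖⁻¹ • w) ∂μ - dm * c := by
  have := hμ.fin
  have i1 : Integrable (fun w => g (y, ‖w‖⁻¹ • w)) μ := hμ.int (f := fun w => g (y, w))
    (hg.comp (f := fun w => (y, w)) (by fun_prop) fun _ hw => hw)
  have e : ∫ w, g (y, ‖w‖⁻¹ • w) ∂μ - dm * c = ∫ w, g (y, ‖w‖⁻¹ • w) - c ∂μ := by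
    rw [integral_sub i1 (integrable_const c), integral_const, hμ.mass, smul_eq_mul]
  rw [e, ← sub_zero (av μ g y), ← av_const hμ c y, av, av,
    ← integral_sub (av_int hμ hg y) (av_int hμ (u := fun _ => c) continuousOn_const y)]
  refine norm_integral_le_of_norm_le (i1.sub (integrable_const c)) (hμ.ne.mono fun w hw => ?_)
  rw [← sub_smul, norm_smul, nrm hw, mul_one, Real.norm_of_nonneg (sub_nonneg.2 (h _ (nrm hw)))]

theorem top {μ : Measure V} {g : V × V → ℝ} (hμ : Rot μ) (hg : ContinuousOn g {p | ‖p.2‖ = 1})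
    {y : V} {c : ℝ} (h : ∀ w, ‖w‖ = 1 → g (y, w) ≤ c) : ∫ w, g (y, ‖w‖⁻¹ • w) ∂μ ≤ dm * c := by
  have := key hμ hg.neg (y := y) (c := -c) fun w hw => neg_le_neg (h w hw)
  simp only [Pi.neg_apply, integral_neg] at this
  linarith [norm_nonneg (av μ (-g) y)]

variable {m : MF} {lg : V × V → V} {dX : V → V → ℝ} {T : V → T3} {ε : ℝ} {u : V → V → V → ℝ}
  {C C₀ : V → Set V} {Q : V → V → V → Prop}

theorem cont (h : SupN m lg dX T ε u C C₀ Q) (h0 : ∀ x, dX x x = 0) (s : ℝ) (x : V) :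
    ContinuousOn (fun q : V × V => Gs s u x q.1 q.2) {q | ‖q.2‖ = 1} := by
  refine ContinuousOn.rexp (continuousOn_const.mul fun q hq => ?_)
  obtain ⟨K, hK⟩ := h.lipz x (‖q.1‖ + 1)
  refine ((hK x (by simp [h0])).continuousOn q ⟨by linarith, hq⟩).mono_of_mem_nhdsWithin ?_
  exact inter_mem (nhdsWithin_le_nhds (continuous_fst.norm.continuousAt.eventually
    (Iic_mem_nhds (lt_add_one _)))) self_mem_nhdsWithin

variable {G : V → V → V → ℝ}

theorem kA (ro : Rot mS) {x : V} (c : ContinuousOn (fun q : V × V => G x q.1 q.2) {q | ‖q.2‖ = 1})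
    (z : V) {g : ℝ} (hg : ∀ w, ‖w‖ = 1 → g ≤ G x z w) : ‖VV G x z‖ ≤ AA G x z - dm * g :=
  key ro c (y := z) hg

theorem kT (ro : Rot mS) {x : V} (c : ContinuousOn (fun q : V × V => G x q.1 q.2) {q | ‖q.2‖ = 1})
    (z : V) {g : ℝ} (hg : ∀ w, ‖w‖ = 1 → G x z w ≤ g) : AA G x z ≤ dm * g :=
  top ro c (y := z) hg

theorem kB (v : V) {e : V} (he : ‖e‖ = 1) : |⟪v, e⟫| ≤ ‖v‖ := by
  simpa [he] using abs_real_inner_le_norm v e

theorem ex (ro : Rot mS) (hY : YW m lg) {k N ρ E g : ℝ} (hm : Mon m k G C) {x y : V}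
    (c : ContinuousOn (fun q : V × V => G x q.1 q.2) {q | ‖q.2‖ = 1}) (p : ∀ z w, 0 ≤ G x z w)
    (k0 : 0 ≤ k) (N1 : 1 ≤ N) (k1 : 4 * N * k ≤ 1) (r0 : ρ = 17 * N) (g0 : 0 < g)
    (E3 : E ≤ N * g) (h1 : ∀ w, ‖w‖ = 1 → g ≤ G x y w ∧ G x y w ≤ E)
    (h2 : ∀ z, ‖lg (y, z)‖ ≤ ρ → z ∈ C x) : ∃ z, ‖lg (y, z)‖ ≤ ρ ∧ VV G x z = 0 := by
  have d0 : (0 : ℝ) < dm := by positivity
  have k2 : 4 * k ≤ 1 := by nlinarith
  have k00 : ∀ z, ‖VV G x z‖ ≤ AA G x z := fun z => by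
    simpa using kA ro c z (g := 0) fun w _ => p z w
  have ρ0 : 0 < ρ := by linarith
  have cV : Continuous (VV G x) := av_cont ro c
  refine zero_ex hY.ok hY.had cV y ρ0 fun b hb => ?_
  obtain ⟨e, he⟩ : ∃ e, e = ρ⁻¹ • b := ⟨_, rfl⟩
  have e1 : ‖e‖ = 1 := by rw [he, ← hb]; exact nrm (norm_ne_zero_iff.1 (hb ▸ ρ0.ne'))
  have e2 : b = ρ • e := by rw [he, smul_inv_smul₀ ρ0.ne']
  obtain ⟨⟨K, l1, l2⟩, l3⟩ := hm x (y, e) ρ e1 fun t ht => h2 _ (by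
    rw [DNWI.lg_ray hY.jac hY.had t (y, e), norm_smul, e1, Real.norm_of_nonneg ht.1, mul_one]
    exact ht.2)
  rw [← uIcc_of_le ρ0.le] at l1 l2
  have a1 := kA ro c y (g := g) fun w hw => (h1 w hw).1
  have a2 := kT ro c y fun w hw => (h1 w hw).2
  have a3 := le_of_abs_le (kB (VV G x y) e1)
  have a4 : AA G x y ≤ N * (dm * g) := by linarith [mul_le_mul_of_nonneg_left E3 d0.le]
  have a5 : 0 < dm * g := by positivity
  have q1 : ∀ t, 0 ≤ AA G x (m.Z t (y, e)).1 := fun t => (norm_nonneg _).trans (k00 _)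
  have q2 : ∀ t, -⟪VV G x (m.Z t (y, e)).1, (m.Z t (y, e)).2⟫ ≤ AA G x (m.Z t (y, e)).1 :=
    fun t => (neg_le_abs _).trans ((kB _ ((hY.jac.norm t (y, e)).trans e1)).trans (k00 _))
  have q3 : dm * g / 2 ≤ (1 - 2 * k) * AA G x (m.Z 0 (y, e)).1 +
      -⟪VV G x (m.Z 0 (y, e)).1, (m.Z 0 (y, e)).2⟫ := by
    simp only [hY.ok.zero]
    linarith [mul_le_mul_of_nonneg_left a4 k0, mul_le_mul_of_nonneg_right k1 a5.le]
  have a6 := grow (A := fun t => AA G x (m.Z t (y, e)).1)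
    (B := fun t => -⟪VV G x (m.Z t (y, e)).1, (m.Z t (y, e)).2⟫) ρ0.le k0 k2 (by positivity)
    l1.absolutelyContinuousOnInterval l2.absolutelyContinuousOnInterval q1 q2 l3 q3
  simp only [hY.ok.zero] at a6
  have a7 : dm * g / 2 / 4 * ρ = 17 / 8 * (N * (dm * g)) := by rw [r0]; ring
  have a8 : 0 < N * (dm * g) := by positivity
  have a9 : ⟪VV G x (m.Z ρ (y, e)).1, (m.Z ρ (y, e)).2⟫ < 0 := by linarith
  rw [e2, hY.jac.scale, mul_one, real_inner_smul_left, real_inner_comm]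
  exact mul_neg_of_pos_of_neg ρ0 a9

theorem st (ro : Rot mS) (hY : YW m lg) {k g δ : ℝ} (hm : Mon m k G C) {x x' z z' : V}
    (c : ContinuousOn (fun q : V × V => G x q.1 q.2) {q | ‖q.2‖ = 1})
    (c' : ContinuousOn (fun q : V × V => G x' q.1 q.2) {q | ‖q.2‖ = 1}) (g0 : 0 < g)
    (k2 : 4 * k ≤ 1) (δ0 : 0 ≤ δ) (p : ∀ z ∈ C x, ∀ w, ‖w‖ = 1 → g ≤ G x z w)
    (cv : ∀ t ∈ Icc (0 : ℝ) 1, (m.Z t (z, lg (z, z'))).1 ∈ C x)
    (hδ : ∀ w, ‖w‖ = 1 → |G x z' w - G x' z' w| ≤ δ) (a3 : VV G x z = 0) (a4 : VV G x' z' = 0) :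
    g / 2 * ‖lg (z, z')‖ ≤ δ := by
  have d0 : (0 : ℝ) < dm := by positivity
  obtain ⟨L, hL⟩ : ∃ L, L = ‖lg (z, z')‖ := ⟨_, rfl⟩
  rw [← hL]
  rcases (hL ▸ norm_nonneg _ : 0 ≤ L).eq_or_lt with L0 | L0
  · rw [← L0, mul_zero]; exact δ0
  obtain ⟨e, he⟩ : ∃ e, e = L⁻¹ • lg (z, z') := ⟨_, rfl⟩
  have e1 : ‖e‖ = 1 := by rw [he, hL]; exact nrm (norm_ne_zero_iff.1 (hL ▸ L0.ne'))
  have e2 : lg (z, z') = L • e := by rw [he, smul_inv_smul₀ L0.ne']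
  have e3 : (m.Z L (z, e)).1 = z' := by
    have := hY.had.ex z z'
    rwa [e2, hY.jac.scale, mul_one] at this
  have mem : ∀ t ∈ Icc 0 L, (m.Z t (z, e)).1 ∈ C x := fun t ht => by
    have := cv (t / L) ⟨div_nonneg ht.1 L0.le, (div_le_one L0).2 ht.2⟩
    rwa [e2, hY.jac.scale, mul_div_cancel₀ _ L0.ne'] at this
  obtain ⟨⟨K, -, l2⟩, l3⟩ := hm x (z, e) L e1 mem
  rw [← uIcc_of_le L0.le] at l2
  have b1 := lin (c := dm * g / 2) L0.le l2.absolutelyContinuousOnInterval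
    (l3.mono fun t ht hm => by
      obtain ⟨a, b, -, d2, d3, -⟩ := ht hm
      have b0 := kA ro c _ (p _ (mem t ⟨hm.1.le, hm.2.le⟩))
      have b2 := norm_nonneg (VV G x (m.Z t (z, e)).1)
      have b3 := mul_pos d0 g0
      refine ⟨b, d2, ?_⟩
      nlinarith [mul_le_mul_of_nonneg_right k2 (by linarith : 0 ≤ AA G x (m.Z t (z, e)).1)])
  simp only [hY.ok.zero, a3, inner_zero_left, neg_zero, zero_add, e3] at b1
  have b2 : ‖VV G x z' - VV G x' z'‖ ≤ dm * δ := av_sub ro c c' (y := z') (y' := z') hδ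
  rw [a4, sub_zero] at b2
  have b3 := (neg_le_abs _).trans (kB (VV G x z') ((hY.jac.norm L (z, e)).trans e1))
  exact le_of_mul_le_mul_left (a := (dm : ℝ)) (by linarith) d0

end ZN47

open ZN47

variable [Dim]

theorem sZN : SZN := by
  intro m₀ m lg dX T d ε u C C₀ Q hM hX hY hT e0 hε h hm
  have ro := hM.rot'
  obtain ⟨s, hs⟩ : ∃ s, s = (dm : ℝ) + d := ⟨_, rfl⟩
  rw [← hs] at hm ⊢
  have c := cont h hX.self s
  have n := fun x => h.nest x x (by simp [hX.self])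
  have s0 : 0 ≤ s := by linarith [(hT 0).d0, (by positivity : (0 : ℝ) ≤ dm)]
  have s1 : s ≤ 2 * dm := by linarith [(hT 0).d1]
  obtain ⟨N, hN⟩ : ∃ N : ℝ, N = 16 ^ dm := ⟨_, rfl⟩
  have N1 : 1 ≤ N := hN ▸ one_le_pow₀ (by norm_num)
  have r0 : R0 = 17 * N := by rw [hN, R0]
  rw [← hN] at hε
  obtain ⟨k, hk⟩ : ∃ k, k = 2 * s * ε := ⟨_, rfl⟩
  rw [← hk] at hm
  have k0 : 0 ≤ k := by rw [hk]; positivity
  have k1 : 4 * N * k ≤ 1 := by
    rw [hk]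
    nlinarith [mul_le_mul_of_nonneg_right s1 (mul_nonneg (by linarith : 0 ≤ N) e0)]
  have k2 : 4 * k ≤ 1 := by nlinarith
  have E3 : exp (s * log 2) ≤ N * exp (s * -log 2) := by
    have l : log (16 : ℝ) = 4 * log 2 := by
      rw [show (16 : ℝ) = 2 ^ 4 by norm_num, log_pow]; norm_num
    rw [hN, ← exp_log (by norm_num : (0 : ℝ) < 16), ← exp_nat_mul, ← exp_add, exp_le_exp, l]
    nlinarith [log_pos (by norm_num : (1 : ℝ) < 2)]
  have ex : ∀ x, ∃ z, z ∈ C₀ x ∧ VV (Gs s u) x z = 0 := fun x => by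
    obtain ⟨y, h1, h2⟩ := h.ctr x
    obtain ⟨z, k1, k2⟩ := ex ro hY hm (c x) (fun _ _ => (exp_pos _).le) k0 N1 k1 r0 (exp_pos _) E3
      (fun w hw => ⟨exp_le_exp.2 (mul_le_mul_of_nonneg_left (neg_le_of_abs_le (h1 w hw)) s0),
        exp_le_exp.2 (mul_le_mul_of_nonneg_left (le_of_abs_le (h1 w hw)) s0)⟩)
      fun z hz => n x (h2 z hz)
    exact ⟨z, h2 z k1, k2⟩
  choose f f1 f2 using ex
  have bd := h.bd
  generalize R0 + 2 = R at bd
  have st : ∀ x x' z z', z ∈ C x → z' ∈ C x → z' ∈ C x' → VV (Gs s u) x z = 0 →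
      VV (Gs s u) x' z' = 0 → ‖lg (z, z')‖ ≤ 2 * s * exp (s * R) * exp (s * R) * dX x x' := by
    intro x x' z z' a1 a2 a0 a3 a4
    have dn := hX.nonneg x x'
    have b4 := st (δ := exp (s * R) * (s * dX x x')) ro hY hm (c x) (c x') (exp_pos (s * -R)) k2
      (by positivity)
      (fun z hz w hw => exp_le_exp.2 (mul_le_mul_of_nonneg_left (neg_le_of_abs_le (bd x z w hz hw)) s0))
      (h.cvx x (z, lg (z, z')) a1 ((hY.had.ex z z').symm ▸ a2)) (fun w hw => by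
        refine (exp_sub (M := s * R)
          (mul_le_mul_of_nonneg_left (le_of_abs_le (bd x _ w a2 hw)) s0)
          (mul_le_mul_of_nonneg_left (le_of_abs_le (bd x' _ w a0 hw)) s0)).trans ?_
        rw [← mul_sub, abs_mul, abs_of_nonneg s0]
        exact mul_le_mul_of_nonneg_left (mul_le_mul_of_nonneg_left (h.lipx x x' z' w hw) s0)
          (exp_pos _).le) a3 a4
    have E1 : exp (s * -R) * exp (s * R) = 1 := by rw [← exp_add, ← exp_zero]; congr 1; ring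
    have b5 := mul_le_mul_of_nonneg_left b4 (exp_pos (s * R)).le
    have b6 : exp (s * R) * (exp (s * -R) / 2 * ‖lg (z, z')‖) = ‖lg (z, z')‖ / 2 := by
      linear_combination ‖lg (z, z')‖ / 2 * E1
    linarith
  refine ⟨f, f1, f2, fun x z a1 a2 => ?_, 2 * s * exp (s * R) * exp (s * R), by positivity,
    fun x x' k => st x x' _ _ (n x (f1 x)) (h.nest x x' k (f1 x')) (n x' (f1 x')) (f2 x) (f2 x')⟩
  have := st x x _ _ a1 (n x (f1 x)) (n x (f1 x)) a2 (f2 x)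
  rw [hX.self, mul_zero, norm_le_zero_iff, ← DNWI.lg_self hY.ok hY.jac hY.had z] at this
  rw [← hY.had.ex z (f x), this, hY.had.ex]

theorem sFLN : SFLN := by
  intro m₀ m lg dX G C C₀ f hX hY hf x
  obtain ⟨κ, κ0, hκ⟩ := hf.lip
  lift κ to NNReal using κ0
  have c2 : ContDiff ℝ 1 fun q : V × V => (m.Z 1 q).1 :=
    (hY.ok.cZ.comp (contDiff_const.prodMk contDiff_id)).fst
  have g0 : ∀ y, (m.Z 1 (y, 0)).1 = y := fun y => by
    rw [← DNWI.lg_self hY.ok hY.jac hY.had y, hY.had.ex]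
  have t0 : Tendsto (fun q : V × V => (1 + 1) * ‖m₀.S x (q.2 - q.1)‖) (𝓝 (x, x)) (𝓝 0) := by
    have : Continuous fun q : V × V => (1 + 1) * ‖m₀.S x (q.2 - q.1)‖ := by fun_prop
    simpa using this.tendsto (x, x)
  have k1 : ∀ᶠ q : V × V in 𝓝 (x, x),
      ‖lg (f q.1, f q.2)‖ ≤ κ * ((1 + 1) * ‖m₀.S x (q.2 - q.1)‖) := by
    filter_upwards [hX.upp x 1 one_pos, t0.eventually (ge_mem_nhds one_pos)] with q a1 a2
    exact (hκ _ _ (a1.trans a2)).trans (mul_le_mul_of_nonneg_left a1 κ.2)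
  have t1 : Tendsto (fun q : V × V => lg (f q.1, f q.2)) (𝓝 (x, x)) (𝓝 0) :=
    squeeze_zero_norm' k1 (by simpa using t0.const_mul (κ : ℝ))
  have t2 : Tendsto f (𝓝 x) (𝓝 (f x)) := by
    have := (c2.continuous.tendsto (f x, 0)).comp ((tendsto_const_nhds (x := f x)).prodMk_nhds
      (t1.comp ((tendsto_const_nhds (x := x)).prodMk_nhds tendsto_id)))
    simpa [Function.comp_def, hY.had.ex, g0] using this
  obtain ⟨K, s, hs, hK⟩ := (c2.contDiffAt (x := (f x, 0))).exists_lipschitzOnWith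
  have t3 : Tendsto (fun q : V × V => f q.1) (𝓝 (x, x)) (𝓝 (f x)) :=
    t2.comp (continuous_fst.tendsto (x, x))
  have k2 := (k1.and ((t3.prodMk_nhds t1).eventually hs)).and
    ((t3.prodMk_nhds (tendsto_const_nhds (x := (0 : V)))).eventually hs)
  rw [nhds_prod_eq] at k2
  obtain ⟨r, hr, k3⟩ := mem_prod_self_iff.1 k2
  refine ⟨K * (κ * (2 * ‖m₀.S x‖₊)), r, hr, LipschitzOnWith.of_dist_le_mul fun a ha b hb => ?_⟩
  obtain ⟨⟨a1, a2⟩, a3⟩ := k3 (mk_mem_prod ha hb)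
  have a4 := hK.dist_le_mul _ a3 _ a2
  simp only [g0, hY.had.ex, Prod.dist_eq, dist_self, dist_zero_left] at a4
  rw [max_eq_right (norm_nonneg _)] at a4
  refine a4.trans ?_
  simp only [NNReal.coe_mul, NNReal.coe_ofNat, coe_nnnorm]
  rw [mul_assoc (K : ℝ), dist_comm, dist_eq_norm]
  refine mul_le_mul_of_nonneg_left (a1.trans ?_) K.2
  rw [mul_assoc (κ : ℝ)]
  exact mul_le_mul_of_nonneg_left (by linarith [(m₀.S x).le_opNorm (b - a)]) κ.2

end Pool.Agent.MP_3ee8cb_gt.NS
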