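import Pool.Agent.MP_3ee8cb_gt.NS.Spec
import Pool.Agent.MP_3ee8cb_gt.DN.Top

/-! Rigidity of metrics near a rank one model from the blocks. -/

namespace Pool.Agent.MP_3ee8cb_gt.NS

open DN (Dim dm)

variable [Dim]

open Set Filter Topology MeasureTheory Real DN DZ
open CR (Met UT dd ng)
open scoped RealInnerProductSpace

theorem main1_of (jac : SJAC) (frm : SFRM) (had : SHAD) (act : SACT) (flp : SFLP) (ms : SMS)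
    (b1 : SB1) (bg : SBG) (xw : SXW) (asy : SASY) (bc : SBC) (exa : SEXA)
    (mov : SMOV) (lip : SLIP) (gr : SGR) (bf : SBF) (onto : SONTO) (veq : SVEQ)
    (area : SAREA) (vol : SVOL) (end2 : SEND2) (dn : SDN) (hn : SHN) (md : SMOD) (sup : SSUPN)
    (ibp : SIBP) (mon : SMON) (zero : SZN) (fl : SFLN) (ja : SJAN) (jb : SJBN) (end1 : SENDN)
    (eqv : SEQN) (nm : SNM) : ∃ δ, 0 < δ ∧ Main1 δ := by
  obtain ⟨k, k1, hn⟩ := hn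
  have n0 : (0 : ℝ) < dm := Nat.cast_pos.2 (Nat.succ_pos _)
  have p0 : (0 : ℝ) < 16 * dm * 16 ^ dm := by positivity
  have ε0 := inv_pos.2 p0
  have ε1 : 16 * dm * 16 ^ dm * (16 * dm * 16 ^ dm : ℝ)⁻¹ ≤ 1 := (mul_inv_cancel₀ p0.ne').le
  obtain ⟨lam, δ, l1, δ0, δ1, sup⟩ := sup md k _ k1 ε0
  refine ⟨δ, δ0, ?_⟩
  intro g h C C' Γ Λ _ _ _ _ Φ Ψ ρ F₀ qg qh cg ch dΓ dΛ cj₀ T₀ d kh
  have kh' : TB.CurvLe h 1 := ⟨C', ch, kh.le⟩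
  obtain ⟨m₀, o₀, l₀⟩ := frm g C Γ Φ qg cg
  obtain ⟨m, o, l⟩ := frm h C' Λ Ψ qh ch
  have j := jac m o
  obtain ⟨T, N⟩ := nm h C' Λ Ψ qh ch m T₀ d δ o j l δ0.le kh
  obtain ⟨O, aO⟩ := act h C' Λ Ψ qh ch m o l dΛ
  obtain ⟨lg, hl, hd⟩ := had h C' Λ Ψ qh ch m 1 o j l one_pos kh'
  obtain ⟨-, s, F, -, cj, fp⟩ := flp g h C C' Γ Λ Φ Ψ ρ F₀ qg qh cg ch dΓ dΛ cj₀ 1 one_pos kh'
  have cs : ∀ u v : V, 0 ≤ ‖u‖ ^ 2 * ‖v‖ ^ 2 - ⟪u, v⟫ ^ 2 := fun u v => by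
    have := real_inner_mul_inner_self_le u v
    rw [real_inner_self_eq_norm_sq, real_inner_self_eq_norm_sq] at this
    nlinarith
  have u0 : m.Up 0 := fun y u v =>
    le_trans (mul_le_mul_of_nonneg_right zero_le_one (cs u v)) (N.up y u v)
  have yw : YW m lg := ⟨o, j, hl, u0⟩
  have as := asy h C' Λ Ψ qh ch kh'
  obtain ⟨ν, hν⟩ := exa h C' Λ Ψ qh ch m lg kh' as yw l hd
  have nb : NB h C' Ψ m lg ν := ⟨kh', yw, l, hd, as, bc h C' Λ Ψ qh ch kh', fun w => (hν w).1,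
    fun w => b1 m lg _ _ yw (hν w).1, fun w => (hν w).2⟩
  have B := bf mov lip gr g h C C' Γ Λ Φ Ψ ρ F qg qh cg ch dΓ dΛ cj m lg ν nb fp
  have G := bg m lg _ _ _ B
  have X := xw g C Γ Φ qg cg m₀ o₀ l₀
  have S := sup m lg _ _ _ B G (dn m T d δ δ1 N) T
    fun p => hn m lg T d δ _ _ δ0.le δ1 yw N (B.isb p) (B.b1 p)
  obtain ⟨f, Z⟩ := zero m₀ m lg _ T d _ _ _ _ _ ms X yw N.alg ε0.le ε1 S
    (mon ibp m₀ m lg _ T d _ _ _ _ _ ms X yw N.alg ε0.le ε1 S)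
  have L := fl m₀ m lg _ _ _ _ f X yw Z
  have J := ja ibp m₀ m lg _ T d _ _ _ _ _ ms X yw N.alg ε0.le ε1 S f Z L
  have E := eqv g h C C' Γ Λ Φ Ψ ρ F qg qh cg ch dΓ dΛ cj m lg ν O _ _ _ _ f ms nb aO
    (by linarith) Z
  have Su := onto g h C C' Γ Λ Φ Ψ ρ F qg qh cg ch dΓ dΛ cj m lg ν f _ nb L.continuous
    fun p => G.near p _ _ (Z.mem _)
  have J' := J.mono fun x hx => jb _ d _ _ _ ms (N.alg _) ε0.le ε1 hx.2
  have W := vol veq area g h C C' Γ Λ Φ Ψ ρ F qg qh cg ch dΓ dΛ cj m₀ m f kh' o₀ o l₀ l L Su E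
    (J'.mono fun x hx => hx.1)
  refine end2 g h C C' Γ Λ Φ Ψ ρ F qg qh cg ch dΓ dΛ cj m₀ m lg ν f o₀ (jac m₀ o₀) l₀ nb
    L.continuous ?_
  filter_upwards [J, J', W] with x h1 h2 h3
  exact ⟨h1.1, end1 m lg _ _ _ B ms G lam x (f x) (by linarith) (h2.2 h3)⟩

end Pool.Agent.MP_3ee8cb_gt.NS
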