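import Pool.Agent.MP_3ee8cb_gt.DZ.All
import Pool.Agent.MP_3ee8cb_gt.NS.Top
import Pool.Agent.MP_3ee8cb_gt.NS.RDN
import Pool.Agent.MP_3ee8cb_gt.NS.RENDN
import Pool.Agent.MP_3ee8cb_gt.NS.REQN
import Pool.Agent.MP_3ee8cb_gt.NS.RHN
import Pool.Agent.MP_3ee8cb_gt.NS.RIBP
import Pool.Agent.MP_3ee8cb_gt.NS.RJAN
import Pool.Agent.MP_3ee8cb_gt.NS.RJBN
import Pool.Agent.MP_3ee8cb_gt.NS.RMOD
import Pool.Agent.MP_3ee8cb_gt.NS.RMON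
import Pool.Agent.MP_3ee8cb_gt.NS.RNM
import Pool.Agent.MP_3ee8cb_gt.NS.RSCN
import Pool.Agent.MP_3ee8cb_gt.NS.RSUPN
import Pool.Agent.MP_3ee8cb_gt.NS.RZN
import Pool.Agent.MP_3ee8cb_gt.NSL.Fin

/-! Rigidity of metrics near a rank one model among all metrics. -/

namespace Pool.Agent.MP_3ee8cb_gt.NS

open DN (Dim dm)

variable [Dim]

open DN DZ

theorem mainN : ∃ δ, 0 < δ ∧ MainN δ := by
  obtain ⟨δ, hδ, h⟩ := main1_of sJAC sFRM DNFL.had sACT DNFL.flp sMS sB1 sBG xw sASY sBC sEXA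
    sMOV sLIP sGR sBF sONTO RVOL.veq RVOL.area sVOL sEND2 sDN sHN sMOD sSUPN sIBP sMON sZN sFLN
    sJAN sJBN sENDN sEQN sNM
  exact ⟨δ, hδ, sSCN δ h⟩

end Pool.Agent.MP_3ee8cb_gt.NS
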