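import Pool.Agent.MP_3ee8cb_gt.NS.H20Spec

/-! The direction to a far point along a geodesic. -/

namespace Pool.Agent.MP_3ee8cb_gt.NS.H20

open DN (Dim dm)

variable [Dim]

open DN DZ DZH Set Real Filter Topology
open scoped RealInnerProductSpace

section alg

variable {T : T3} {d : ℝ}

theorem H0_perp (A : Alg T d) {v : V} (hv : ‖v‖ = 1) (a : V) : ⟪H0 T v a, v⟫ = 0 := by
  rw [H0, inner_add_left, A.perp, inner_sub_left, real_inner_smul_left,
    real_inner_self_eq_norm_sq, hv, real_inner_comm]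
  ring

theorem H0_sub (A : Alg T d) {n : V} (hn : ‖n‖ = 1) (a : V) (c : ℝ) :
    H0 T n (a - c • n) = H0 T n a := by
  have e : T (a - c • n) n n = T a n n := by
    rw [map_sub, map_smul, ContinuousLinearMap.sub_apply, ContinuousLinearMap.sub_apply,
      ContinuousLinearMap.smul_apply, ContinuousLinearMap.smul_apply, A.self, smul_zero, sub_zero]
  rw [H0, H0, e, inner_sub_right, real_inner_smul_right, real_inner_self_eq_norm_sq, hn]
  module

theorem H0_le (A : Alg T d) {n : V} (hn : ‖n‖ = 1) (a : V) : ‖H0 T n a‖ ≤ dm * ‖a‖ := by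
  have h1 := pp_le hn a
  have h2 := A.nrm a n
  have h3 := mul_le_mul_of_nonneg_right A.d1 (norm_nonneg a)
  rw [pp, real_inner_comm] at h1
  rw [hn] at h2
  refine (norm_add_le _ _).trans ?_
  linarith

theorem main_term (A : Alg T d) {n v j : V} (hn : ‖n‖ = 1) (hv : ‖v‖ = 1) (hj : ⟪j, v⟫ = 0) :
    |⟪H0 T n v, j⟫ + ⟪n, H0 T v j⟫| ≤ dm * ‖n - v‖ ^ 2 * ‖j‖ := by
  obtain ⟨x, rfl⟩ : ∃ x, n = v + x := ⟨n - v, by abel⟩
  have hj' : ⟪v, j⟫ = 0 := by rw [real_inner_comm, hj]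
  have e1 : ⟪T v (v + x) (v + x), j⟫ = ⟪T v x x, j⟫ - ⟪T j v v, x⟫ := by
    rw [map_add (T v), ContinuousLinearMap.add_apply, A.self, zero_add, map_add, inner_add_left,
      A.sk v x v, inner_neg_left, A.sym x j]
    ring
  have e2 : ⟪v + x, T j v v⟫ = ⟪T j v v, x⟫ := by
    rw [real_inner_comm, inner_add_right, A.perp, zero_add]
  have e3 : ‖x‖ ^ 2 = -2 * ⟪v, x⟫ := by
    have := norm_add_sq_real v x
    rw [hn, hv] at this
    linarith
  have e4 : ⟪H0 T (v + x) v, j⟫ + ⟪v + x, H0 T v j⟫ = ‖x‖ ^ 2 / 2 * ⟪x, j⟫ + ⟪T v x x, j⟫ := by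
    rw [H0, H0, inner_add_left, inner_add_right, e1, e2, hj', zero_smul, sub_zero, inner_sub_left,
      real_inner_smul_left, hj', inner_add_left v x j, inner_add_left v x v, hj',
      real_inner_self_eq_norm_sq, hv, e3, real_inner_comm v x]
    ring
  have x2 : ‖x‖ ≤ 2 := by
    have := norm_sub_le (v + x) v
    rw [add_sub_cancel_left, hn, hv] at this
    linarith
  have a1 := abs_real_inner_le_norm x j
  have a2 := abs_real_inner_le_norm (T v x x) j
  have a3 := A.nrm v x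
  rw [hv, mul_one] at a3
  have a4 := mul_le_mul_of_nonneg_right a3 (norm_nonneg j)
  have a5 := mul_le_mul_of_nonneg_right A.d1 (by positivity : 0 ≤ ‖x‖ ^ 2 * ‖j‖)
  have a6 := mul_le_mul_of_nonneg_right x2 (norm_nonneg j)
  rw [e4, add_sub_cancel_left]
  refine (abs_add_le _ _).trans ?_
  rw [abs_mul, abs_of_nonneg (by positivity : 0 ≤ ‖x‖ ^ 2 / 2)]
  nlinarith [mul_le_mul_of_nonneg_left (a1.trans a6) (by positivity : 0 ≤ ‖x‖ ^ 2 / 2)]

end alg

variable {m : MF} {lg : V × V → V}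

theorem dlg (h : YW m lg) (Q y : V) :
    HasFDerivAt (fun y => lg (y, Q)) (fderiv ℝ (fun y => lg (y, Q)) y) y :=
  ((h.had.c1.comp (f := fun y => (y, Q)) (by fun_prop)).differentiable one_ne_zero y).hasFDerivAt

theorem dl_der (h : YW m lg) (Q : V) (z : V × V) (t : ℝ) :
    HasDerivAt (fun s => lg ((m.Z s z).1, Q)) (DL m lg Q (m.Z t z).1 (m.Z t z).2 -
      m.w z t (lg ((m.Z t z).1, Q))) t :=
  ((dlg h Q _).comp_hasDerivAt t (DNTR.ode1 h.ok z t)).congr_deriv (by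
    simp [DL, MF.w])

theorem dl_rad (h : YW m lg) (Q y : V) : DL m lg Q y (lg (y, Q)) = -lg (y, Q) := by
  have h1 := dl_der h Q (y, lg (y, Q)) 0
  have h2 := ((hasDerivAt_id (0 : ℝ)).const_sub 1).smul (DNWI.vel_deriv h.ok (y, lg (y, Q)) 0)
  have e : (fun s => lg ((m.Z s (y, lg (y, Q))).1, Q)) =
      fun s => (1 - s) • (m.Z s (y, lg (y, Q))).2 := funext fun s => by
    rw [← DNWI.lg_geo h.ok h.jac h.had, h.had.ex]
  rw [e] at h1
  have h3 := h1.unique h2
  simp only [h.ok.zero, id, sub_zero, one_smul, neg_smul] at h3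
  rw [sub_eq_iff_eq_add] at h3
  rw [h3]
  abel

theorem dist_der (h : YW m lg) (Q : V) (z : V × V) (t : ℝ)
    (h0 : lg ((m.Z t z).1, Q) ≠ 0) : HasDerivAt (fun s => ‖lg ((m.Z s z).1, Q)‖)
      (-(⟪lg ((m.Z t z).1, Q), (m.Z t z).2⟫ / ‖lg ((m.Z t z).1, Q)‖)) t := by
  have d1 : Differentiable ℝ fun q => ‖lg q‖ ^ 2 / 2 :=
    ((h.had.c1.norm_sq ℝ).div_const (2 : ℝ)).differentiable one_ne_zero
  have d2 := (d1 ((m.Z t z).1, Q)).hasFDerivAt.comp_hasDerivAt t
    ((DNTR.ode1 h.ok z t).prodMk (hasDerivAt_const t Q))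
  rw [h.had.grad, h.ok.SR, map_zero, inner_zero_right, sub_zero] at d2
  have p := norm_pos_iff.2 h0
  have d3 := (d2.const_mul 2).sqrt (by simp only [Function.comp_apply]; positivity)
  have e : ∀ q : V × V, √(2 * (‖lg q‖ ^ 2 / 2)) = ‖lg q‖ := fun q => by
    rw [mul_div_cancel₀ _ two_ne_zero, sqrt_sq (norm_nonneg _)]
  simp only [Function.comp_apply, e] at d3
  exact d3.congr_deriv (by field_simp)

theorem un_der (h : YW m lg) (Q : V) (z : V × V) (t : ℝ) (h0 : lg ((m.Z t z).1, Q) ≠ 0) :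
    HasDerivAt (fun s => un (lg ((m.Z s z).1, Q)))
      (‖lg ((m.Z t z).1, Q)‖⁻¹ • DL m lg Q (m.Z t z).1
        (pp (un (lg ((m.Z t z).1, Q))) (m.Z t z).2) - m.w z t (un (lg ((m.Z t z).1, Q)))) t := by
  have p := norm_pos_iff.2 h0
  have d2 := ((dist_der h Q z t h0).inv p.ne').smul (dl_der h Q z t)
  refine d2.congr_deriv ?_
  have r := dl_rad h Q (m.Z t z).1
  simp only [pp, un, map_sub, map_smul, r, real_inner_smul_right, Pi.inv_apply]
  rw [real_inner_comm (lg ((m.Z t z).1, Q))]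
  match_scalars <;> field_simp

omit [Dim] in
theorem gr {N N' : ℝ → ℝ} {c : ℝ} (hd : ∀ s ∈ Icc (0 : ℝ) 1, HasDerivAt N (N' s) s) (hc : 0 ≤ c)
    (hN : 0 ≤ N 0) (hl : ∀ s ∈ Icc (0 : ℝ) 1, N' s ≤ c * N s) {t : ℝ} (ht : t ∈ Icc (0 : ℝ) 1) :
    N t ≤ exp c * N 0 := by
  have he : ∀ s, HasDerivAt (fun s => exp (-(c * s))) (exp (-(c * s)) * -c) s :=
    fun s => by simpa using ((hasDerivAt_id s).const_mul c).neg.exp
  have h1 := (convex_Icc (0 : ℝ) 1).image_sub_le_mul_sub_of_deriv_le (C := 0)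
    (f := fun s => N s * exp (-(c * s)))
    (fun s hs => ((hd s hs).mul (he s)).continuousAt.continuousWithinAt)
    (fun s hs => ((hd s (interior_subset hs)).mul (he s)).differentiableAt.differentiableWithinAt)
    (fun s hs => by
      have hs := interior_subset hs
      refine ((hd s hs).mul (he s)).deriv.trans_le ?_
      nlinarith [mul_le_mul_of_nonneg_right (hl s hs) (exp_pos (-(c * s))).le])
    0 (left_mem_Icc.2 zero_le_one) t ht ht.1
  simp only [mul_zero, neg_zero, exp_zero, mul_one, sub_zero, zero_mul] at h1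
  have e2 : exp (c * t) ≤ exp c := exp_le_exp.2 (by nlinarith [ht.2])
  have e3 : N t = exp (c * t) * (N t * exp (-(c * t))) := by
    rw [mul_left_comm, ← exp_add, add_neg_cancel, exp_zero, mul_one]
  rw [e3]
  exact (mul_le_mul_of_nonneg_left (by linarith) (exp_pos _).le).trans
    (mul_le_mul_of_nonneg_right e2 hN)

end Pool.Agent.MP_3ee8cb_gt.NS.H20
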