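import Pool.Agent.MP_3ee8cb_gt.NS.H20A

/-! The pairing of the direction with a Jacobi field. -/

namespace Pool.Agent.MP_3ee8cb_gt.NS.H20

open DN (Dim dm)

variable [Dim]

open DN DZ DZH Set Real Filter Topology
open scoped RealInnerProductSpace

variable {m : MF} {lg : V × V → V} {T : V → T3} {d : ℝ}

/-- A unit field along a geodesic that nearly solves the model equation. -/
def Fld (m : MF) (T : V → T3) (z : V × V) (κ : ℝ) (n : ℝ → V) : Prop :=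
  ∀ t ∈ Icc (0 : ℝ) 1, ‖n t‖ = 1 ∧ ∃ E : V, ‖E‖ ≤ κ * ‖n t - (m.Z t z).2‖ ∧
    HasDerivAt n (E - H0 (T (m.Z t z).1) (n t) (m.Z t z).2 - m.w z t (n t)) t

theorem fld_gr (h : YW m lg) (A : ∀ y, Alg (T y) d) {z : V × V} {κ K : ℝ} {n : ℝ → V}
    (κ0 : 0 ≤ κ) (hK : κ ≤ K) (f : Fld m T z κ n) {t : ℝ} (ht : t ∈ Icc (0 : ℝ) 1) :
    ‖n t - (m.Z t z).2‖ ≤ exp (dm + K) * ‖n 0 - z.2‖ := by
  choose! u E hE dE using f
  have d0 : (0 : ℝ) ≤ dm := Nat.cast_nonneg _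
  have b := gr (c := 2 * (dm + K)) (N := fun s => ‖n s - (m.Z s z).2‖ ^ 2)
    (fun s hs => cov_sq h.ok z (x := fun s => n s - (m.Z s z).2)
      (F := E s - H0 (T (m.Z s z).1) (n s) (m.Z s z).2)
      (((dE s hs).sub (DNWI.vel_deriv h.ok z s)).congr_deriv (by
        rw [map_sub]
        change _ - m.w z s (n s) - -m.w z s (m.Z s z).2 = _
        abel))) (by linarith) (sq_nonneg _) (fun s hs => by
      have a1 := real_inner_le_norm (n s - (m.Z s z).2)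
        (E s - H0 (T (m.Z s z).1) (n s) (m.Z s z).2)
      have a2 := norm_sub_le (E s) (H0 (T (m.Z s z).1) (n s) (m.Z s z).2)
      have a3 := H0_le (A (m.Z s z).1) (u s hs) ((m.Z s z).2 - (1 : ℝ) • n s)
      rw [H0_sub (A _) (u s hs), one_smul, norm_sub_rev] at a3
      have a4 := hE s hs
      have a5 := mul_le_mul_of_nonneg_right hK (norm_nonneg (n s - (m.Z s z).2))
      have a6 := mul_le_mul_of_nonneg_left (a2.trans (add_le_add (a4.trans a5) a3))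
        (norm_nonneg (n s - (m.Z s z).2))
      nlinarith) ht
  simp only [h.ok.zero] at b
  refine abs_le_of_sq_le_sq' (b.trans_eq ?_) (by positivity) |>.2
  rw [mul_pow, ← exp_nat_mul]
  norm_num

theorem fld_pair (h : YW m lg) (A : ∀ y, Alg (T y) d) {z ξ : V × V} (hz : ‖z.2‖ = 1)
    {κ S α β : ℝ} {n : ℝ → V} (κ0 : 0 ≤ κ) (f : Fld m T z κ n)
    (hS : ∀ t ∈ Icc (0 : ℝ) 1, ‖n t - (m.Z t z).2‖ ≤ S) (p : ⟪m.hor z ξ, z.2⟫ = 0)
    (p' : ⟪m.ver z ξ, z.2⟫ = 0) (hj : ∀ t ∈ Icc (0 : ℝ) 1, ‖m.J z ξ t‖ ≤ α ∧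
      ‖m.J' z ξ t + H0 (T (m.Z t z).1) (m.Z t z).2 (m.J z ξ t)‖ ≤ β) :
    |⟪n 1, m.J z ξ 1⟫ - ⟪n 0, m.hor z ξ⟫| ≤ dm * S ^ 2 * α + κ * S * α + S * β := by
  choose! u E hE dE using f
  have d0 : (0 : ℝ) ≤ dm := Nat.cast_nonneg _
  have b := (convex_Icc (0 : ℝ) 1).norm_image_sub_le_of_norm_hasDerivWithin_le
    (C := dm * S ^ 2 * α + κ * S * α + S * β)
    (fun s hs => (cov_inner h.ok z (dE s hs) (h.jac.d1 z ξ s)).hasDerivWithinAt) (fun s hs => by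
      have hv : ‖(m.Z s z).2‖ = 1 := by rw [h.jac.norm, hz]
      have pj : ⟪m.J z ξ s, (m.Z s z).2⟫ = 0 := by
        rw [DNWI.J_vel h.ok h.jac, p, p', mul_zero, add_zero]
      have py : ⟪(m.Z s z).2, m.J' z ξ s + H0 (T (m.Z s z).1) (m.Z s z).2 (m.J z ξ s)⟫ = 0 := by
        rw [real_inner_comm, inner_add_left, DNWI.J'_vel h.ok h.jac, p', H0_perp (A _) hv,
          add_zero]
      have a1 := main_term (A (m.Z s z).1) (u s hs) hv pj
      have a2 := abs_real_inner_le_norm (E s) (m.J z ξ s)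
      have a3 := abs_real_inner_le_norm (n s - (m.Z s z).2)
        (m.J' z ξ s + H0 (T (m.Z s z).1) (m.Z s z).2 (m.J z ξ s))
      rw [inner_sub_left, py, sub_zero, inner_add_right] at a3
      have s1 := hS s hs
      have s0 := norm_nonneg (n s - (m.Z s z).2)
      have b1 := mul_le_mul (mul_le_mul_of_nonneg_left (pow_le_pow_left₀ s0 s1 2) d0) (hj s hs).1
        (norm_nonneg _) (by positivity)
      have b2 := mul_le_mul ((hE s hs).trans (mul_le_mul_of_nonneg_left s1 κ0)) (hj s hs).1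
        (norm_nonneg _) (mul_nonneg κ0 (s0.trans s1))
      have b3 := mul_le_mul s1 (hj s hs).2 (norm_nonneg _) (s0.trans s1)
      rw [norm_eq_abs, inner_sub_left, abs_le]
      have c1 := abs_le.1 (a1.trans b1)
      have c2 := abs_le.1 (a2.trans b2)
      have c3 := abs_le.1 (a3.trans b3)
      constructor <;> linarith [c1.1, c1.2, c2.1, c2.2, c3.1, c3.2])
    (left_mem_Icc.2 zero_le_one) (right_mem_Icc.2 zero_le_one)
  rw [DNWI.J_zero h.ok, sub_zero, norm_one, mul_one, norm_eq_abs] at b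
  exact b

theorem un_unit {a : V} (ha : a ≠ 0) : ‖un a‖ = 1 := norm_smul_inv_norm ha

theorem fld_far (h : YW m lg) (A : ∀ y, Alg (T y) d) {z : V × V} (hz : ‖z.2‖ = 1) {κ L : ℝ}
    (κ0 : 0 ≤ κ) (hB : ∀ Q y e : V, L ≤ ‖lg (y, Q)‖ → ⟪e, lg (y, Q)⟫ = 0 →
      ‖‖lg (y, Q)‖⁻¹ • DL m lg Q y e + H0 (T y) (un (lg (y, Q))) e‖ ≤ κ * ‖e‖) {Q : V}
    (hQ : max L 1 + 1 ≤ ‖lg (z.1, Q)‖) : Fld m T z κ fun s => un (lg ((m.Z s z).1, Q)) := by
  intro t ht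
  have a1 := h.had.tri z.1 (m.Z t z).1 Q
  rw [DNWI.lg_ray h.jac h.had, norm_smul, hz, mul_one, norm_eq_abs, abs_of_nonneg ht.1] at a1
  have a2 : max L 1 ≤ ‖lg ((m.Z t z).1, Q)‖ := by linarith [ht.2]
  have h0 : lg ((m.Z t z).1, Q) ≠ 0 :=
    norm_pos_iff.1 (one_pos.trans_le ((le_max_right _ _).trans a2))
  have u := un_unit h0
  have p : ⟪pp (un (lg ((m.Z t z).1, Q))) (m.Z t z).2, lg ((m.Z t z).1, Q)⟫ = 0 := by
    have := pp_perp u (m.Z t z).2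
    nth_rewrite 2 [un] at this
    rw [real_inner_smul_right] at this
    exact (mul_eq_zero.1 this).resolve_left (inv_ne_zero (norm_ne_zero_iff.2 h0))
  have b := hB Q _ _ ((le_max_left _ _).trans a2) p
  refine ⟨u, _, b.trans (mul_le_mul_of_nonneg_left ?_ κ0), (un_der h Q z t h0).congr_deriv ?_⟩
  · have e : pp (un (lg ((m.Z t z).1, Q))) (m.Z t z).2 =
        pp (un (lg ((m.Z t z).1, Q))) ((m.Z t z).2 - un (lg ((m.Z t z).1, Q))) := by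
      rw [pp, pp, inner_sub_left, real_inner_self_eq_norm_sq, u]
      module
    rw [e, norm_sub_rev]
    exact pp_le u _
  · nth_rewrite 3 [pp]
    rw [H0_sub (A _) u, add_sub_cancel_right]

variable {b : V → ℝ} {ν : V → V}

theorem far_lim (h : YW m lg) (A : ∀ y, Alg (T y) d) (i : IsB m lg b ν) (B : B1 m lg b ν)
    {z : V × V} (hz : ‖z.2‖ = 1) {κ K L : ℝ} (κ0 : 0 ≤ κ) (hK : κ ≤ K)
    (hB : ∀ Q y e : V, L ≤ ‖lg (y, Q)‖ → ⟪e, lg (y, Q)⟫ = 0 →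
      ‖‖lg (y, Q)‖⁻¹ • DL m lg Q y e + H0 (T y) (un (lg (y, Q))) e‖ ≤ κ * ‖e‖) :
    ‖ν (m.Z 1 z).1 - (m.Z 1 z).2‖ ≤ exp (dm + K) * ‖ν z.1 - z.2‖ ∧
    ∀ (ξ : V × V) (α β : ℝ), ⟪m.hor z ξ, z.2⟫ = 0 → ⟪m.ver z ξ, z.2⟫ = 0 →
      (∀ t ∈ Icc (0 : ℝ) 1, ‖m.J z ξ t‖ ≤ α ∧
        ‖m.J' z ξ t + H0 (T (m.Z t z).1) (m.Z t z).2 (m.J z ξ t)‖ ≤ β) →
      |⟪ν (m.Z 1 z).1, m.J z ξ 1⟫ - ⟪ν z.1, m.hor z ξ⟫| ≤
        dm * (exp (dm + K) * ‖ν z.1 - z.2‖) ^ 2 * α + κ * (exp (dm + K) * ‖ν z.1 - z.2‖) * α +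
          (exp (dm + K) * ‖ν z.1 - z.2‖) * β := by
  have l1 := B.dir z.1 (m.Z 1 z).1
  have ev : ∀ᶠ r : ℝ in atTop,
      (Fld m T z κ fun s => un (lg ((m.Z s z).1, (m.Z r (z.1, ν z.1)).1))) ∧
        un (lg ((m.Z 0 z).1, (m.Z r (z.1, ν z.1)).1)) = ν z.1 := by
    filter_upwards [eventually_ge_atTop (max L 1 + 1)] with r hr
    have r0 : 0 < r := by linarith [le_max_right L 1]
    have e := DNWI.lg_ray h.jac h.had r (z.1, ν z.1)
    have e' : ‖lg (z.1, (m.Z r (z.1, ν z.1)).1)‖ = r := by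
      rw [e, norm_smul, i.unit, mul_one, norm_eq_abs, abs_of_pos r0]
    refine ⟨fld_far h A hz κ0 hB (hr.trans e'.ge), ?_⟩
    rw [h.ok.zero, un, e', e, smul_smul, inv_mul_cancel₀ r0.ne', one_smul]
  refine ⟨le_of_tendsto (l1.sub_const _).norm ?_, fun ξ α β p p' hj =>
    le_of_tendsto ((l1.inner tendsto_const_nhds).sub_const _).abs ?_⟩
  · filter_upwards [ev] with r hr
    have := fld_gr h A κ0 hK hr.1 (right_mem_Icc.2 zero_le_one)
    simp only [hr.2] at this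
    exact this
  · filter_upwards [ev] with r hr
    have := fld_pair h A hz κ0 hr.1 (fun t ht => fld_gr h A κ0 hK hr.1 ht) p p' hj
    simp only [hr.2] at this
    exact this

theorem two_pt (h : YW m lg) (i : IsB m lg b ν) {z : V × V} (hz : ‖z.2‖ = 1) :
    exp 1 * (exp (b z.1) * (1 - ⟪ν z.1, z.2⟫)) ≤
      exp (b (m.Z 1 z).1) * (1 - ⟪ν (m.Z 1 z).1, (m.Z 1 z).2⟫) := by
  have a1 := i.lb z.1 z.2 1 hz
  have a2 := i.lb (m.Z 1 z).1 (m.Z 1 z).2 (-1) (by rw [h.jac.norm, hz])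
  have e : m.Z (-1) ((m.Z 1 z).1, (m.Z 1 z).2) = z := by
    rw [Prod.mk.eta, ← h.ok.add, neg_add_cancel, h.ok.zero]
  rw [e, cosh_neg, sinh_neg] at a2
  have s : 0 < sinh 1 := sinh_pos_iff.2 one_pos
  have c1 := cosh_add_sinh 1
  have c3 := cosh_sq 1
  rw [← c1]
  refine le_of_mul_le_mul_left ?_ s
  have := mul_le_mul_of_nonneg_left a1 (by positivity : 0 ≤ cosh 1 + sinh 1)
  have e2 : exp (b z.1) * (cosh 1 ^ 2 - sinh 1 ^ 2 - 1) = 0 := by rw [c3]; ring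
  nlinarith

end Pool.Agent.MP_3ee8cb_gt.NS.H20
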