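import Pool.Agent.MP_3ee8cb_gt.NS.H20B

/-! The derivative of the penalised function, from the two Jacobi statements. -/

namespace Pool.Agent.MP_3ee8cb_gt.NS.H20

open DN (Dim dm)

variable [Dim]

open DN DZ DZH Set Real Filter Topology
open scoped RealInnerProductSpace

/-- The model Hessian as an operator. -/
noncomputable def HL (T : T3) (w : V) : V →L[ℝ] V :=
  ContinuousLinearMap.id ℝ V - (innerSL ℝ w).smulRight w + Pw T w

theorem HL_app (T : T3) (w a : V) : HL T w a = H0 T w a := rfl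

/-- The lift to the model stable space. -/
noncomputable def lh (m : MF) (T : T3) (z w : V) : V →L[ℝ] V × V :=
  (m.R z).prod (-((m.om z).flip w).comp (m.R z) - HL T w)

theorem sub_sq {a w : V} (ha : ‖a‖ = 1) (hw : ‖w‖ = 1) : ‖a - w‖ ^ 2 = 2 * (1 - ⟪a, w⟫) := by
  rw [norm_sub_sq_real, ha, hw]
  ring

theorem sHN_of (JA : JacA) (JB : JacB) : SHN := by
  obtain ⟨a, a1, JA⟩ := JA
  obtain ⟨c, c1, JB⟩ := JB
  obtain ⟨E, hE⟩ : ∃ E, E = exp (dm + (c + 1)) := ⟨_, rfl⟩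
  have d0 : (0 : ℝ) ≤ dm := Nat.cast_nonneg _
  have E1 : 1 ≤ E := hE ▸ one_le_exp (by linarith)
  have p1 : 0 ≤ dm * E ^ 2 * a := by positivity
  have p2 : 0 ≤ (c + 1) * E * a := by positivity
  have p3 : 1 ≤ E ^ 2 := one_le_pow₀ E1
  refine ⟨E ^ 2 + dm * E ^ 2 * a + (c + 1) * E * a, by linarith,
    fun m lg T d δ b ν δ0 δ1 h N i B lam z w l1 hw hb => ?_⟩
  have A := N.alg
  have hz : ‖((z, w) : V × V).2‖ = 1 := hw
  have D1 : HasFDerivAt (fun q : V × V => b q.1) _ (z, w) :=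
    (B.der z).comp (z, w) hasFDerivAt_fst
  have D2 := (B.der _).comp (z, w) (DNTR.dZ h.ok 1 (z, w)).fst
  have hD := ((D1.const_mul (1 + lam)).sub_const lam).sub (D2.const_mul lam)
  obtain ⟨D, hD, eD⟩ : ∃ D : V × V →L[ℝ] ℝ, HasFDerivAt (ph m lam b) D (z, w) ∧ ∀ ξ, D ξ =
      lam * ⟪ν (m.Z 1 (z, w)).1, m.J (z, w) ξ 1⟫ - (1 + lam) * ⟪ν z, m.hor (z, w) ξ⟫ :=
    ⟨_, hD, fun ξ => by
      simp [MF.J, MF.hor]
      ring⟩
  have e1 : ∀ x, m.hor (z, w) (lh m (T z) z w x) = x := fun x => h.ok.SR z x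
  have e2 : ∀ x, m.ver (z, w) (lh m (T z) z w x) = -H0 (T z) w x := fun x => by
    simp [MF.ver, lh, HL_app]
    abel
  have e3 : m.J (z, w) (lh m (T z) z w w) 1 = (m.Z 1 (z, w)).2 := by
    have e : lh m (T z) z w w = m.vf (z, w) := by
      have := H0_sub (A z) hw w 1
      rw [one_smul, sub_self, ← HL_app, map_zero] at this
      refine Prod.ext rfl ?_
      change -m.om z (m.R z w) w - H0 (T z) w w = -m.om z (m.R z w) w
      rw [← this, sub_zero]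
    rw [e, MF.J, DNJC.dZ_vf h.ok]
    exact h.ok.SR _ _
  obtain ⟨k, hk⟩ : ∃ k : V, ∀ x, ⟪k, x⟫ = -D (lh m (T z) z w x) :=
    ⟨(InnerProductSpace.toDual ℝ V).symm (-D.comp (lh m (T z) z w)),
      fun x => by rw [InnerProductSpace.toDual_symm_apply]; rfl⟩
  have p := pp_perp hw k
  have ek : ⟪k, w⟫ = (1 + lam) * ⟪ν z, w⟫ - lam * ⟪ν (m.Z 1 (z, w)).1, (m.Z 1 (z, w)).2⟫ := by
    rw [hk, eD, e1, e3, neg_sub]
  have s0 := sub_sq (i.unit z) hw
  have s1 := sub_sq (i.unit (m.Z 1 (z, w)).1) (w := (m.Z 1 (z, w)).2) (by rw [h.jac.norm, hw])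
  choose L hL using JB m lg T d δ δ0 δ1 h N
  have F := fun (η : ℝ) (η0 : 0 < η) (η1 : η ≤ 1) => far_lim h A i B hz (K := c + 1)
    (by positivity) (by nlinarith [mul_le_mul_of_nonneg_left δ1 (by linarith : 0 ≤ c)]) (hL η η0)
  rw [← hE] at F
  obtain ⟨σ, hσ⟩ : ∃ σ, σ = ‖ν z - w‖ := ⟨_, rfl⟩
  have σ0 : 0 ≤ σ := hσ ▸ norm_nonneg _
  refine ⟨D, ⟪k, w⟫, pp w k, hD, p, fun ξ hξ => ?_, ?_, ?_, ?_⟩
  · have e : ξ = lh m (T z) z w (m.hor (z, w) ξ) := by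
      have e1 : m.R z (m.hor (z, w) ξ) = ξ.1 := h.ok.RS z ξ.1
      refine Prod.ext e1.symm ?_
      change ξ.2 = -m.om z (m.R z (m.hor (z, w) ξ)) w - H0 (T z) w (m.hor (z, w) ξ)
      rw [e1, sub_eq_add_neg, ← hξ]
      change ξ.2 = -m.om z ξ.1 w + (ξ.2 + m.om z ξ.1 w)
      abel
    rw [pp, add_sub_cancel, hk, neg_neg, ← e]
  · have t := two_pt h i hz
    have t1 : 0 ≤ 1 - ⟪ν (m.Z 1 (z, w)).1, (m.Z 1 (z, w)).2⟫ := by
      nlinarith [sq_nonneg ‖ν (m.Z 1 (z, w)).1 - (m.Z 1 (z, w)).2‖]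
    have t0 : 0 ≤ 1 - ⟪ν z, w⟫ := by nlinarith [sq_nonneg ‖ν z - w‖]
    have t2 := t.trans (mul_le_mul_of_nonneg_right (exp_le_exp.2 hb) t1)
    rw [mul_left_comm] at t2
    have t3 := le_of_mul_le_mul_left t2 (exp_pos _)
    have t4 := mul_le_mul_of_nonneg_right exp_one_gt_d9.le t0
    have t5 := mul_le_mul_of_nonneg_left (t4.trans t3) (by linarith : 0 ≤ lam)
    have t6 := mul_le_mul_of_nonneg_right l1 t0
    rw [ek, s0]
    nlinarith
  · have t := pow_le_pow_left₀ (norm_nonneg _) (F 1 one_pos le_rfl).1 2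
    have t0 : 0 ≤ 1 - ⟪ν z, w⟫ := by nlinarith [sq_nonneg ‖ν z - w‖]
    rw [s1, mul_pow] at t
    have t1 := mul_le_mul_of_nonneg_left t (by linarith : 0 ≤ lam)
    have t2 : 0 ≤ lam * ‖ν z - w‖ ^ 2 := by positivity
    rw [ek]
    nlinarith [mul_nonneg p1 t2, mul_nonneg p2 t2, mul_nonneg (by linarith : 0 ≤ E ^ 2) t2,
      mul_nonneg (by linarith : 0 ≤ lam) t0]
  · rw [← hσ]
    obtain ⟨ζ, hζ⟩ : ∃ ζ, ζ = pp w k := ⟨_, rfl⟩
    rw [← hζ] at p ⊢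
    have q : ‖ζ‖ ^ 2 = ⟪k, ζ⟫ := by rw [← pp_inner p, ← hζ, real_inner_self_eq_norm_sq]
    have q1 : ⟪m.hor (z, w) (lh m (T z) z w ζ), w⟫ = 0 := by rw [e1, p]
    have q2 : ⟪m.ver (z, w) (lh m (T z) z w ζ), w⟫ = 0 := by
      rw [e2, inner_neg_left, H0_perp (A z) hw, neg_zero]
    have j := JA m lg T d δ δ0 δ1 h N (z, w) _ hz q1 (by rw [e2, e1])
    have b0 : |⟪ν (m.Z 1 (z, w)).1, m.J (z, w) (lh m (T z) z w ζ) 1⟫ - ⟪ν z, ζ⟫| ≤
        dm * (E * σ) ^ 2 * (a * ‖ζ‖) + c * δ * (E * σ) * (a * ‖ζ‖) + E * σ * (a * δ * ‖ζ‖) := by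
      refine le_of_forall_pos_le_add fun ε ε0 => ?_
      obtain ⟨M, hM⟩ : ∃ M, M = E * σ * (a * ‖ζ‖) := ⟨_, rfl⟩
      have M0 : 0 ≤ M := by rw [hM]; positivity
      have := (F (min 1 (ε / (M + 1))) (by positivity) (min_le_left _ _)).2 _ _ _ q1 q2 j
      simp only [e1, ← hσ] at this
      have r1 := mul_le_mul_of_nonneg_right (min_le_right 1 (ε / (M + 1))) M0
      have r2 : ε / (M + 1) * M ≤ ε := by
        rw [div_mul_eq_mul_div, div_le_iff₀ (by linarith)]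
        nlinarith
      refine this.trans ?_
      have r3 := r1.trans r2
      generalize min 1 (ε / (M + 1)) = r at r3 ⊢
      rw [hM] at r3
      linarith
    have b1 : ⟪ν z, ζ⟫ ≤ σ * ‖ζ‖ := by
      have := real_inner_le_norm (ν z - w) ζ
      rwa [inner_sub_left, real_inner_comm ζ w, p, sub_zero, ← hσ] at this
    rw [hk, eD, e1] at q
    have b2 := mul_le_mul_of_nonneg_left (abs_le.1 b0).1 (by linarith : 0 ≤ lam)
    rcases (norm_nonneg ζ).eq_or_lt with h0 | h0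
    · rw [← h0]
      positivity
    refine le_of_mul_le_mul_right ?_ h0
    have u1 : 0 ≤ lam * σ * ‖ζ‖ * δ := by positivity
    have u2 : 0 ≤ lam * σ * ‖ζ‖ * σ := by positivity
    nlinarith [mul_nonneg p1 u1, mul_nonneg p2 u2, mul_nonneg (sq_nonneg E) u1,
      mul_nonneg (sq_nonneg E) u2]

end Pool.Agent.MP_3ee8cb_gt.NS.H20
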