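import Pool.Agent.MP_3ee8cb_gt.NS.RDN
import Pool.Agent.MP_3ee8cb_gt.DZH.Fin

/-! Two statements on Jacobi fields near the model. -/

namespace Pool.Agent.MP_3ee8cb_gt.NS

open DN (Dim dm)

variable [Dim]

open DN DZ Set
open scoped RealInnerProductSpace

/-- A Jacobi field that starts in the model stable space stays close to it. -/
def JacA : Prop := ∃ k : ℝ, 1 ≤ k ∧ ∀ (m : MF) lg T (d δ : ℝ), 0 ≤ δ → δ ≤ 1 → YW m lg →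
  NM m T d δ → ∀ z ξ : V × V, ‖z.2‖ = 1 → ⟪m.hor z ξ, z.2⟫ = 0 →
    m.ver z ξ = -H0 (T z.1) z.2 (m.hor z ξ) → ∀ t ∈ Icc (0 : ℝ) 1,
      ‖m.J z ξ t‖ ≤ k * ‖m.hor z ξ‖ ∧
      ‖m.J' z ξ t + H0 (T (m.Z t z).1) (m.Z t z).2 (m.J z ξ t)‖ ≤ k * δ * ‖m.hor z ξ‖

/-- The Hessian of the distance to a far point is close to the model. -/
def JacB : Prop := ∃ k : ℝ, 1 ≤ k ∧ ∀ (m : MF) lg T (d δ : ℝ), 0 ≤ δ → δ ≤ 1 → YW m lg →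
  NM m T d δ → ∀ η : ℝ, 0 < η → ∃ L₀ : ℝ, ∀ Q y e : V, L₀ ≤ ‖lg (y, Q)‖ →
    ⟪e, lg (y, Q)⟫ = 0 →
      ‖‖lg (y, Q)‖⁻¹ • DZH.DL m lg Q y e + H0 (T y) (un (lg (y, Q))) e‖ ≤ (k * δ + η) * ‖e‖

end Pool.Agent.MP_3ee8cb_gt.NS
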