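import Pool.Agent.MP_3ee8cb_gt.DZJ.Dom

/-! Differentiation of spherical means along a curve of rotations. -/

namespace Pool.Agent.MP_3ee8cb_gt.NS.Monx

open Set MeasureTheory Filter Topology Metric
open scoped RealInnerProductSpace

/-- A smooth function of a locally Lipschitz function is locally Lipschitz. -/
theorem lip_out {X Y : Type} [NormedAddCommGroup X] [NormedSpace ℝ X] [NormedAddCommGroup Y]
    [NormedSpace ℝ Y] {s : Set X} {h : X → Y} {H : Y × X → ℝ} (hs : IsOpen s)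
    (hh : LocallyLipschitzOn s h) (hH : ∀ q : Y × X, q.2 ∈ s → ContDiffAt ℝ 1 H q) :
    LocallyLipschitzOn s fun q => H (h q, q) := fun x hx => by
  obtain ⟨K1, t1, n1, h1⟩ := hh hx
  obtain ⟨K2, t2, n2, h2⟩ := (hH (h x, x) hx).exists_lipschitzOnWith
  have c : ContinuousAt (fun q => (h q, q)) x :=
    (hh.continuousOn.continuousAt (hs.mem_nhds hx)).prodMk continuousAt_id
  refine ⟨_, t1 ∩ (fun q => (h q, q)) ⁻¹' t2, inter_mem n1 (nhdsWithin_le_nhds (c n2)),
    h2.comp ((h1.prodMk LipschitzWith.id.lipschitzOnWith).mono inter_subset_left) fun q hq => hq.2⟩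

variable {W : Type} [NormedAddCommGroup W] [InnerProductSpace ℝ W] [FiniteDimensional ℝ W]
  [MeasurableSpace W] [BorelSpace W] {f : ℝ × W → ℝ} {μ : Measure W} [IsFiniteMeasure μ]

omit [MeasurableSpace W] [BorelSpace W] in
theorem cpt : IsCompact {w : W | 1 ≤ ‖w‖ ∧ ‖w‖ ≤ 2} := by
  have : ProperSpace W := FiniteDimensional.proper_real W
  exact (isCompact_closedBall (0 : W) 2).of_isClosed_subset
    ((isClosed_le continuous_const continuous_norm).inter
      (isClosed_le continuous_norm continuous_const)) fun _ h => mem_closedBall_zero_iff.2 h.2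

omit [InnerProductSpace ℝ W] [FiniteDimensional ℝ W] [MeasurableSpace W] [BorelSpace W] in
theorem ne0 {w : W} (h : 1 ≤ ‖w‖ ∧ ‖w‖ ≤ 2) : w ≠ 0 := norm_pos_iff.1 (one_pos.trans_le h.1)

theorem int (hf : LocallyLipschitzOn {q | q.2 ≠ 0} f) (hμ : ∀ᵐ w ∂μ, 1 ≤ ‖w‖ ∧ ‖w‖ ≤ 2)
    (x : ℝ) (O : W ≃ₗᵢ[ℝ] W) : Integrable (fun w => f (x, O w)) μ := by
  rw [← Measure.restrict_eq_self_of_ae_mem (s := {w : W | 1 ≤ ‖w‖ ∧ ‖w‖ ≤ 2}) hμ]
  exact (hf.continuousOn.comp (continuous_const.prodMk O.continuous).continuousOn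
    fun w hw => by simpa using ne0 hw).integrableOn_compact cpt

theorem lip_int (hf : LocallyLipschitzOn {q | q.2 ≠ 0} f) (hμ : ∀ᵐ w ∂μ, 1 ≤ ‖w‖ ∧ ‖w‖ ≤ 2)
    (L : ℝ) : ∃ K, LipschitzOnWith K (fun s => ∫ w, f (s, w) ∂μ) (Icc 0 L) := by
  obtain ⟨K, hK⟩ := (hf.mono (s := Icc 0 L ×ˢ {w : W | 1 ≤ ‖w‖ ∧ ‖w‖ ≤ 2}) fun q hq => ne0 hq.2
    ).exists_lipschitzOnWith_of_compact (isCompact_Icc.prod cpt)
  have it : ∀ s, Integrable (fun w => f (s, w)) μ := fun s => int hf hμ s (.refl _ _)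
  refine ⟨K * (μ.real univ).toNNReal, LipschitzOnWith.of_dist_le_mul fun s hs r hr => ?_⟩
  rw [dist_eq_norm, ← integral_sub (it s) (it r)]
  refine (norm_integral_le_of_norm_le_const (C := K * dist s r) (hμ.mono fun w hw => ?_)).trans
    (le_of_eq (by rw [NNReal.coe_mul, Real.coe_toNNReal _ measureReal_nonneg]; ring))
  have := hK.dist_le_mul (s, w) ⟨hs, hw⟩ (r, w) ⟨hr, hw⟩
  rwa [dist_prod_same_right, dist_eq_norm] at this

theorem dom (hf : LocallyLipschitzOn {q | q.2 ≠ 0} f) (x : ℝ)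
    (hμ : ∀ᵐ w ∂μ, 1 ≤ ‖w‖ ∧ ‖w‖ ≤ 2) {O : ℝ → W ≃ₗᵢ[ℝ] W} {A : W →L[ℝ] W}
    (h0 : ∀ a, O 0 a = a) (hO : ∀ a, HasDerivAt (fun s => O s a) (A a) 0) {h : W → ℝ}
    (hm : Measurable h) (hb : ∀ᵐ w ∂μ, ‖h w‖ ≤ 1) (hd : ∀ᵐ w ∂μ, DifferentiableAt ℝ f (x, w)) :
    Integrable (fun w => fderiv ℝ f (x, w) (1, A w) * h w) μ ∧
      HasDerivAt (fun s => ∫ w, f (x + s, O s w) * h w ∂μ)
        (∫ w, fderiv ℝ f (x, w) (1, A w) * h w ∂μ) 0 := by
  have : ProperSpace W := FiniteDimensional.proper_real W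
  set S : Set W := {w : W | 1 ≤ ‖w‖ ∧ ‖w‖ ≤ 2} with hS
  have OS : ∀ s, ∀ w ∈ S, O s w ∈ S := fun s w hw => by simpa [hS] using hw
  obtain ⟨K, hK⟩ := (hf.mono (s := closedBall x 1 ×ˢ S) fun q hq => ne0 hq.2
    ).exists_lipschitzOnWith_of_compact ((isCompact_closedBall _ _).prod cpt)
  obtain ⟨C, C0, hC⟩ := DZJ.rot_bd h0 hO
  have it : ∀ s : ℝ, Integrable (fun w => f (x + s, O s w) * h w) μ := fun s =>
    (int hf hμ _ _).mul_bdd hm.aestronglyMeasurable hb
  have md : Measurable fun w => fderiv ℝ f (x, w) (1, A w) :=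
    isBoundedBilinearMap_apply.continuous.measurable.comp
      (((measurable_fderiv ℝ f).comp measurable_prodMk_left).prodMk
        (measurable_const.prodMk A.continuous.measurable))
  have mD : AEStronglyMeasurable (fun w => fderiv ℝ f (x, w) (1, A w) * h w) μ :=
    (md.mul hm).aestronglyMeasurable
  set L : ℝ →L[ℝ] ℝ →L[ℝ] ℝ := ContinuousLinearMap.smulRightL ℝ ℝ ℝ 1
  have key := hasFDerivAt_integral_of_dominated_loc_of_lip' (𝕜 := ℝ) (μ := μ) (x₀ := (0 : ℝ))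
    (F := fun s w => f (x + s, O s w) * h w)
    (F' := fun w => L (fderiv ℝ f (x, w) (1, A w) * h w))
    (bound := fun _ => K * (1 + C * 2)) (inter_mem hC (closedBall_mem_nhds 0 one_pos))
    (fun s _ => (it s).1) (it 0) (L.continuous.comp_aestronglyMeasurable mD)
    ((hμ.and hb).mono fun w ⟨hw, hw'⟩ s hs => by
      have s1 : |s| ≤ 1 := by simpa using hs.2
      have m1 : ∀ r : ℝ, |r| ≤ 1 → (x + r, O r w) ∈ closedBall x 1 ×ˢ S := fun r hr =>
        ⟨by rwa [mem_closedBall, dist_eq_norm, add_sub_cancel_left], OS r w hw⟩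
      have h1 := hK.norm_sub_le (m1 s s1) (m1 0 (by simp))
      rw [← sub_mul, norm_mul, sub_zero, mul_assoc]
      refine (mul_le_of_le_one_right (norm_nonneg _) hw').trans
        (h1.trans (mul_le_mul_of_nonneg_left ?_ K.2))
      have h2 := hs.1 w
      have h3 := mul_le_mul_of_nonneg_left hw.2 (mul_nonneg C0 (abs_nonneg s))
      have h4 := abs_nonneg s
      have h5 := mul_nonneg C0 (abs_nonneg s)
      rw [Prod.mk_sub_mk, Prod.norm_mk, h0, add_zero, add_sub_cancel_left, Real.norm_eq_abs]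
      exact max_le (by nlinarith) (by nlinarith))
    (integrable_const _) (hd.mono fun w hw => by
      have h1 : HasFDerivAt f (fderiv ℝ f (x, w)) (x + 0, O 0 w) := by
        rw [add_zero, h0]
        exact hw.hasFDerivAt
      exact ((h1.comp_hasDerivAt (0 : ℝ) (((hasDerivAt_id (0 : ℝ)).const_add x).prodMk
        (hO w))).mul_const _).hasFDerivAt)
  have i1 : Integrable (fun w => fderiv ℝ f (x, w) (1, A w) * h w) μ := by
    have := key.1.apply_continuousLinearMap 1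
    simpa [L] using this
  refine ⟨i1, ?_⟩
  have h2 := key.2.hasDerivAt
  rw [L.integral_comp_comm i1] at h2
  simpa [L] using h2

omit [FiniteDimensional ℝ W] [MeasurableSpace W] [BorelSpace W] in
theorem un_der {w η : W} (w0 : w ≠ 0) (h : ⟪w, η⟫ = 0) :
    HasDerivAt (fun r : ℝ => ‖w + r • η‖⁻¹ • (w + r • η)) (‖w‖⁻¹ • η) 0 := by
  have c : HasDerivAt (fun r : ℝ => w + r • η) η 0 := by
    simpa using ((hasDerivAt_id (0 : ℝ)).smul_const η).const_add w
  have n0 : ‖w‖ ≠ 0 := norm_ne_zero_iff.2 w0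
  have c1 := c.norm_sq.sqrt (by simpa using w0)
  simp only [Real.sqrt_sq (norm_nonneg _), zero_smul, add_zero, h, mul_zero, zero_div] at c1
  have c2 := (c1.fun_inv (by simpa using w0)).fun_smul c
  simpa using c2

end Pool.Agent.MP_3ee8cb_gt.NS.Monx
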