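import Pool.Agent.MP_3ee8cb_gt.NS.Spec
import Pool.Agent.MP_3ee8cb_gt.NS.RMon0
import Pool.Agent.MP_3ee8cb_gt.DZZ.Mon
import Pool.Agent.MP_3ee8cb_gt.D3LM.Lip

/-! The differential inequalities for the mass and the weighted field along a geodesic. -/

namespace Pool.Agent.MP_3ee8cb_gt.NS

open DN (Dim dm)

variable [Dim]

open Set Filter Topology MeasureTheory Metric Real DN DZ
open scoped RealInnerProductSpace

namespace Monx

theorem un1 {w : V} (h : w ≠ 0) : ‖un w‖ = 1 := norm_smul_inv_norm (𝕜 := ℝ) h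

theorem cd_un {w : V} (h : w ≠ 0) : ContDiffAt ℝ 1 un w :=
  ((contDiffAt_norm ℝ (n := 1) h).inv (norm_ne_zero_iff.2 h)).smul contDiffAt_id

theorem un_rot (O : V ≃ₗᵢ[ℝ] V) (w : V) : un (O w) = O (un w) := by simp [un]

theorem lip_u {U : V × V → ℝ}
    (hU : ∀ R : ℝ, ∃ K, LipschitzOnWith K U {q | ‖q.1‖ ≤ R ∧ ‖q.2‖ = 1}) {γ : ℝ → V}
    (hγ : ContDiff ℝ 1 γ) : LocallyLipschitzOn {q : ℝ × V | q.2 ≠ 0} fun q => U (γ q.1, un q.2) := by
  rintro ⟨t, w⟩ (w0 : w ≠ 0)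
  obtain ⟨K, hK⟩ := hU (‖γ t‖ + 1)
  have c : ContDiffAt ℝ 1 (fun q : ℝ × V => (γ q.1, un q.2)) (t, w) :=
    (hγ.contDiffAt.comp _ contDiffAt_fst).prodMk
      (ContDiffAt.comp (g := un) (t, w) (cd_un w0) contDiffAt_snd)
  obtain ⟨K1, t1, n1, h1⟩ := c.exists_lipschitzOnWith
  have n2 : ∀ᶠ q : ℝ × V in 𝓝 (t, w), ‖γ q.1‖ ≤ ‖γ t‖ + 1 :=
    (hγ.continuous.comp continuous_fst).norm.continuousAt.eventually_le_const (lt_add_one _)
  exact ⟨K * K1, t1 ∩ {q | ‖γ q.1‖ ≤ ‖γ t‖ + 1} ∩ {q | q.2 ≠ 0},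
    inter_mem (nhdsWithin_le_nhds (inter_mem n1 n2)) self_mem_nhdsWithin,
    hK.comp (h1.mono fun q hq => hq.1.1) fun q hq => ⟨hq.1.2, un1 hq.2⟩⟩

theorem lip_b {h : ℝ × V → ℝ} (hh : LocallyLipschitzOn {q : ℝ × V | q.2 ≠ 0} h) {e : ℝ → V}
    (he : ContDiff ℝ 1 e) (s : ℝ) :
    LocallyLipschitzOn {q : ℝ × V | q.2 ≠ 0} fun q => -(exp (s * h q) * ⟪un q.2, e q.1⟫) := by
  refine lip_out (H := fun q : ℝ × ℝ × V => -(exp (s * q.1) * ⟪un q.2.2, e q.2.1⟫))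
    (isOpen_ne.preimage continuous_snd) hh fun q hq => ?_
  have c1 : ContDiffAt ℝ 1 (fun q : ℝ × ℝ × V => un q.2.2) q :=
    ContDiffAt.comp (g := un) q (cd_un hq) contDiffAt_snd.snd
  have c2 : ContDiffAt ℝ 1 (fun q : ℝ × ℝ × V => e q.2.1) q :=
    he.contDiffAt.comp q contDiffAt_snd.fst
  have c3 : ContDiffAt ℝ 1 (fun q : ℝ × ℝ × V => exp (s * q.1)) q := by fun_prop
  exact (c3.mul (c1.inner ℝ c2)).neg

theorem key {U Φ : V × V → ℝ} {D : V × V →L[ℝ] ℝ} {γ : ℝ → V} {t s : ℝ} {v w η : V}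
    (hγ : HasDerivAt γ v t) (s0 : 0 ≤ s) (w0 : w ≠ 0) (hη : ⟪w, η⟫ = 0)
    (hΦ : HasFDerivAt Φ D (γ t, un w)) (e : Φ (γ t, un w) = U (γ t, un w))
    (le : ∀ᶠ q in 𝓝 (γ t, un w), ‖q.2‖ = 1 → Φ q ≤ U q)
    (hd : DifferentiableAt ℝ (fun q : ℝ × V => exp (s * U (γ q.1, un q.2))) (t, w)) :
    fderiv ℝ (fun q : ℝ × V => exp (s * U (γ q.1, un q.2))) (t, w) (1, η) =
      exp (s * U (γ t, un w)) * (s * D (v, ‖w‖⁻¹ • η)) := by
  have c0 : HasDerivAt (fun r : ℝ => w + r • η) η 0 := by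
    simpa using ((hasDerivAt_id (0 : ℝ)).smul_const η).const_add w
  have c1 := ((hasDerivAt_id (0 : ℝ)).const_add t).prodMk c0
  have c2 : HasDerivAt (fun r => (γ (t + r), un (w + r • η))) (v, ‖w‖⁻¹ • η) 0 :=
    (HasDerivAt.comp_const_add t 0 (by rwa [add_zero])).prodMk (un_der w0 hη)
  have c3 := hd.hasFDerivAt.comp_hasDerivAt_of_eq (0 : ℝ) c1 (by simp)
  have c4 := ((hΦ.comp_hasDerivAt_of_eq (0 : ℝ) c2 (by simp)).const_mul s).exp
  have t2 := c2.continuousAt.tendsto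
  simp only [add_zero, zero_smul] at t2
  have c5 := IsLocalMin.hasDerivAt_eq_zero (by
    filter_upwards [t2.eventually le, c0.continuousAt.eventually_ne (y := 0) (by simpa using w0)]
      with r h1 h2
    have := exp_le_exp.2 (mul_le_mul_of_nonneg_left (h1 (un1 h2)) s0)
    simpa [e] using this) (c3.fun_sub c4)
  simp only [Function.comp, add_zero, zero_smul, e] at c5
  linarith

theorem h0_perp {T : T3} {d : ℝ} (al : Alg T d) {w : V} (hw : ‖w‖ = 1) (e : V) :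
    ⟪w, H0 T w e⟫ = 0 := by
  have h1 : ⟪T w w e, w⟫ = 0 := by
    have := congrArg (⟪·, w⟫) (al.sk w w e)
    simp only [inner_neg_left] at this
    linarith
  rw [H0, inner_add_right, inner_sub_right, real_inner_smul_right, real_inner_self_eq_norm_sq, hw,
    real_inner_comm (T e w w), al.ps, h1]
  ring

theorem tr_one (P : V →L[ℝ] V) (e : V) : tr (P.comp ((innerSL ℝ e).smulRight e)) = ⟪e, P e⟫ := by
  have : ((P.comp ((innerSL ℝ e).smulRight e) : V →L[ℝ] V) : V →ₗ[ℝ] V) =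
      ((innerSL ℝ e : V →L[ℝ] ℝ) : V →ₗ[ℝ] ℝ).smulRight (P e) := by
    ext1 a
    simp
  rw [tr, this, LinearMap.trace_smulRight]
  simp

/-- The two inequalities from the pointwise identity. -/
theorem ineq (ibp : SIBP) (ms : MS) {φ : V → ℝ} {K : NNReal} {T : T3} {d ε : ℝ}
    (hφ : LipschitzOnWith K φ {w | ‖w‖ = 1}) (p0 : ∀ w, 0 ≤ φ w) (al : Alg T d) (e0 : 0 ≤ ε)
    {e : V} (he : ‖e‖ = 1) {l : V → ℝ} (i1 : Integrable l mS)
    (i2 : Integrable (fun w => l w * ⟪un w, e⟫) mS)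
    (h : ∀ᵐ w ∂mS, ∃ (c : ℝ) (ζ : V), 1 ≤ c ∧ c ≤ 1 + ε ∧ ‖ζ‖ ≤ ε ∧
      l w = φ (un w) * ((dm + d) * -⟪c • un w + ζ, e⟫) + sd φ w (H0 T (un w) e)) :
    (1 - 2 * (dm + d) * ε) * ∫ w, φ (un w) ∂mS ≤ -∫ w, l w * ⟪un w, e⟫ ∂mS ∧
      -∫ w, φ (un w) * ⟪un w, e⟫ ∂mS - 2 * (dm + d) * ε * ∫ w, φ (un w) ∂mS ≤ ∫ w, l w ∂mS := by
  have rt : DZZ.Rot mS := ⟨ms.fin, ms.rot, ms.mem.mono fun w hw => ne0 hw, ms.mass⟩
  obtain ⟨b1, b2⟩ := ibp φ K T d ms hφ al
  obtain ⟨b1, b3⟩ := b1 ((innerSL ℝ e).smulRight e)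
  obtain ⟨b2, b4⟩ := b2 e
  have s0 : (0 : ℝ) ≤ dm + d := add_nonneg (by positivity) al.d0
  have c := hφ.continuousOn
  have j0 : Integrable (fun w => φ (un w)) mS := rt.int c
  have j1 : Integrable (fun w => φ (un w) * ⟪un w, e⟫) mS :=
    rt.int (f := fun w => φ w * ⟪w, e⟫) (c.mul (by fun_prop))
  have t1 := tr_one (.id ℝ V) e
  rw [ContinuousLinearMap.id_comp, ContinuousLinearMap.id_apply, real_inner_self_eq_norm_sq, he,
    one_pow] at t1
  have t2 : ∀ w : V, (innerSL ℝ e).smulRight e w = ⟪w, e⟫ • e := fun w => by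
    simp [real_inner_comm]
  have t3 : ∀ w, sd φ w (H0 T (un w) (⟪un w, e⟫ • e)) = ⟪un w, e⟫ * sd φ w (H0 T (un w) e) :=
    fun w => by
      rw [sd, sd, ← smul_eq_mul, ← map_smul, smul_comm]
      simp only [H0, map_smul, smul_apply, real_inner_smul_right, smul_add,
        smul_sub, mul_smul]
  simp only [t1, tr_one, t2, t3, real_inner_smul_right] at b1 b3
  have j2 : Integrable (fun w => φ (un w) *
      (1 + ⟪e, Pw T (un w) e⟫ - (dm + d) * (⟪un w, e⟫ * ⟪un w, e⟫))) mS :=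
    rt.int (f := fun w => φ w * (1 + ⟪e, T e w w⟫ - (dm + d) * (⟪w, e⟫ * ⟪w, e⟫)))
      (c.mul (by fun_prop))
  have bd : ∀ᵐ w ∂mS, ∃ c z : ℝ, 1 ≤ c ∧ c ≤ 1 + ε ∧ |z| ≤ ε ∧ |⟪un w, e⟫| ≤ 1 ∧
      l w = -(φ (un w) * (dm + d) * (c * ⟪un w, e⟫ + z)) + sd φ w (H0 T (un w) e) := by
    filter_upwards [h, rt.ne] with w ⟨c, ζ, a1, a2, a3, a4⟩ w0
    refine ⟨c, ⟪ζ, e⟫, a1, a2, ?_, ?_, ?_⟩
    · simpa [he] using (abs_real_inner_le_norm ζ e).trans (by rwa [he, mul_one])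
    · simpa [he, un1 w0] using abs_real_inner_le_norm (un w) e
    · rw [a4, inner_add_left, real_inner_smul_left]
      ring
  constructor
  · have k := integral_mono_ae (j0.const_mul (1 - 2 * (dm + d) * ε)) ((j2.add b1).sub i2) (by
      filter_upwards [bd] with w ⟨c, z, a1, a2, a3, a4, a5⟩
      have q0 := p0 (un w)
      have q1 : 0 ≤ ⟪e, Pw T (un w) e⟫ := real_inner_comm e _ ▸ al.pos e (un w)
      have q2 : |z * ⟪un w, e⟫| ≤ ε := by
        rw [abs_mul]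
        exact (mul_le_mul a3 a4 (abs_nonneg _) e0).trans (mul_one _).le
      have q3 := mul_nonneg (sub_nonneg.2 a1) (mul_self_nonneg ⟪un w, e⟫)
      have q4 : 0 ≤ (c - 1) * (⟪un w, e⟫ * ⟪un w, e⟫) + z * ⟪un w, e⟫ + 2 * ε := by
        linarith [neg_le_of_abs_le q2]
      have q5 := mul_nonneg (mul_nonneg q0 s0) q4
      have q6 := mul_nonneg q0 q1
      simp only [Pi.add_apply, Pi.sub_apply, a5]
      linarith)
    rw [integral_const_mul, integral_sub' (j2.add b1) i2, integral_add' j2 b1, b3] at k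
    linarith
  · have k := integral_mono_ae ((j1.const_mul (-(dm + d))).sub (j0.const_mul (2 * (dm + d) * ε)))
      (i1.sub b2) (by
      filter_upwards [bd] with w ⟨c, z, a1, a2, a3, a4, a5⟩
      have q0 := p0 (un w)
      have q3 := mul_le_mul_of_nonneg_left (le_of_abs_le a4) (sub_nonneg.2 a1)
      have q4 : 0 ≤ 2 * ε - (c - 1) * ⟪un w, e⟫ - z := by linarith [le_of_abs_le a3]
      have q5 := mul_nonneg (mul_nonneg q0 s0) q4
      simp only [Pi.sub_apply, a5]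
      linarith)
    rw [integral_sub' i1 b2, integral_sub' (j1.const_mul _) (j0.const_mul _), integral_const_mul,
      integral_const_mul, b4] at k
    linarith

end Monx

open Monx

theorem sMON : SMON := by
  intro ibp m₀ m lg dX T d ε u C C₀ Q ms xw yw al e0 _ sp x z L hz hC
  have := ms.fin
  have rt : DZZ.Rot mS := ⟨ms.fin, ms.rot, ms.mem.mono fun w hw => ne0 hw, ms.mass⟩
  have s0 : (0 : ℝ) ≤ dm + d := add_nonneg (by positivity) (al x).d0
  have cZ : ContDiff ℝ 1 fun t => m.Z t z := yw.ok.cZ.comp (contDiff_id.prodMk contDiff_const)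
  have hU : ∀ R : ℝ, ∃ K, LipschitzOnWith K (fun q : V × V => u x q.1 q.2)
      {q | ‖q.1‖ ≤ R ∧ ‖q.2‖ = 1} := fun R => (sp.lipz x R).imp fun K hK => hK x (by simp [xw.self])
  have op : IsOpen {q : ℝ × V | q.2 ≠ 0} := isOpen_ne.preimage continuous_snd
  have l0 := lip_u hU cZ.fst
  set g : ℝ × V → ℝ := fun q => exp ((dm + d) * u x (m.Z q.1 z).1 (un q.2)) with hg
  have l1 : LocallyLipschitzOn {q : ℝ × V | q.2 ≠ 0} g :=
    lip_out (H := fun q => exp ((dm + d) * q.1)) op l0 fun q _ => by fun_prop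
  have l2 : LocallyLipschitzOn {q : ℝ × V | q.2 ≠ 0} fun q => -(g q * ⟪un q.2, (m.Z q.1 z).2⟫) :=
    lip_b l0 cZ.snd _
  have cu : ContinuousOn (fun q : V × V => u x q.1 q.2) {q | ‖q.2‖ = 1} := fun q hq => by
    obtain ⟨K, hK⟩ := hU (‖q.1‖ + 1)
    refine (hK.continuousOn q ⟨by linarith, hq⟩).mono_of_mem_nhdsWithin ?_
    exact inter_mem (nhdsWithin_le_nhds (continuous_fst.norm.continuousAt.eventually
      (Iic_mem_nhds (lt_add_one _)))) self_mem_nhdsWithin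
  have vv : ∀ (t : ℝ) (e : V) (O : V ≃ₗᵢ[ℝ] V), ⟪VV (Gs (dm + d) u) x (m.Z t z).1, O e⟫ =
      ∫ w, g (t, O w) * ⟪un w, e⟫ ∂mS := fun t e O => by
    simp only [hg, un_rot]
    exact (DZZ.av_inner (u := fun q => exp ((dm + d) * u x q.1 q.2)) rt
      (continuous_exp.comp_continuousOn (continuousOn_const.mul cu)) _ e O).2
  have aa : ∀ (t : ℝ) (O : V ≃ₗᵢ[ℝ] V), AA (Gs (dm + d) u) x (m.Z t z).1 =
      ∫ w, g (t, O w) * 1 ∂mS := fun t O => by
    simp only [hg, un_rot, mul_one]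
    exact rt.comp O (Gs (dm + d) u x (m.Z t z).1)
  constructor
  · obtain ⟨K1, h1⟩ := lip_int l1 ms.mem L
    obtain ⟨K2, h2⟩ := lip_int l2 ms.mem L
    simp only [integral_neg] at h2
    have k1 := fun t => vv t (m.Z t z).2 (.refl _ _)
    have k2 := fun t => aa t (.refl _ _)
    simp only [LinearIsometryEquiv.coe_refl, id, mul_one] at k1 k2
    simp only [k1, k2]
    exact ⟨max K1 K2, h1.weaken (le_max_left _ _), h2.weaken (le_max_right _ _)⟩
  filter_upwards [Measure.ae_ae_of_ae_prod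
    (D3LM.ae_diff ((volume : Measure ℝ).prod (volume : Measure V)) op l1)] with t h2 ht
  have h3 : ∀ᵐ w ∂mS, DifferentiableAt ℝ g (t, w) := by
    filter_upwards [ms.ac.ae_le h2, rt.ne] with w hw w0 using hw w0
  obtain ⟨O, -, o1, o2⟩ := yw.jac.par z
  have he : ‖(m.Z t z).2‖ = 1 := (yw.jac.norm t z).trans hz
  have p0 : ∀ a, ((O t).symm.trans (O (t + 0))) a = a := fun a => by simp
  have p1 : ∀ a, HasDerivAt (fun r => ((O t).symm.trans (O (t + r))) a) ((-m.w z t) a) 0 :=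
    fun a => HasDerivAt.comp_const_add (f := fun r => O r ((O t).symm a)) t 0
      (by simpa using o2 ((O t).symm a) t)
  have p2 : ∀ r, ((O t).symm.trans (O (t + r))) (m.Z t z).2 = (m.Z (t + r) z).2 := fun r => by
    simp [← o1]
  obtain ⟨i1, d1⟩ := dom l1 t ms.mem p0 p1 (h := fun _ => 1) measurable_const (by simp) h3
  obtain ⟨i2, d2⟩ := dom l1 t ms.mem p0 p1 (h := fun w => ⟪un w, (m.Z t z).2⟫)
    (by unfold un; fun_prop) (rt.ne.mono fun w w0 => by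
      simpa [he, un1 w0] using abs_real_inner_le_norm (un w) (m.Z t z).2) h3
  simp only [← aa] at d1
  simp only [← vv, p2] at d2
  simp only [mul_one] at i1 d1
  obtain ⟨K', hK'⟩ := (l1.mono (s := {t} ×ˢ sphere 0 1) fun q hq h0 => by
    simpa [h0] using hq.2).exists_lipschitzOnWith_of_compact
      (isCompact_singleton.prod (isCompact_sphere _ _))
  have lφ : LipschitzOnWith K' (Gs (dm + d) u x (m.Z t z).1) {w | ‖w‖ = 1} :=
    LipschitzOnWith.of_dist_le_mul fun a ha b hb => by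
      have := hK'.dist_le_mul (t, a) ⟨rfl, by simpa using ha⟩ (t, b) ⟨rfl, by simpa using hb⟩
      replace ha : ‖a‖ = 1 := ha
      replace hb : ‖b‖ = 1 := hb
      simpa [hg, un, ha, hb, Gs] using this
  have k := ineq ibp ms lφ (fun w => (exp_pos _).le) (al (m.Z t z).1) e0 he i1 i2 (by
    filter_upwards [h3, rt.ne] with w hw w0
    obtain ⟨Φ, D, c, ζ, a1, a2, a3, a4, a5, -, a6, -, -, a7⟩ :=
      sp.tou x _ _ (hC t (Ioo_subset_Icc_self ht)) (un1 w0)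
    refine ⟨c, ζ, a4, a5, a6, ?_⟩
    have n0 : ‖w‖ ≠ 0 := norm_ne_zero_iff.2 w0
    set y := (m.Z t z).1
    set e := (m.Z t z).2
    set H := H0 (T y) (un w) e with hH
    have b1 : ⟪w, (-m.w z t) w - ‖w‖ • H⟫ = 0 := by
      have q1 := yw.ok.skew y (m.R y e) w w
      have q2 := h0_perp (al y) (un1 w0) e
      rw [un, real_inner_smul_left, mul_eq_zero, inv_eq_zero, or_iff_right n0] at q2
      rw [real_inner_comm] at q1
      rw [inner_sub_right, real_inner_smul_right, neg_apply, inner_neg_right,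
        hH, un, q2, MF.w]
      linarith
    have b2 := key (U := fun q => u x q.1 q.2) (γ := fun r => (m.Z r z).1)
      ((ContinuousLinearMap.fst ℝ V V).hasFDerivAt.comp_hasDerivAt t (yw.ok.ode z t)) s0 w0 b1
      a1 a2 a3 hw
    have b3 : m.hor (y, un w) (m.R y e, ‖w‖⁻¹ • ((-m.w z t) w - ‖w‖ • H)) = e := yw.ok.SR y e
    have b4 := a7 (m.R y e, ‖w‖⁻¹ • ((-m.w z t) w - ‖w‖ • H)) (by
      rw [b3, ← hH]
      simp [MF.ver, MF.w, un, smul_sub, smul_smul, n0, y, e]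
      abel)
    have b5 : sd (Gs (dm + d) u x y) w H = fderiv ℝ g (t, w) (0, ‖w‖ • H) :=
      congrArg (· (‖w‖ • H)) (hw.hasFDerivAt.comp w (hasFDerivAt_prodMk_right t w)).fderiv
    rw [b3] at b4
    have b6 : fderiv ℝ g (t, w) (1, (-m.w z t) w - ‖w‖ • H) = Gs (dm + d) u x y (un w) *
      ((dm + d) * D (m.R y e, ‖w‖⁻¹ • ((-m.w z t) w - ‖w‖ • H))) := b2
    rw [b5, ← b4, ← b6, ← map_add]
    simp)
  have d3 := HasDerivAt.comp_const_add (-t) t (by rwa [neg_add_cancel] : HasDerivAt _ _ (-t + t))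
  have d4 := HasDerivAt.comp_const_add (-t) t
    (by rw [neg_add_cancel]; exact d2.fun_neg : HasDerivAt _ _ (-t + t))
  simp only [add_neg_cancel_left] at d3 d4
  have k1 : ⟪VV (Gs (dm + d) u) x (m.Z t z).1, (m.Z t z).2⟫ =
      ∫ w, Gs (dm + d) u x (m.Z t z).1 (un w) * ⟪un w, (m.Z t z).2⟫ ∂mS :=
    vv t (m.Z t z).2 (.refl _ _)
  rw [← k1] at k
  exact ⟨_, _, d3, d4, k.1, k.2⟩

end Pool.Agent.MP_3ee8cb_gt.NS
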